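import Mathlib

/-!
Definitions for isomorphism testing of Boolean functions: the cube, the relative Hamming distance,
permuted functions, query trees, randomized query algorithms, testers, efficiently testable
families and functions that depend on `k` coordinates and the Hamming weight.
-/

open Finset

namespace Pool.Agent.MP4d28ec

/-- The Boolean cube `{0,1}^n`. -/
abbrev Cube (n : ℕ) : Type := Fin n → Bool

/-- The Hamming weight of a point of the cube. -/
def wt {n : ℕ} (x : Cube n) : ℕ := (Finset.univ.filter fun i => x i = true).card

/-- `dist f g` is the fraction of the points of the cube at which `f` and `g` differ. -/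
noncomputable def dist {n : ℕ} (f g : Cube n → Bool) : ℝ :=
  ((Finset.univ.filter fun x => f x ≠ g x).card : ℝ) / 2 ^ n

/-- The function `x ↦ g (x_{π(1)}, …, x_{π(n)})`. -/
def permute {n : ℕ} (g : Cube n → Bool) (π : Equiv.Perm (Fin n)) : Cube n → Bool :=
  fun x => g (fun i => x (π i))

/-- A deterministic adaptive query algorithm: a decision tree. It either stops with an answer, or
queries the unknown function at a point and continues with the left tree if the value is `false`
and with the right tree if the value is `true`. -/
inductive QueryTree (n : ℕ) : Type
  | stop (answer : Bool) : QueryTree n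
  | query (x : Cube n) (onFalse onTrue : QueryTree n) : QueryTree n

/-- The answer of the query algorithm on the unknown function `f`. -/
def QueryTree.run {n : ℕ} : QueryTree n → (Cube n → Bool) → Bool
  | .stop b, _ => b
  | .query x t₀ t₁, f => if f x = true then t₁.run f else t₀.run f

/-- The largest number of queries that the algorithm makes. -/
def QueryTree.queries {n : ℕ} : QueryTree n → ℕ
  | .stop _ => 0
  | .query _ t₀ t₁ => max t₀.queries t₁.queries + 1

/-- A randomized algorithm with at most `q` queries: a finitely supported probability distribution
on decision trees with at most `q` queries. -/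
structure RandAlg (n q : ℕ) where
  /-- The number of outcomes of the random choice. -/
  size : ℕ
  /-- The probability of an outcome. -/
  prob : Fin size → ℝ
  prob_nonneg : ∀ i, 0 ≤ prob i
  prob_sum : ∑ i, prob i = 1
  /-- The decision tree chosen at an outcome. -/
  tree : Fin size → QueryTree n
  queries_le : ∀ i, (tree i).queries ≤ q

/-- The probability that the randomized algorithm answers `b` on the unknown function `f`. -/
noncomputable def RandAlg.probAnswer {n q : ℕ} (T : RandAlg n q) (f : Cube n → Bool) (b : Bool) : ℝ :=
  ∑ i ∈ Finset.univ.filter (fun i => (T.tree i).run f = b), T.prob i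

/-- `T` is an `ε`-tester for isomorphism to `g`. -/
def IsTester {n q : ℕ} (ε : ℝ) (g : Cube n → Bool) (T : RandAlg n q) : Prop :=
  (∀ f : Cube n → Bool, (∃ π, f = permute g π) → 2 / 3 ≤ T.probAnswer f true) ∧
    (∀ f : Cube n → Bool, (∀ π, ε ≤ dist f (permute g π)) → 2 / 3 ≤ T.probAnswer f false)

/-- The family `g` is efficiently isomorphism testable. -/
def EfficientlyTestable (g : (n : ℕ) → Cube n → Bool) : Prop :=
  ∀ ε : ℝ, 0 < ε → ∃ q : ℕ, ∀ n : ℕ, ∃ T : RandAlg n q, IsTester ε (g n) T

/-- `h` is `k`-partially symmetric: it is a function of `k` coordinates and the Hamming weight. -/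
def PartiallySymmetric {n : ℕ} (k : ℕ) (h : Cube n → Bool) : Prop :=
  ∃ (ρ : Fin k → Fin n) (H : (Fin k → Bool) → ℕ → Bool), ∀ x, h x = H (fun a => x (ρ a)) (wt x)

end Pool.Agent.MP4d28ec
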