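import Pool.Agent.Lib.MP_4d28ec_h44.Prob
import Pool.Agent.Lib.MP_4d28ec_h44.Defs

/-!
Equidistribution of the Hamming weight modulo `L`, and the lower bound for the distance of a
function that reads the coordinate `|x| mod s` to `k`-partially symmetric functions.
-/

open Finset

namespace Pool.Agent.MP4d28ec

/-- the fraction of the points of the cube whose weight is `j` modulo `L` -/
noncomputable def res (L n j : ℕ) : ℝ :=
  ((Finset.univ.filter fun x : Cube n => wt x % L = j).card : ℝ) / 2 ^ n

theorem wt_eq_sum {n : ℕ} (x : Cube n) : wt x = ∑ i, if x i = true then 1 else 0 := by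
  rw [wt, Finset.card_filter]

theorem wt_cons {n : ℕ} (b : Bool) (x : Cube n) :
    wt (Fin.cons b x : Cube (n + 1)) = (if b = true then 1 else 0) + wt x := by
  rw [wt_eq_sum, Fin.sum_univ_succ, wt_eq_sum]
  simp only [Fin.cons_zero, Fin.cons_succ]

theorem wt_perm {n : ℕ} (x : Cube n) (e : Equiv.Perm (Fin n)) : wt (fun i => x (e i)) = wt x := by
  rw [wt_eq_sum, wt_eq_sum]
  exact Equiv.sum_comp e (fun i => if x i = true then 1 else 0)

theorem card_cube_succ {n : ℕ} (p : Cube (n + 1) → Prop) [DecidablePred p] :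
    (univ.filter p).card = (univ.filter fun x : Cube n => p (Fin.cons true x)).card +
      (univ.filter fun x : Cube n => p (Fin.cons false x)).card := by
  rw [Finset.card_filter, Finset.card_filter, Finset.card_filter,
    ← (Fin.consEquiv (fun _ : Fin (n + 1) => Bool)).sum_comp, Fintype.sum_prod_type,
    Fintype.sum_bool]
  rfl

/-- normalised number of points of weight `c` in `ZMod L` -/
noncomputable def zres (L n : ℕ) (c : ZMod L) : ℝ :=
  ((Finset.univ.filter fun x : Cube n => (wt x : ZMod L) = c).card : ℝ) / 2 ^ n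

theorem zres_succ (L n : ℕ) (c : ZMod L) :
    zres L (n + 1) c = (zres L n c + zres L n (c - 1)) / 2 := by
  rw [zres, zres, zres, card_cube_succ]
  have h1 : (univ.filter fun x : Cube n => ((wt (Fin.cons true x : Cube (n + 1)) : ℕ) : ZMod L) = c)
      = univ.filter fun x : Cube n => (wt x : ZMod L) = c - 1 := by
    ext x
    rw [mem_filter, mem_filter, wt_cons]
    simp only [mem_univ, true_and, if_true, Nat.cast_add, Nat.cast_one]
    constructor
    · intro h; rw [← h]; ring
    · intro h; rw [h]; ring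
  have h2 : (univ.filter fun x : Cube n => ((wt (Fin.cons false x : Cube (n + 1)) : ℕ) : ZMod L) = c)
      = univ.filter fun x : Cube n => (wt x : ZMod L) = c := by
    ext x
    rw [mem_filter, mem_filter, wt_cons]
    simp
  rw [h1, h2]
  push_cast
  rw [pow_succ]
  ring

theorem zres_add (L n k : ℕ) (c : ZMod L) :
    zres L (n + k) c = ∑ i ∈ range (k + 1), ((k.choose i : ℝ) / 2 ^ k) * zres L n (c - i) := by
  induction k generalizing c with
  | zero => simp
  | succ k ih =>
    rw [← Nat.add_assoc, zres_succ, ih, ih, Finset.sum_range_succ' _ (k + 1)]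
    have h1 : ∀ i, ((k + 1).choose (i + 1) : ℝ) / 2 ^ (k + 1) * zres L n (c - ((i + 1 : ℕ) : ZMod L))
        = ((k.choose i : ℝ) / 2 ^ k * zres L n (c - 1 - i)) / 2 +
          ((k.choose (i + 1) : ℝ) / 2 ^ k * zres L n (c - ((i + 1 : ℕ) : ZMod L))) / 2 := by
      intro i
      have h2 : c - 1 - (i : ZMod L) = c - ((i + 1 : ℕ) : ZMod L) := by push_cast; ring
      rw [Nat.choose_succ_succ, h2, pow_succ]
      push_cast
      ring
    rw [Finset.sum_congr rfl (fun i _ => h1 i), Finset.sum_add_distrib, ← Finset.sum_div,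
      ← Finset.sum_div]
    have h3 : ∑ i ∈ range (k + 1), ((k.choose i : ℝ) / 2 ^ k) * zres L n (c - i) =
        (∑ i ∈ range (k + 1), ((k.choose (i + 1) : ℝ) / 2 ^ k) *
          zres L n (c - ((i + 1 : ℕ) : ZMod L))) + (1 / 2 ^ k) * zres L n c := by
      rw [Finset.sum_range_succ' _ k, Finset.sum_range_succ _ k, Nat.choose_succ_self]
      simp
    rw [h3]
    simp only [Nat.choose_zero_right, Nat.cast_one, Nat.cast_zero, sub_zero]
    rw [pow_succ]
    ring

theorem sum_zres (L n : ℕ) [NeZero L] : ∑ c : ZMod L, zres L n c = 1 := by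
  simp only [zres]
  rw [← Finset.sum_div, ← Nat.cast_sum]
  have h : ∑ c : ZMod L, (univ.filter fun x : Cube n => (wt x : ZMod L) = c).card =
      (univ : Finset (Cube n)).card := by
    rw [← Finset.card_eq_sum_card_fiberwise (f := fun x : Cube n => (wt x : ZMod L))
      (t := univ) (fun x _ => mem_coe.2 (mem_univ _))]
  rw [h]
  simp

theorem zres_nonneg (L n : ℕ) (c : ZMod L) : 0 ≤ zres L n c := by
  unfold zres; positivity

theorem zres_le_one (L n : ℕ) [NeZero L] (c : ZMod L) : zres L n c ≤ 1 := by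
  rw [← sum_zres L n]
  exact Finset.single_le_sum (fun c _ => zres_nonneg L n c) (mem_univ c)

theorem sum_range_zres (L n : ℕ) [NeZero L] (c : ZMod L) :
    ∑ i ∈ range L, zres L n (c - i) = 1 := by
  rw [← sum_zres L n]
  refine Finset.sum_bij (fun i _ => c - (i : ZMod L)) (fun _ _ => mem_univ _) ?_ ?_ ?_
  · intro i hi j hj h
    have h1 : (i : ZMod L) = (j : ZMod L) := by
      have := congrArg (fun z => c - z) h
      simpa using this
    rw [ZMod.natCast_eq_natCast_iff', Nat.mod_eq_of_lt (mem_range.1 hi),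
      Nat.mod_eq_of_lt (mem_range.1 hj)] at h1
    exact h1
  · intro d _
    refine ⟨(c - d).val, mem_range.2 (ZMod.val_lt _), ?_⟩
    rw [ZMod.natCast_val, ZMod.cast_id', id]
    ring
  · intro i _; rfl

theorem zres_contract (k n : ℕ) (E : ℝ)
    (hE : ∀ c : ZMod (k + 1), |zres (k + 1) n c - 1 / ((k + 1 : ℕ) : ℝ)| ≤ E) (c : ZMod (k + 1)) :
    |zres (k + 1) (n + k) c - 1 / ((k + 1 : ℕ) : ℝ)| ≤ (1 - ((k + 1 : ℕ) : ℝ) / 2 ^ k) * E := by
  have hk : (((k + 1 : ℕ) : ℝ)) ≠ 0 := by positivity
  have hsumw : ∑ i ∈ range (k + 1), ((k.choose i : ℝ) / 2 ^ k) = 1 := by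
    rw [← Finset.sum_div, ← Nat.cast_sum, Nat.sum_range_choose]
    simp
  have hw : ∀ i ∈ range (k + 1), 0 ≤ (k.choose i : ℝ) / 2 ^ k - 1 / 2 ^ k := by
    intro i hi
    rw [← sub_div]
    apply div_nonneg _ (by positivity)
    have : 1 ≤ k.choose i := Nat.choose_pos (by have := mem_range.1 hi; omega)
    have : (1 : ℝ) ≤ (k.choose i : ℝ) := by exact_mod_cast this
    linarith
  have hid : zres (k + 1) (n + k) c - 1 / ((k + 1 : ℕ) : ℝ) =
      ∑ i ∈ range (k + 1), ((k.choose i : ℝ) / 2 ^ k - 1 / 2 ^ k) *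
        (zres (k + 1) n (c - i) - 1 / ((k + 1 : ℕ) : ℝ)) := by
    have h1 : ∀ i ∈ range (k + 1), ((k.choose i : ℝ) / 2 ^ k - 1 / 2 ^ k) *
        (zres (k + 1) n (c - i) - 1 / ((k + 1 : ℕ) : ℝ)) =
        ((k.choose i : ℝ) / 2 ^ k) * zres (k + 1) n (c - i) - (1 / 2 ^ k) * zres (k + 1) n (c - i)
        - ((k.choose i : ℝ) / 2 ^ k) * (1 / ((k + 1 : ℕ) : ℝ)) +
          (1 / 2 ^ k) * (1 / ((k + 1 : ℕ) : ℝ)) := by
      intro i _; ring
    rw [Finset.sum_congr rfl h1, Finset.sum_add_distrib, Finset.sum_sub_distrib,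
      Finset.sum_sub_distrib, ← zres_add, ← Finset.mul_sum, sum_range_zres, ← Finset.sum_mul,
      hsumw, Finset.sum_const, card_range, nsmul_eq_mul]
    field_simp
    ring
  rw [hid]
  refine (Finset.abs_sum_le_sum_abs _ _).trans ?_
  have h2 : ∀ i ∈ range (k + 1), |((k.choose i : ℝ) / 2 ^ k - 1 / 2 ^ k) *
        (zres (k + 1) n (c - i) - 1 / ((k + 1 : ℕ) : ℝ))| ≤
        ((k.choose i : ℝ) / 2 ^ k - 1 / 2 ^ k) * E := by
    intro i hi
    rw [abs_mul, abs_of_nonneg (hw i hi)]
    exact mul_le_mul_of_nonneg_left (hE _) (hw i hi)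
  refine (Finset.sum_le_sum h2).trans ?_
  rw [← Finset.sum_mul, Finset.sum_sub_distrib, hsumw, Finset.sum_const, card_range,
    nsmul_eq_mul, mul_one_div]

theorem zres_iter (k : ℕ) (m : ℕ) : ∀ n, m * k ≤ n → ∀ c : ZMod (k + 1),
    |zres (k + 1) n c - 1 / ((k + 1 : ℕ) : ℝ)| ≤ (1 - ((k + 1 : ℕ) : ℝ) / 2 ^ k) ^ m := by
  induction m with
  | zero =>
    intro n _ c
    rw [pow_zero, abs_le]
    have h1 := zres_nonneg (k + 1) n c
    have h2 := zres_le_one (k + 1) n c
    have h3 : (0 : ℝ) ≤ 1 / ((k + 1 : ℕ) : ℝ) := by positivity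
    have h4 : 1 / ((k + 1 : ℕ) : ℝ) ≤ 1 := by
      rw [div_le_one (by positivity)]
      exact_mod_cast Nat.succ_le_succ (Nat.zero_le k)
    constructor <;> linarith
  | succ m ih =>
    intro n hn c
    obtain ⟨n', rfl⟩ : ∃ n', n = n' + k := ⟨n - k, by rw [Nat.succ_mul] at hn; omega⟩
    have := zres_contract k n' _ (ih n' (by rw [Nat.succ_mul] at hn; omega)) c
    rw [pow_succ']
    exact this

theorem res_eq_zres (L n j : ℕ) (hj : j < L) : res L n j = zres L n (j : ZMod L) := by
  rw [res, zres]
  congr 3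
  ext x
  rw [mem_filter, mem_filter, ZMod.natCast_eq_natCast_iff', Nat.mod_eq_of_lt hj]

/-- the weight of a uniformly random point is asymptotically equidistributed modulo `L` -/
theorem res_equi (L : ℕ) (hL : 0 < L) (η : ℝ) (h : 0 < η) :
    ∃ N, ∀ n ≥ N, ∀ j < L, |res L n j - 1 / L| ≤ η := by
  obtain ⟨k, rfl⟩ : ∃ k, L = k + 1 := ⟨L - 1, by omega⟩
  have h1 : (0 : ℝ) ≤ 1 - ((k + 1 : ℕ) : ℝ) / 2 ^ k := by
    rw [sub_nonneg, div_le_one (by positivity)]
    exact_mod_cast Nat.lt_two_pow_self
  have h2 : 1 - ((k + 1 : ℕ) : ℝ) / 2 ^ k < 1 := by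
    have : (0 : ℝ) < ((k + 1 : ℕ) : ℝ) / 2 ^ k := by positivity
    linarith
  obtain ⟨m, hm⟩ := exists_pow_lt_of_lt_one h h2
  refine ⟨m * k, fun n hn j hj => ?_⟩
  rw [res_eq_zres _ _ _ hj]
  exact (zres_iter k m n hn _).trans hm.le

/-- a permutation sending `0, 1` to two given different elements -/
theorem exists_perm {n : ℕ} {a b : Fin (n + 2)} (hab : a ≠ b) :
    ∃ e : Equiv.Perm (Fin (n + 2)), e 0 = a ∧ e 1 = b := by
  have hc : Equiv.swap 0 a 1 ≠ a := by
    intro h
    have h1 : Equiv.swap 0 a 1 = Equiv.swap 0 a 0 := by rw [h, Equiv.swap_apply_left]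
    exact absurd ((Equiv.swap 0 a).injective h1) (by simp)
  refine ⟨(Equiv.swap 0 a).trans (Equiv.swap (Equiv.swap 0 a 1) b), ?_, ?_⟩
  · rw [Equiv.trans_apply, Equiv.swap_apply_left, Equiv.swap_apply_of_ne_of_ne hc.symm hab]
  · rw [Equiv.trans_apply, Equiv.swap_apply_left]

/-- composition with a permutation of the coordinates, as a permutation of the cube -/
def cubePerm {n : ℕ} (e : Equiv.Perm (Fin n)) : Cube n ≃ Cube n where
  toFun x := fun i => x (e i)
  invFun x := fun i => x (e.symm i)
  left_inv x := by funext i; simp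
  right_inv x := by funext i; simp

theorem card_filter_equiv {α : Type*} [Fintype α] (e : α ≃ α) (p : α → Prop) [DecidablePred p] :
    (univ.filter fun x => p (e x)).card = (univ.filter p).card := by
  rw [Finset.card_filter, Finset.card_filter]
  exact Equiv.sum_comp e (fun x => if p x then 1 else 0)

/-- number of points of weight `j` modulo `L` with different values at two given coordinates -/
theorem card_pair {n L j : ℕ} (hj : j < L) {a b : Fin (n + 2)} (hab : a ≠ b) :
    (((univ.filter fun x : Cube (n + 2) => wt x % L = j ∧ x a ≠ x b).card : ℕ) : ℝ) =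
      2 * (2 ^ n * zres L n ((j : ZMod L) - 1)) := by
  obtain ⟨e, he0, he1⟩ := exists_perm hab
  have h1 : (univ.filter fun x : Cube (n + 2) => wt x % L = j ∧ x a ≠ x b).card =
      (univ.filter fun x : Cube (n + 2) => wt x % L = j ∧ x 0 ≠ x 1).card := by
    rw [← card_filter_equiv (cubePerm e) (fun x : Cube (n + 2) => wt x % L = j ∧ x 0 ≠ x 1)]
    congr 1
    ext x
    rw [mem_filter, mem_filter]
    have hw : wt (cubePerm e x) = wt x := wt_perm x e
    have h0 : cubePerm e x 0 = x a := by rw [← he0]; rfl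
    have h1 : cubePerm e x 1 = x b := by rw [← he1]; rfl
    rw [hw, h0, h1]
  have hz : (((univ.filter fun y : Cube n => (1 + wt y) % L = j).card : ℕ) : ℝ) =
      2 ^ n * zres L n ((j : ZMod L) - 1) := by
    rw [zres, mul_div_cancel₀ _ (by positivity)]
    congr 2
    ext y
    rw [mem_filter, mem_filter]
    have : (1 + wt y) % L = j ↔ ((wt y : ℕ) : ZMod L) = (j : ZMod L) - 1 := by
      have h2 : (1 + wt y) % L = j ↔ ((1 + wt y : ℕ) : ZMod L) = (j : ZMod L) := by
        rw [ZMod.natCast_eq_natCast_iff', Nat.mod_eq_of_lt hj]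
      rw [h2]
      push_cast
      constructor
      · intro h; rw [← h]; ring
      · intro h; rw [h]; ring
    rw [this]
  set F : Bool → Bool → ℕ := fun b₀ b₁ => (univ.filter fun y : Cube n =>
    wt (Fin.cons b₀ (Fin.cons b₁ y : Cube (n + 1)) : Cube (n + 2)) % L = j ∧ b₀ ≠ b₁).card with hF
  have h2 : (univ.filter fun x : Cube (n + 2) => wt x % L = j ∧ x 0 ≠ x 1).card =
      F true true + F true false + (F false true + F false false) := by
    rw [card_cube_succ, card_cube_succ, card_cube_succ]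
    rfl
  have f1 : F true true = 0 := by
    rw [hF]; simp
  have f2 : F false false = 0 := by
    rw [hF]; simp
  have f3 : F true false = (univ.filter fun y : Cube n => (1 + wt y) % L = j).card := by
    simp only [hF]
    congr 1
    ext y
    rw [mem_filter, mem_filter, wt_cons, wt_cons]
    simp
  have f4 : F false true = (univ.filter fun y : Cube n => (1 + wt y) % L = j).card := by
    simp only [hF]
    congr 1
    ext y
    rw [mem_filter, mem_filter, wt_cons, wt_cons]
    simp
  rw [h1, h2, f1, f2, f3, f4]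
  push_cast
  rw [hz]
  ring

/-- a swap of two coordinates that `h` does not read: half of the pairs are errors -/
theorem card_err {n k L j : ℕ} {a b : Fin n} {g h : Cube n → Bool} {ρ : Fin k → Fin n}
    {H : (Fin k → Bool) → ℕ → Bool} (hh : ∀ x, h x = H (fun t => x (ρ t)) (wt x))
    (ha : ∀ t, ρ t ≠ a) (hb : ∀ t, ρ t ≠ b) (hg : ∀ x : Cube n, wt x % L = j → g x = x a) :
    (univ.filter fun x : Cube n => wt x % L = j ∧ x a ≠ x b).card ≤
      2 * (univ.filter fun x : Cube n => wt x % L = j ∧ g x ≠ h x).card := by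
  set A := univ.filter fun x : Cube n => wt x % L = j ∧ x a ≠ x b with hA
  set e : Cube n ≃ Cube n := cubePerm (Equiv.swap a b) with he
  have hw : ∀ x, wt (e x) = wt x := fun x => wt_perm x _
  have hea : ∀ x, e x a = x b := fun x => by
    change x (Equiv.swap a b a) = x b
    rw [Equiv.swap_apply_left]
  have heb : ∀ x, e x b = x a := fun x => by
    change x (Equiv.swap a b b) = x a
    rw [Equiv.swap_apply_right]
  have heh : ∀ x, h (e x) = h x := by
    intro x
    rw [hh, hh, hw]
    congr 1
    funext t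
    change x (Equiv.swap a b (ρ t)) = x (ρ t)
    rw [Equiv.swap_apply_of_ne_of_ne (ha t) (hb t)]
  have h1 : (A.filter fun x => g x = h x).card ≤ (A.filter fun x => ¬ g x = h x).card := by
    apply Finset.card_le_card_of_injOn e
    · intro x hx
      rw [mem_coe, mem_filter, hA, mem_filter] at hx
      obtain ⟨⟨-, hx1, hx2⟩, hx3⟩ := hx
      rw [mem_coe, mem_filter, hA, mem_filter]
      refine ⟨⟨mem_univ _, by rw [hw]; exact hx1, by rw [hea, heb]; exact hx2.symm⟩, ?_⟩
      rw [hg _ (by rw [hw]; exact hx1), hea, heh, ← hx3, hg _ hx1]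
      exact hx2.symm
    · exact e.injective.injOn
  have h2 : (A.filter fun x => g x = h x).card + (A.filter fun x => ¬ g x = h x).card = A.card :=
    Finset.card_filter_add_card_filter_not _
  have h3 : (A.filter fun x => ¬ g x = h x).card ≤
      (univ.filter fun x : Cube n => wt x % L = j ∧ g x ≠ h x).card := by
    apply Finset.card_le_card
    intro x hx
    rw [mem_filter, hA, mem_filter] at hx
    rw [mem_filter]
    exact ⟨mem_univ _, hx.1.2.1, hx.2⟩
  omega

theorem card_mod_eq_le (s M r : ℕ) (hs : 0 < s) :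
    ((range (s * M)).filter fun j => j % s = r).card ≤ M := by
  have : ((range (s * M)).filter fun j => j % s = r).card ≤ (range M).card := by
    apply Finset.card_le_card_of_injOn (fun j => j / s)
    · intro j hj
      rw [mem_coe, mem_filter, mem_range] at hj
      rw [mem_coe, mem_range]
      exact Nat.div_lt_of_lt_mul hj.1
    · intro i hi j hj hij
      rw [mem_coe, mem_filter] at hi hj
      have h1 := Nat.div_add_mod i s
      have h2 := Nat.div_add_mod j s
      simp only at hij
      rw [hi.2, hij] at h1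
      rw [hj.2] at h2
      omega
  rwa [card_range] at this

theorem lower_bound {n s L M k : ℕ} (hs : 0 < s) (hM : 0 < M) (hL : L = s * M) (hsn : s ≤ n)
    (hn : s + k + 1 ≤ n) (g : Cube n → Bool)
    (hg : ∀ x : Cube n, M ≤ wt x % L →
      g x = x (Fin.castLE hsn ⟨(wt x % L) % s, Nat.mod_lt _ hs⟩))
    (η : ℝ) (h0 : 0 ≤ η) (h1 : η ≤ 1) (hres : ∀ j < L, (1 - η) / L ≤ res L (n - 2) j)
    (h : Cube n → Bool) (hh : PartiallySymmetric k h) :
    (1 / 4) * (1 - (k + 1) / s) * (1 - η) ≤ dist g h := by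
  obtain ⟨ρ, H, hρ⟩ := hh
  obtain ⟨n', rfl⟩ : ∃ n', n = n' + 2 := ⟨n - 2, by omega⟩
  have hLpos : 0 < L := by rw [hL]; exact Nat.mul_pos hs hM
  have : NeZero L := ⟨hLpos.ne'⟩
  have hz : ∀ c : ZMod L, (1 - η) / L ≤ zres L n' c := by
    intro c
    have h2 := hres c.val (ZMod.val_lt c)
    rw [Nat.add_sub_cancel, res_eq_zres _ _ _ (ZMod.val_lt c), ZMod.natCast_val,
      ZMod.cast_id', id] at h2
    exact h2
  -- a coordinate outside the range of `ρ` and outside the first `s` ones
  obtain ⟨b, hb1, hb2⟩ : ∃ b : Fin (n' + 2), s ≤ b.val ∧ ∀ t, ρ t ≠ b := by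
    by_contra hcon
    push Not at hcon
    have h2 : (univ.filter fun b : Fin (n' + 2) => s ≤ b.val).card ≤
        (univ.image ρ).card := by
      apply Finset.card_le_card
      intro b hb
      rw [mem_filter] at hb
      obtain ⟨t, ht⟩ := hcon b hb.2
      rw [mem_image]
      exact ⟨t, mem_univ _, ht⟩
    have h3 : (univ.image ρ).card ≤ k := by
      refine Finset.card_image_le.trans ?_
      simp
    have h4 : (univ.filter fun b : Fin (n' + 2) => s ≤ b.val).card = n' + 2 - s := by
      have h5 : (univ.filter fun b : Fin (n' + 2) => s ≤ b.val).card +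
          (univ.filter fun b : Fin (n' + 2) => ¬ s ≤ b.val).card = (univ : Finset (Fin (n' + 2))).card :=
        Finset.card_filter_add_card_filter_not _
      have h6 : (univ.filter fun b : Fin (n' + 2) => ¬ s ≤ b.val).card = s := by
        have h7 : (univ.filter fun b : Fin (n' + 2) => ¬ s ≤ b.val) =
            (univ : Finset (Fin s)).map (Fin.castLEEmb hsn) := by
          ext b
          rw [mem_filter, mem_map]
          constructor
          · intro hb
            refine ⟨⟨b.val, by omega⟩, mem_univ _, ?_⟩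
            ext; rfl
          · rintro ⟨c, -, rfl⟩
            refine ⟨mem_univ _, ?_⟩
            simp
        rw [h7, card_map, card_univ, Fintype.card_fin]
      rw [h6, card_univ, Fintype.card_fin] at h5
      omega
    omega
  set co : ℕ → Fin (n' + 2) := fun j => Fin.castLE hsn ⟨j % s, Nat.mod_lt _ hs⟩ with hco
  set J := (range L).filter fun j => M ≤ j ∧ ∀ t, ρ t ≠ co j with hJ
  -- the size of `J`
  have hJcard : L ≤ J.card + M + k * M := by
    have h2 : (range L).card ≤ (J ∪ range M ∪ (univ : Finset (Fin k)).biUnion fun t =>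
        (range (s * M)).filter fun j => j % s = (ρ t).val).card := by
      apply Finset.card_le_card
      intro j hj
      rw [mem_union, mem_union, mem_biUnion]
      by_cases hjM : j < M
      · exact Or.inl (Or.inr (mem_range.2 hjM))
      · by_cases hjρ : ∀ t, ρ t ≠ co j
        · exact Or.inl (Or.inl (mem_filter.2 ⟨hj, by omega, hjρ⟩))
        · push Not at hjρ
          obtain ⟨t, ht⟩ := hjρ
          refine Or.inr ⟨t, mem_univ _, mem_filter.2 ⟨by rw [← hL]; exact hj, ?_⟩⟩
          rw [ht, hco]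
          rfl
    have h3 := Finset.card_union_le (J ∪ range M) ((univ : Finset (Fin k)).biUnion fun t =>
        (range (s * M)).filter fun j => j % s = (ρ t).val)
    have h4 := Finset.card_union_le J (range M)
    have h5 : ((univ : Finset (Fin k)).biUnion fun t =>
        (range (s * M)).filter fun j => j % s = (ρ t).val).card ≤ k * M := by
      refine (Finset.card_biUnion_le_card_mul _ _ M (fun t _ => card_mod_eq_le s M _ hs)).trans ?_
      simp
    rw [card_range] at h2 h4
    omega
  -- errors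
  have herr : ∀ j ∈ J, 2 ^ n' * ((1 - η) / L) ≤
      (((univ.filter fun x : Cube (n' + 2) => wt x % L = j ∧ g x ≠ h x).card : ℕ) : ℝ) := by
    intro j hj
    rw [hJ, mem_filter, mem_range] at hj
    obtain ⟨hjL, hjM, hjρ⟩ := hj
    have hab : co j ≠ b := by
      intro hc
      rw [← hc] at hb1
      have : (co j).val = j % s := rfl
      rw [this] at hb1
      have := Nat.mod_lt j hs
      omega
    have h2 := card_pair (n := n') hjL hab
    have h3 := card_err (L := L) (j := j) (g := g) hρ hjρ hb2 (by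
      intro x hx
      rw [hg x (by omega)]
      simp only [hco, hx])
    have h4 : (((univ.filter fun x : Cube (n' + 2) => wt x % L = j ∧ x (co j) ≠ x b).card : ℕ) : ℝ) ≤
        2 * (((univ.filter fun x : Cube (n' + 2) => wt x % L = j ∧ g x ≠ h x).card : ℕ) : ℝ) := by
      exact_mod_cast h3
    rw [h2] at h4
    have h5 := hz ((j : ZMod L) - 1)
    have h6 : (2 : ℝ) ^ n' * ((1 - η) / L) ≤ 2 ^ n' * zres L n' ((j : ZMod L) - 1) :=
      mul_le_mul_of_nonneg_left h5 (by positivity)
    linarith
  have hsum : (∑ j ∈ J, (univ.filter fun x : Cube (n' + 2) => wt x % L = j ∧ g x ≠ h x).card) ≤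
      (univ.filter fun x : Cube (n' + 2) => g x ≠ h x).card := by
    rw [← Finset.card_biUnion]
    · apply Finset.card_le_card
      intro x hx
      rw [mem_biUnion] at hx
      obtain ⟨j, -, hx⟩ := hx
      rw [mem_filter] at hx ⊢
      exact ⟨mem_univ _, hx.2.2⟩
    · intro i _ j _ hij
      rw [Function.onFun, Finset.disjoint_left]
      intro x hx hx'
      rw [mem_filter] at hx hx'
      exact hij (hx.2.1.symm.trans hx'.2.1)
  have hsum2 : (J.card : ℝ) * (2 ^ n' * ((1 - η) / L)) ≤
      (((univ.filter fun x : Cube (n' + 2) => g x ≠ h x).card : ℕ) : ℝ) := by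
    have h2 := Finset.sum_le_sum herr
    rw [Finset.sum_const, nsmul_eq_mul] at h2
    refine h2.trans ?_
    exact_mod_cast hsum
  have hLr : (0 : ℝ) < L := by exact_mod_cast hLpos
  have hsr : (0 : ℝ) < s := by exact_mod_cast hs
  have hMr : (0 : ℝ) < M := by exact_mod_cast hM
  have hLsM : (L : ℝ) = s * M := by rw [hL]; push_cast; ring
  have hJr : (L : ℝ) - M - k * M ≤ J.card := by
    have : (L : ℝ) ≤ J.card + M + k * M := by exact_mod_cast hJcard
    linarith
  rw [dist, le_div_iff₀ (by positivity)]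
  refine le_trans ?_ hsum2
  have h7 : (0 : ℝ) ≤ 2 ^ n' * ((1 - η) / L) := by
    apply mul_nonneg (by positivity)
    apply div_nonneg (by linarith) hLr.le
  refine le_trans ?_ (mul_le_mul_of_nonneg_right hJr h7)
  apply le_of_eq
  rw [hLsM]
  field_simp
  ring

end Pool.Agent.MP4d28ec
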