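import Pool.Agent.Lib.MP_4d28ec_h44.Rigid

/-!
The converse: a family whose statistics determine it is efficiently testable.
-/

open Finset

namespace Pool.Agent.MP4d28ec

open Pool.Agent.H44IT

/-- Extension by zero of a function on the subtype. -/
lemma sum_ext {α : Type*} [Fintype α] (C : α → Prop) [DecidablePred C] (p : {a // C a} → ℝ)
    (F : α → ℝ) :
    ∑ a, (if h : C a then p ⟨a, h⟩ else 0) * F a = ∑ a : {a // C a}, p a * F a.1 := by
  classical
  have h1 := Finset.sum_subtype (F := Subtype.fintype C) (Finset.univ.filter C) (p := C) (by simp)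
    (fun a => (if h : C a then p ⟨a, h⟩ else 0) * F a)
  have h2 : ∑ a : {a // C a}, p a * F a.1 =
      ∑ a : {a // C a}, (if h : C a.1 then p ⟨a.1, h⟩ else 0) * F a.1 := by
    apply Finset.sum_congr rfl
    intro a _
    rw [dif_pos a.2]
  rw [h2, ← h1, Finset.sum_filter]
  apply Finset.sum_congr rfl
  intro a _
  by_cases h : C a
  · rw [if_pos h]
  · rw [if_neg h, dif_neg h, zero_mul]

/-- A nonadaptive test with random relabelling. -/
lemma dependsOn_test {n q : ℕ} (x : Fin q → Cube n) (S : (Fin q → Bool) → Bool)
    (π : Equiv.Perm (Fin n)) :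
    DependsOn q (fun f : Cube n → Bool => S (fun j => permute f π (x j))) := by
  classical
  refine ⟨Finset.univ.image (fun j => fun k => x j (π k)), ?_, ?_⟩
  · exact Finset.card_image_le.trans (by simp)
  · intro f f' h
    show S _ = S _
    congr 1
    funext j
    exact h _ (Finset.mem_image.2 ⟨j, Finset.mem_univ _, rfl⟩)

theorem testable_of_rigid {g : (n : ℕ) → Cube n → Bool} (hg : Rigid g) :
    EfficientlyTestable g := by
  classical
  intro ε hε
  obtain ⟨q, δ, hδ, h⟩ := hg (min ε (1 / 2)) (lt_min hε (by norm_num))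
  set m : ℕ := ⌈3 / (δ / 8) ^ 2⌉₊ with hm
  have hm' : 3 ≤ (m : ℝ) * (δ / 8) ^ 2 := by
    have h1 : 3 / (δ / 8) ^ 2 ≤ m := Nat.le_ceil _
    rwa [div_le_iff₀ (by positivity)] at h1
  refine ⟨m * q, fun n => ?_⟩
  by_cases hF : Nonempty {f : Cube n → Bool // ∀ π, ε ≤ dist f (permute (g n) π)}
  · set u : ((Fin q → Cube n) × ((Fin q → Bool) → Bool)) →
      {f : Cube n → Bool // ∀ π, ε ≤ dist f (permute (g n) π)} → ℝ :=
      fun t f => acc (g n) t.1 t.2 - acc f.1 t.1 t.2 with hu
    obtain ⟨w, hw0, hw1, hw⟩ := minimax u (δ / 2) (δ / 4) (by linarith) (by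
      intro p hp0 hp1
      let P : RandFun n :=
        { prob := fun f => if hf : (∀ π, ε ≤ dist f (permute (g n) π)) then p ⟨f, hf⟩ else 0
          prob_nonneg := by
            intro f
            split_ifs with hf
            · exact hp0 _
            · exact le_rfl
          prob_sum := by
            have := sum_ext (fun f : Cube n → Bool => ∀ π, ε ≤ dist f (permute (g n) π)) p
              (fun _ => 1)
            simp only [mul_one] at this
            rw [this, hp1] }
      have hP : ¬ StatClose q δ P (g n) := by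
        intro hS
        have h1 := h n P hS
        unfold MostlyClose at h1
        have h2 : ∑ f ∈ Finset.univ.filter
            (fun f => ∃ π, dist f (permute (g n) π) < min ε (1 / 2)), P.prob f = 0 := by
          apply Finset.sum_eq_zero
          intro f hf
          rw [Finset.mem_filter] at hf
          obtain ⟨_, π, hπ⟩ := hf
          show (if hf : (∀ π, ε ≤ dist f (permute (g n) π)) then p ⟨f, hf⟩ else 0) = 0
          rw [dif_neg]
          intro hall
          have := hall π
          have := lt_of_lt_of_le hπ (min_le_left _ _)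
          linarith
        rw [h2] at h1
        have := min_le_right ε (1 / 2 : ℝ)
        linarith
      unfold StatClose at hP
      push Not at hP
      obtain ⟨x, hx⟩ := hP
      obtain ⟨S, hS⟩ := exists_test P (g n) x hx
      refine ⟨(x, S), hS.trans (le_of_eq ?_)⟩
      have h3 := sum_ext (fun f : Cube n → Bool => ∀ π, ε ≤ dist f (permute (g n) π)) p
        (fun f => acc f x S)
      simp only [hu, mul_sub, Finset.sum_sub_distrib, ← Finset.sum_mul, hp1, one_mul]
      rw [← h3])
    obtain ⟨I, _, _, c, hc⟩ := exists_uniform w hw0 hw1 (η := δ / 16) (by linarith)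
    have hc' : ∀ f : Cube n → Bool,
        |Ex (fun i : I => acc f (c i).1 (c i).2) - ∑ t, w t * acc f t.1 t.2| ≤ δ / 16 :=
      fun f => hc (fun t => acc f t.1 t.2) (fun t => acc_nonneg _ _ _) (fun t => acc_le_one _ _ _)
    have hpr : ∀ f : Cube n → Bool,
        Pr (fun i : I × Equiv.Perm (Fin n) =>
          (c i.1).2 (fun j => permute f i.2 ((c i.1).1 j)) = true) =
        Ex (fun i : I => acc f (c i).1 (c i).2) := by
      intro f
      rw [Pr_prod]
      rfl
    refine exists_tester_of_base (m := m) (q := q)
      (fun (i : I × Equiv.Perm (Fin n)) (f : Cube n → Bool) =>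
        (c i.1).2 (fun j => permute f i.2 ((c i.1).1 j)))
      (fun i => dependsOn_test _ _ _) (g n) ε (Ex (fun i : I => acc (g n) (c i).1 (c i).2))
      (Ex (fun i : I => acc (g n) (c i).1 (c i).2) - δ / 8) (by linarith) ?_ ?_ ?_
    · have : Ex (fun i : I => acc (g n) (c i).1 (c i).2) -
        (Ex (fun i : I => acc (g n) (c i).1 (c i).2) - δ / 8) = δ / 8 := by ring
      rw [this]
      exact hm'
    · rintro f ⟨π, rfl⟩
      rw [hpr]
      simp only [acc_permute]
      exact le_rfl
    · intro f hf
      rw [hpr]
      have h1 := hw ⟨f, hf⟩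
      simp only [hu, mul_sub, Finset.sum_sub_distrib] at h1
      have h2 := hc' f
      have h3 := hc' (g n)
      rw [abs_le] at h2 h3
      linarith
  · refine exists_tester_of_base (m := m) (q := q) (I := Unit) (fun _ _ => true)
      (fun _ => ⟨∅, by simp, fun _ _ _ => rfl⟩) (g n) ε 1 (1 - δ / 8) (by linarith) ?_ ?_ ?_
    · have : (1 : ℝ) - (1 - δ / 8) = δ / 8 := by ring
      rw [this]
      exact hm'
    · intro f _
      rw [Pr_true (fun _ => rfl)]
    · intro f hf
      exact absurd ⟨⟨f, hf⟩⟩ hF

theorem testable_iff_rigid (g : (n : ℕ) → Cube n → Bool) : EfficientlyTestable g ↔ Rigid g :=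
  ⟨rigid_of_testable, testable_of_rigid⟩

end Pool.Agent.MP4d28ec
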