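import Pool.Agent.Lib.MP_4d28ec_h44.Prob
import Pool.Agent.Lib.MP_4d28ec_h44.Defs

/-!
Module DIST: a function that is decoded correctly by a map on the residues of the weight is close
to every function that reads the coordinate given by an injection extending this map.
-/

open Finset

namespace Pool.Agent.MP4d28ec

open Pool.Agent.H44IT

lemma card_cube (n : ℕ) : (Fintype.card (Cube n) : ℝ) = 2 ^ n := by
  simp [Cube]

lemma dist_eq_Pr {n : ℕ} (f g : Cube n → Bool) : dist f g = Pr (fun x => f x ≠ g x) := by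
  classical
  rw [Pr_eq_card, card_cube]
  unfold dist
  congr

lemma Pr_residue_mem_le {n L : ℕ}
    (hres : ∀ j < L, ((Finset.univ.filter fun x : Cube n => wt x % L = j).card : ℝ) / 2 ^ n ≤ 2 / L)
    (J : Finset ℕ) (hJ : ∀ j ∈ J, j < L) :
    Pr (fun x : Cube n => wt x % L ∈ J) ≤ J.card * (2 / L) := by
  classical
  have h1 : Pr (fun x : Cube n => wt x % L ∈ J) ≤ ∑ j ∈ J, Pr (fun x : Cube n => wt x % L = j) := by
    refine le_trans (Pr_mono ?_) (Pr_exists_le J (fun j (x : Cube n) => wt x % L = j))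
    intro x hx
    exact ⟨_, hx, rfl⟩
  refine h1.trans ?_
  have h2 : ∀ j ∈ J, Pr (fun x : Cube n => wt x % L = j) ≤ 2 / L := by
    intro j hj
    rw [Pr_eq_card, card_cube]
    exact hres j (hJ j hj)
  calc ∑ j ∈ J, Pr (fun x : Cube n => wt x % L = j) ≤ ∑ _j ∈ J, (2 / (L : ℝ)) := Finset.sum_le_sum h2
    _ = J.card * (2 / L) := by rw [Finset.sum_const, nsmul_eq_mul]

/-- The number of distinct coordinates used by `sig`. -/
lemma exists_transversal {s n : ℕ} (hs : 0 < s) (sig : Fin s → Option (Fin n)) :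
    ∃ I : Finset (Fin s), I.card = (((Finset.univ : Finset (Fin s)).image sig).erase none).card ∧
      (∀ k ∈ I, sig k ≠ none) ∧ Set.InjOn sig I := by
  classical
  set E := ((Finset.univ : Finset (Fin s)).image sig).erase none with hE
  have h1 : ∀ v ∈ E, ∃ k, sig k = v := by
    intro v hv
    rw [hE, Finset.mem_erase, Finset.mem_image] at hv
    obtain ⟨_, k, _, hk⟩ := hv
    exact ⟨k, hk⟩
  have : Nonempty (Fin s) := ⟨⟨0, hs⟩⟩
  choose! c hc using h1
  refine ⟨E.image c, ?_, ?_, ?_⟩
  · apply Finset.card_image_of_injOn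
    intro v hv w hw h
    have := hc v hv
    rw [h, hc w hw] at this
    exact this.symm
  · intro k hk
    rw [Finset.mem_image] at hk
    obtain ⟨v, hv, rfl⟩ := hk
    rw [hc v hv]
    exact (Finset.mem_erase.mp hv).1
  · intro k hk l hl h
    rw [Finset.coe_image] at hk hl
    obtain ⟨v, hv, rfl⟩ := hk
    obtain ⟨w, hw, rfl⟩ := hl
    rw [hc v hv, hc w hw] at h
    rw [h]

lemma exists_embedding {s n : ℕ} (hs : 0 < s) (hsn : s ≤ n) (sig : Fin s → Option (Fin n))
    (I : Finset (Fin s)) (hI : ∀ k ∈ I, sig k ≠ none) (hinj : Set.InjOn sig I) :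
    ∃ S : Fin s ↪ Fin n, ∀ k ∈ I, sig k = some (S k) := by
  classical
  have hn : 0 < n := lt_of_lt_of_le hs hsn
  set f : Fin s → Fin n := fun k => (sig k).getD ⟨0, hn⟩ with hf
  have hf' : ∀ k ∈ I, sig k = some (f k) := by
    intro k hk
    obtain ⟨a, ha⟩ := Option.ne_none_iff_exists'.mp (hI k hk)
    simp [hf, ha]
  have hfi : Set.InjOn f I := by
    intro k hk l hl h
    apply hinj hk hl
    rw [hf' k hk, hf' l hl, h]
  have hcard : (I.image f).card ≤ s := by
    refine Finset.card_image_le.trans ?_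
    have := Finset.card_le_univ I
    simpa using this
  obtain ⟨t, ht1, ht2⟩ := Finset.exists_superset_card_eq hcard (by simpa using hsn)
  obtain ⟨g, hg⟩ := Finset.exists_equiv_extend_of_card_eq (α := Fin s) (t := t)
    (by simpa using ht2.symm) (s := I) (f := f) ht1 hfi
  refine ⟨⟨fun k => (g k : Fin n), fun a b h => g.injective (Subtype.ext h)⟩, ?_⟩
  intro k hk
  rw [hf' k hk]
  simp only [Function.Embedding.coeFn_mk]
  rw [hg k hk]

lemma card_bad_residues {s M : ℕ} (hs : 0 < s) (I : Finset (Fin s)) :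
    ((Finset.range (s * M)).filter fun j => (⟨j % s, Nat.mod_lt _ hs⟩ : Fin s) ∉ I).card
      ≤ (s - I.card) * M := by
  classical
  have h1 : (Iᶜ ×ˢ Finset.range M).card = (s - I.card) * M := by
    rw [Finset.card_product, Finset.card_compl, Finset.card_range, Fintype.card_fin]
  rw [← h1]
  apply Finset.card_le_card_of_injOn (fun j => ((⟨j % s, Nat.mod_lt _ hs⟩ : Fin s), j / s))
  · intro j hj
    rw [Finset.mem_coe, Finset.mem_filter, Finset.mem_range] at hj
    rw [Finset.mem_coe, Finset.mem_product, Finset.mem_compl, Finset.mem_range]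
    exact ⟨hj.2, Nat.div_lt_of_lt_mul hj.1⟩
  · intro j _ l _ h
    rw [Prod.mk.injEq, Fin.mk.injEq] at h
    rw [← Nat.mod_add_div j s, ← Nat.mod_add_div l s, h.1, h.2]

theorem close_of_decode {n s L M : ℕ} (hs : 0 < s) (hM : 0 < M) (hL : L = s * M) (hsn : s ≤ n)
    (sig : Fin s → Option (Fin n))
    (hres : ∀ j < L, ((Finset.univ.filter fun x : Cube n => wt x % L = j).card : ℝ) / 2 ^ n ≤ 2 / L)
    (f : Cube n → Bool) (eta : ℝ)
    (hf : Pr (fun x : Cube n => M ≤ wt x % L ∧
      f x ≠ (sig ⟨(wt x % L) % s, Nat.mod_lt _ hs⟩).elim false x) ≤ eta) :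
    ∃ S : Fin s ↪ Fin n, ∀ g : Cube n → Bool,
      (∀ x, M ≤ wt x % L → g x = x (S ⟨(wt x % L) % s, Nat.mod_lt _ hs⟩)) →
      dist f g ≤ 2 / s + 2 * ((s : ℝ) -
        (((Finset.univ : Finset (Fin s)).image sig).erase none).card) / s + eta := by
  classical
  obtain ⟨I, hIc, hI, hinj⟩ := exists_transversal hs sig
  obtain ⟨S, hS⟩ := exists_embedding hs hsn sig I hI hinj
  refine ⟨S, fun g hg => ?_⟩
  rw [← hIc]
  have hs' : (0 : ℝ) < s := by exact_mod_cast hs
  have hM' : (0 : ℝ) < M := by exact_mod_cast hM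
  have hLr : (L : ℝ) = s * M := by rw [hL]; push_cast; ring
  have hIs : I.card ≤ s := by
    have := Finset.card_le_univ I
    simpa using this
  have hLpos : 0 < L := by rw [hL]; exact Nat.mul_pos hs hM
  set J2 := (Finset.range (s * M)).filter fun j => (⟨j % s, Nat.mod_lt _ hs⟩ : Fin s) ∉ I with hJ2
  have hA : Pr (fun x : Cube n => wt x % L ∈ Finset.range M) ≤ 2 / s := by
    refine (Pr_residue_mem_le hres (Finset.range M) ?_).trans ?_
    · intro j hj
      rw [Finset.mem_range] at hj
      rw [hL]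
      exact lt_of_lt_of_le hj (Nat.le_mul_of_pos_left M hs)
    · rw [Finset.card_range, hLr]
      apply le_of_eq
      field_simp
  have hB : Pr (fun x : Cube n => wt x % L ∈ J2) ≤ 2 * ((s : ℝ) - I.card) / s := by
    refine (Pr_residue_mem_le hres J2 ?_).trans ?_
    · intro j hj
      rw [hJ2, Finset.mem_filter, Finset.mem_range] at hj
      rw [hL]
      exact hj.1
    · have h3 : (J2.card : ℝ) ≤ ((s : ℝ) - I.card) * M := by
        have := card_bad_residues (M := M) hs I
        have h4 : (J2.card : ℝ) ≤ (((s - I.card) * M : ℕ) : ℝ) := by exact_mod_cast this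
        rw [Nat.cast_mul, Nat.cast_sub hIs] at h4
        exact h4
      calc (J2.card : ℝ) * (2 / L) ≤ (((s : ℝ) - I.card) * M) * (2 / L) := by
            apply mul_le_mul_of_nonneg_right h3
            positivity
        _ = 2 * ((s : ℝ) - I.card) / s := by
            rw [hLr]
            field_simp
  rw [dist_eq_Pr]
  have hmain : Pr (fun x => f x ≠ g x) ≤
      Pr (fun x : Cube n => wt x % L ∈ Finset.range M) +
        (Pr (fun x : Cube n => wt x % L ∈ J2) +
          Pr (fun x : Cube n => M ≤ wt x % L ∧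
            f x ≠ (sig ⟨(wt x % L) % s, Nat.mod_lt _ hs⟩).elim false x)) := by
    refine (Pr_le_add (q := fun x : Cube n => wt x % L ∈ Finset.range M)
      (r := fun x : Cube n => wt x % L ∈ J2 ∨ (M ≤ wt x % L ∧
            f x ≠ (sig ⟨(wt x % L) % s, Nat.mod_lt _ hs⟩).elim false x)) ?_).trans ?_
    · intro x hx
      by_cases h1 : wt x % L < M
      · left
        rw [Finset.mem_range]
        exact h1
      · right
        rw [not_lt] at h1
        by_cases h2 : (⟨(wt x % L) % s, Nat.mod_lt _ hs⟩ : Fin s) ∈ I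
        · right
          refine ⟨h1, ?_⟩
          rw [hS _ h2]
          simp only [Option.elim_some]
          rw [← hg x h1]
          exact hx
        · left
          rw [hJ2, Finset.mem_filter, Finset.mem_range]
          refine ⟨?_, h2⟩
          rw [← hL]
          exact Nat.mod_lt _ hLpos
    · gcongr
      exact Pr_or_le _ _
  linarith

end Pool.Agent.MP4d28ec
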