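import Pool.Agent.Lib.MP_4d28ec_h44.Low

/-!
The stronger lower bound: the distance to `k`-partially symmetric functions tends to `1/2`.
-/

open Finset

namespace Pool.Agent.MP4d28ec

/-- number of ones of a function on a finite type -/
def wtI {ι : Type*} [Fintype ι] (x : ι → Bool) : ℕ := ∑ i, if x i = true then 1 else 0

theorem wtI_cube {n : ℕ} (x : Cube n) : wtI x = wt x := (wt_eq_sum x).symm

theorem wtI_reindex {ι κ : Type*} [Fintype ι] [Fintype κ] (e : ι ≃ κ) (x : κ → Bool) :
    wtI (fun i => x (e i)) = wtI x :=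
  Equiv.sum_comp e (fun i => if x i = true then 1 else 0)

theorem sum_cube_succ {n : ℕ} (f : Cube (n + 1) → ℝ) :
    ∑ x, f x = ∑ x : Cube n, f (Fin.cons true x) + ∑ x : Cube n, f (Fin.cons false x) := by
  rw [← (Fin.consEquiv (fun _ : Fin (n + 1) => Bool)).sum_comp, Fintype.sum_prod_type,
    Fintype.sum_bool]
  rfl

theorem second_moment (T : ℕ) :
    ∑ z : Cube T, ((wt z : ℝ) - T / 2) ^ 2 = (2 : ℝ) ^ T * ((T : ℝ) / 4) := by
  induction T with
  | zero =>
    have h : ∀ z : Cube 0, wt z = 0 := fun z => by rw [wt_eq_sum]; simp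
    simp [h]
  | succ T ih =>
    rw [sum_cube_succ, ← Finset.sum_add_distrib]
    have h : ∀ z : Cube T, ((wt (Fin.cons true z : Cube (T + 1)) : ℝ) - ((T + 1 : ℕ) : ℝ) / 2) ^ 2 +
        ((wt (Fin.cons false z : Cube (T + 1)) : ℝ) - ((T + 1 : ℕ) : ℝ) / 2) ^ 2 =
        2 * ((wt z : ℝ) - T / 2) ^ 2 + 1 / 2 := by
      intro z
      rw [wt_cons, wt_cons]
      simp only [if_true, Bool.false_eq_true, if_false]
      push_cast
      ring
    rw [Finset.sum_congr rfl (fun z _ => h z), Finset.sum_add_distrib, ← Finset.mul_sum, ih,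
      Finset.sum_const, card_univ, nsmul_eq_mul]
    simp only [Fintype.card_pi, Fintype.card_bool, prod_const, card_univ, Fintype.card_fin]
    push_cast
    ring

theorem first_moment (T : ℕ) :
    ∑ z : Cube T, |(wt z : ℝ) - T / 2| ≤ 2 ^ T * (Real.sqrt T / 2) := by
  have h1 : (∑ z : Cube T, |(wt z : ℝ) - T / 2|) ^ 2 ≤
      (2 ^ T) * ∑ z : Cube T, |(wt z : ℝ) - T / 2| ^ 2 := by
    have := sq_sum_le_card_mul_sum_sq (s := (univ : Finset (Cube T)))
      (f := fun z => |(wt z : ℝ) - T / 2|)
    have hc : ((univ : Finset (Cube T)).card : ℝ) = 2 ^ T := by simp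
    rw [hc] at this
    exact this
  simp only [sq_abs] at h1
  rw [second_moment] at h1
  have h2 : (2 : ℝ) ^ T * (2 ^ T * (T / 4)) = (2 ^ T * (Real.sqrt T / 2)) ^ 2 := by
    rw [mul_pow, div_pow, Real.sq_sqrt (Nat.cast_nonneg T)]
    ring
  rw [h2] at h1
  exact (abs_le_of_sq_le_sq' h1 (by positivity)).2

/-- the mean of `min (|z|) (T - |z|)` -/
theorem min_moment (T : ℕ) :
    2 ^ T * ((T : ℝ) / 2 - Real.sqrt T / 2) ≤ ∑ z : Cube T, min (wt z : ℝ) (T - wt z) := by
  have h : ∀ z : Cube T, min (wt z : ℝ) (T - wt z) = T / 2 - |(wt z : ℝ) - T / 2| := by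
    intro z
    rcases le_total (wt z : ℝ) (T / 2) with h1 | h1
    · rw [min_eq_left (by linarith), abs_of_nonpos (by linarith)]; ring
    · rw [min_eq_right (by linarith), abs_of_nonneg (by linarith)]; ring
  rw [Finset.sum_congr rfl (fun z _ => h z), Finset.sum_sub_distrib, Finset.sum_const, card_univ,
    nsmul_eq_mul]
  simp only [Fintype.card_pi, Fintype.card_bool, prod_const, card_univ, Fintype.card_fin]
  have := first_moment T
  push_cast
  linarith

/-- splitting of the cube along a set of coordinates -/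
theorem sum_split {n L j : ℕ} (hj : j < L) (A : Finset (Fin n)) (φ : ℕ → ℝ) :
    ∑ x ∈ univ.filter (fun x : Cube n => wt x % L = j), φ ((A.filter fun b => x b = true).card) =
      ∑ z : Cube A.card, φ (wt z) * (2 ^ (n - A.card) *
        zres L (n - A.card) ((j : ZMod L) - (wt z : ZMod L))) := by
  classical
  rw [Finset.sum_filter, ← (Equiv.piEquivPiSubtypeProd (fun b : Fin n => b ∈ A)
    (fun _ => Bool)).symm.sum_comp, Fintype.sum_prod_type]
  have hA : Fintype.card {b : Fin n // b ∈ A} = A.card := Fintype.card_coe A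
  have hAc : Fintype.card {b : Fin n // b ∉ A} = n - A.card := by
    rw [Fintype.card_subtype_compl, Fintype.card_fin, hA]
  let eA : {b : Fin n // b ∈ A} ≃ Fin A.card := Fintype.equivFinOfCardEq hA
  let eB : {b : Fin n // b ∉ A} ≃ Fin (n - A.card) := Fintype.equivFinOfCardEq hAc
  have hzA : ∀ (z : {b : Fin n // b ∈ A} → Bool) (y : {b : Fin n // b ∉ A} → Bool) (b : Fin n)
      (hb : b ∈ A), (Equiv.piEquivPiSubtypeProd (fun b : Fin n => b ∈ A)
        (fun _ => Bool)).symm (z, y) b = z ⟨b, hb⟩ := by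
    intro z y b hb
    simp [Equiv.piEquivPiSubtypeProd, hb]
  have hyA : ∀ (z : {b : Fin n // b ∈ A} → Bool) (y : {b : Fin n // b ∉ A} → Bool) (b : Fin n)
      (hb : b ∉ A), (Equiv.piEquivPiSubtypeProd (fun b : Fin n => b ∈ A)
        (fun _ => Bool)).symm (z, y) b = y ⟨b, hb⟩ := by
    intro z y b hb
    simp [Equiv.piEquivPiSubtypeProd, hb]
  have hw : ∀ (z : {b : Fin n // b ∈ A} → Bool) (y : {b : Fin n // b ∉ A} → Bool),
      wt ((Equiv.piEquivPiSubtypeProd (fun b : Fin n => b ∈ A) (fun _ => Bool)).symm (z, y)) =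
        wtI z + wtI y := by
    intro z y
    rw [wt_eq_sum, ← Fintype.sum_subtype_add_sum_subtype (fun b : Fin n => b ∈ A), wtI, wtI]
    congr 1
    · refine Finset.sum_congr (Finset.ext fun b => by simp) fun b _ => ?_
      rw [hzA z y b.1 b.2]
    · refine Fintype.sum_congr _ _ fun b => ?_
      rw [hyA z y b.1 b.2]
  have hF : ∀ (z : {b : Fin n // b ∈ A} → Bool) (y : {b : Fin n // b ∉ A} → Bool),
      (A.filter fun b => (Equiv.piEquivPiSubtypeProd (fun b : Fin n => b ∈ A)
        (fun _ => Bool)).symm (z, y) b = true).card = wtI z := by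
    intro z y
    rw [Finset.card_filter, wtI, Finset.sum_subtype A (fun _ => Iff.rfl)]
    refine Fintype.sum_congr _ _ fun b => ?_
    rw [hzA z y b.1 b.2]
  have hcard : ∀ a : ℕ, (((univ.filter fun y : {b : Fin n // b ∉ A} → Bool =>
      (a + wtI y) % L = j).card : ℕ) : ℝ) = 2 ^ (n - A.card) *
        zres L (n - A.card) ((j : ZMod L) - (a : ZMod L)) := by
    intro a
    rw [zres, mul_div_cancel₀ _ (by positivity)]
    congr 1
    rw [Finset.card_filter, Finset.card_filter, ← (Equiv.arrowCongr eB (Equiv.refl Bool)).symm.sum_comp]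
    refine Fintype.sum_congr _ _ fun y => ?_
    have h1 : wtI ((Equiv.arrowCongr eB (Equiv.refl Bool)).symm y) = wt y := by
      rw [← wtI_cube]
      exact wtI_reindex eB y
    rw [h1]
    have h2 : (a + wt y) % L = j ↔ ((wt y : ℕ) : ZMod L) = (j : ZMod L) - (a : ZMod L) := by
      have h2 : (a + wt y) % L = j ↔ ((a + wt y : ℕ) : ZMod L) = (j : ZMod L) := by
        rw [ZMod.natCast_eq_natCast_iff', Nat.mod_eq_of_lt hj]
      rw [h2]
      push_cast
      constructor
      · intro h; rw [← h]; ring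
      · intro h; rw [h]; ring
    simp only [h2]
  rw [← (Equiv.arrowCongr eA (Equiv.refl Bool)).symm.sum_comp]
  refine Fintype.sum_congr _ _ fun z => ?_
  have h1 : wtI ((Equiv.arrowCongr eA (Equiv.refl Bool)).symm z) = wt z := by
    rw [← wtI_cube]
    exact wtI_reindex eA z
  rw [← hcard, Finset.card_filter]
  push_cast
  rw [Finset.mul_sum]
  refine Fintype.sum_congr _ _ fun y => ?_
  rw [hw, hF, h1]
  split_ifs <;> simp

theorem bool_count {n : ℕ} (A : Finset (Fin n)) (x : Cube n) (β : Bool) :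
    min ((A.filter fun b => x b = true).card : ℝ) (A.card - (A.filter fun b => x b = true).card) ≤
      ((A.filter fun b => x b ≠ β).card : ℝ) := by
  have h1 : (A.filter fun b => x b = true).card + (A.filter fun b => ¬ x b = true).card = A.card :=
    Finset.card_filter_add_card_filter_not _
  have h2 : ((A.filter fun b => x b = true).card : ℝ) +
      ((A.filter fun b => ¬ x b = true).card : ℝ) = A.card := by exact_mod_cast h1
  cases β with
  | false =>
    refine (min_le_left _ _).trans (le_of_eq ?_)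
    congr 2
    ext b
    simp
  | true =>
    refine (min_le_right _ _).trans (le_of_eq ?_)
    rw [← h2, add_sub_cancel_left]

/-- errors in a class, averaged over a set of coordinates that `h` does not distinguish -/
theorem card_err2 {n k L j : ℕ} (hj : j < L) {a : Fin n} {g h : Cube n → Bool}
    {ρ : Fin k → Fin n} {H : (Fin k → Bool) → ℕ → Bool}
    (hh : ∀ x, h x = H (fun t => x (ρ t)) (wt x)) (A : Finset (Fin n)) (haA : a ∈ A)
    (hA : ∀ b ∈ A, ∀ t, ρ t ≠ b) (hg : ∀ x : Cube n, wt x % L = j → g x = x a)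
    (c : ℝ) (hz : ∀ d : ZMod L, c ≤ zres L (n - A.card) d) (hc : 0 ≤ c) :
    2 ^ n * c * ((1 : ℝ) / 2 - 1 / (2 * Real.sqrt A.card)) ≤
      (((univ.filter fun x : Cube n => wt x % L = j ∧ g x ≠ h x).card : ℕ) : ℝ) := by
  have hAn : A.card ≤ n := by
    have := Finset.card_le_univ A
    rwa [Fintype.card_fin] at this
  have hApos : 0 < A.card := Finset.card_pos.2 ⟨a, haA⟩
  set E := (univ.filter fun x : Cube n => wt x % L = j ∧ g x ≠ h x).card with hE
  have h1 : ∀ b ∈ A, (univ.filter fun x : Cube n => wt x % L = j ∧ x b ≠ h x).card = E := by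
    intro b hb
    rw [hE, ← card_filter_equiv (cubePerm (Equiv.swap a b))
      (fun x : Cube n => wt x % L = j ∧ x b ≠ h x)]
    congr 1
    ext x
    rw [mem_filter, mem_filter]
    have e1 : wt (cubePerm (Equiv.swap a b) x) = wt x := wt_perm x _
    have e2 : cubePerm (Equiv.swap a b) x b = x a := by
      change x (Equiv.swap a b b) = x a
      rw [Equiv.swap_apply_right]
    have e3 : h (cubePerm (Equiv.swap a b) x) = h x := by
      rw [hh, hh, e1]
      congr 1
      funext t
      change x (Equiv.swap a b (ρ t)) = x (ρ t)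
      rw [Equiv.swap_apply_of_ne_of_ne (hA a haA t) (hA b hb t)]
    rw [e1, e2, e3]
    constructor
    · rintro ⟨h1, h2, h3⟩
      exact ⟨h1, h2, by rw [hg x h2]; exact h3⟩
    · rintro ⟨h1, h2, h3⟩
      exact ⟨h1, h2, by rw [hg x h2] at h3; exact h3⟩
  have h2 : (A.card : ℝ) * E = ∑ x ∈ univ.filter (fun x : Cube n => wt x % L = j),
      ((A.filter fun b => x b ≠ h x).card : ℝ) := by
    have h3 : ∑ b ∈ A, ((univ.filter fun x : Cube n => wt x % L = j ∧ x b ≠ h x).card : ℝ) =
        (A.card : ℝ) * E := by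
      rw [Finset.sum_congr rfl (fun b hb => by rw [h1 b hb]), Finset.sum_const, nsmul_eq_mul]
    rw [← h3]
    simp only [Finset.card_filter]
    push_cast
    rw [Finset.sum_comm, Finset.sum_filter]
    refine Fintype.sum_congr _ _ fun x => ?_
    by_cases hx : wt x % L = j
    · simp [hx]
    · simp [hx]
  have h3 : ∑ x ∈ univ.filter (fun x : Cube n => wt x % L = j),
      (fun m : ℕ => min (m : ℝ) (A.card - m)) ((A.filter fun b => x b = true).card) ≤
      (A.card : ℝ) * E := by
    rw [h2]
    exact Finset.sum_le_sum fun x _ => bool_count A x (h x)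
  rw [sum_split hj A (fun m : ℕ => min (m : ℝ) (A.card - m))] at h3
  have h4 : ∑ z : Cube A.card, min (wt z : ℝ) (A.card - wt z) * (2 ^ (n - A.card) * c) ≤
      ∑ z : Cube A.card, (fun m : ℕ => min (m : ℝ) (A.card - m)) (wt z) *
        (2 ^ (n - A.card) * zres L (n - A.card) ((j : ZMod L) - (wt z : ZMod L))) := by
    refine Finset.sum_le_sum fun z _ => ?_
    have hwz : wt z ≤ A.card := by
      rw [wt]
      refine (Finset.card_le_univ _).trans ?_
      simp
    have hwz' : (wt z : ℝ) ≤ A.card := by exact_mod_cast hwz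
    have hmin : 0 ≤ min (wt z : ℝ) (A.card - wt z) :=
      le_min (Nat.cast_nonneg _) (by linarith)
    exact mul_le_mul_of_nonneg_left (mul_le_mul_of_nonneg_left (hz _) (by positivity)) hmin
  rw [← Finset.sum_mul] at h4
  have h5 := mul_le_mul_of_nonneg_right (min_moment A.card)
    (show (0 : ℝ) ≤ 2 ^ (n - A.card) * c by positivity)
  have h6 : (2 : ℝ) ^ A.card * 2 ^ (n - A.card) = 2 ^ n := by
    rw [← pow_add]
    congr 1
    omega
  have hs : (0 : ℝ) < Real.sqrt A.card := Real.sqrt_pos.2 (by exact_mod_cast hApos)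
  have hs2 : Real.sqrt A.card * Real.sqrt A.card = A.card := Real.mul_self_sqrt (Nat.cast_nonneg _)
  have hAr : (0 : ℝ) < A.card := by exact_mod_cast hApos
  have h7 : (A.card : ℝ) * (2 ^ n * c * ((1 : ℝ) / 2 - 1 / (2 * Real.sqrt A.card))) =
      2 ^ A.card * ((A.card : ℝ) / 2 - Real.sqrt A.card / 2) * (2 ^ (n - A.card) * c) := by
    have h8 : (A.card : ℝ) * ((1 : ℝ) / 2 - 1 / (2 * Real.sqrt A.card)) =
        (A.card : ℝ) / 2 - Real.sqrt A.card / 2 := by
      rw [mul_sub]
      congr 1
      · ring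
      · field_simp
        rw [sq, hs2]
    rw [← h6]
    linear_combination (2 ^ A.card * 2 ^ (n - A.card) * c : ℝ) * h8
  have h9 : (A.card : ℝ) * (2 ^ n * c * ((1 : ℝ) / 2 - 1 / (2 * Real.sqrt A.card))) ≤
      (A.card : ℝ) * E := by
    rw [h7]
    exact h5.trans (h4.trans h3)
  exact le_of_mul_le_mul_left h9 hAr

theorem lower_bound2 {n s L M k t : ℕ} (hs : 0 < s) (hM : 0 < M) (hL : L = s * M) (hsn : s ≤ n)
    (hn : s + k + 1 + t ≤ n) (g : Cube n → Bool)
    (hg : ∀ x : Cube n, M ≤ wt x % L →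
      g x = x (Fin.castLE hsn ⟨(wt x % L) % s, Nat.mod_lt _ hs⟩))
    (η : ℝ) (_h0 : 0 ≤ η) (h1 : η ≤ 1)
    (hres : ∀ m, n - (t + 1) ≤ m → ∀ j < L, (1 - η) / L ≤ res L m j)
    (h : Cube n → Bool) (hh : PartiallySymmetric k h) :
    (1 / 2 - 1 / (2 * Real.sqrt ((t : ℝ) + 1))) * (1 - (k + 1) / s) * (1 - η) ≤ dist g h := by
  obtain ⟨ρ, H, hρ⟩ := hh
  have hLpos : 0 < L := by rw [hL]; exact Nat.mul_pos hs hM
  have : NeZero L := ⟨hLpos.ne'⟩
  have hz : ∀ c : ZMod L, (1 - η) / L ≤ zres L (n - (t + 1)) c := by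
    intro c
    have h2 := hres _ le_rfl c.val (ZMod.val_lt c)
    rw [res_eq_zres _ _ _ (ZMod.val_lt c), ZMod.natCast_val, ZMod.cast_id', id] at h2
    exact h2
  -- the free coordinates
  set Fr := univ.filter fun b : Fin n => s ≤ b.val ∧ ∀ r, ρ r ≠ b with hFr
  have hFrcard : t ≤ Fr.card := by
    have h2 : (univ : Finset (Fin n)) ⊆ Fr ∪ (univ.filter fun b : Fin n => ¬ s ≤ b.val) ∪
        univ.image ρ := by
      intro b _
      rw [mem_union, mem_union]
      by_cases hb : s ≤ b.val
      · by_cases hr : ∀ r, ρ r ≠ b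
        · exact Or.inl (Or.inl (mem_filter.2 ⟨mem_univ _, hb, hr⟩))
        · push Not at hr
          obtain ⟨r, hr⟩ := hr
          exact Or.inr (mem_image.2 ⟨r, mem_univ _, hr⟩)
      · exact Or.inl (Or.inr (mem_filter.2 ⟨mem_univ _, hb⟩))
    have h3 := Finset.card_le_card h2
    have h4 := Finset.card_union_le (Fr ∪ (univ.filter fun b : Fin n => ¬ s ≤ b.val)) (univ.image ρ)
    have h5 := Finset.card_union_le Fr (univ.filter fun b : Fin n => ¬ s ≤ b.val)
    have h6 : (univ.image ρ).card ≤ k := by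
      refine Finset.card_image_le.trans ?_
      simp
    have h7 : (univ.filter fun b : Fin n => ¬ s ≤ b.val).card = s := by
      have h7 : (univ.filter fun b : Fin n => ¬ s ≤ b.val) =
          (univ : Finset (Fin s)).map (Fin.castLEEmb hsn) := by
        ext b
        rw [mem_filter, mem_map]
        constructor
        · intro hb
          refine ⟨⟨b.val, by omega⟩, mem_univ _, ?_⟩
          ext; rfl
        · rintro ⟨c, -, rfl⟩
          refine ⟨mem_univ _, ?_⟩
          simp
      rw [h7, card_map, card_univ, Fintype.card_fin]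
    rw [card_univ, Fintype.card_fin] at h3
    omega
  obtain ⟨T, hTF, hT⟩ := Finset.exists_subset_card_eq hFrcard
  set co : ℕ → Fin n := fun j => Fin.castLE hsn ⟨j % s, Nat.mod_lt _ hs⟩ with hco
  set J := (range L).filter fun j => M ≤ j ∧ ∀ r, ρ r ≠ co j with hJ
  have hJcard : L ≤ J.card + M + k * M := by
    have h2 : (range L).card ≤ (J ∪ range M ∪ (univ : Finset (Fin k)).biUnion fun r =>
        (range (s * M)).filter fun j => j % s = (ρ r).val).card := by
      apply Finset.card_le_card
      intro j hj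
      rw [mem_union, mem_union, mem_biUnion]
      by_cases hjM : j < M
      · exact Or.inl (Or.inr (mem_range.2 hjM))
      · by_cases hjρ : ∀ r, ρ r ≠ co j
        · exact Or.inl (Or.inl (mem_filter.2 ⟨hj, by omega, hjρ⟩))
        · push Not at hjρ
          obtain ⟨r, hr⟩ := hjρ
          refine Or.inr ⟨r, mem_univ _, mem_filter.2 ⟨by rw [← hL]; exact hj, ?_⟩⟩
          rw [hr, hco]
          rfl
    have h3 := Finset.card_union_le (J ∪ range M) ((univ : Finset (Fin k)).biUnion fun r =>
        (range (s * M)).filter fun j => j % s = (ρ r).val)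
    have h4 := Finset.card_union_le J (range M)
    have h5 : ((univ : Finset (Fin k)).biUnion fun r =>
        (range (s * M)).filter fun j => j % s = (ρ r).val).card ≤ k * M := by
      refine (Finset.card_biUnion_le_card_mul _ _ M (fun r _ => card_mod_eq_le s M _ hs)).trans ?_
      simp
    rw [card_range] at h2 h4
    omega
  have hLr : (0 : ℝ) < L := by exact_mod_cast hLpos
  have hsr : (0 : ℝ) < s := by exact_mod_cast hs
  have hMr : (0 : ℝ) < M := by exact_mod_cast hM
  have hc0 : 0 ≤ (1 - η) / L := div_nonneg (by linarith) hLr.le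
  have herr : ∀ j ∈ J, 2 ^ n * ((1 - η) / L) * ((1 : ℝ) / 2 - 1 / (2 * Real.sqrt ((t : ℝ) + 1))) ≤
      (((univ.filter fun x : Cube n => wt x % L = j ∧ g x ≠ h x).card : ℕ) : ℝ) := by
    intro j hj
    rw [hJ, mem_filter, mem_range] at hj
    obtain ⟨hjL, hjM, hjρ⟩ := hj
    have hnot : co j ∉ T := by
      intro hc
      have h2 := hTF hc
      rw [hFr, mem_filter] at h2
      have h3 : (co j).val = j % s := rfl
      have h4 := Nat.mod_lt j hs
      omega
    have hcard : (insert (co j) T).card = t + 1 := by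
      rw [Finset.card_insert_of_notMem hnot, hT]
    have h2 := card_err2 (L := L) (j := j) hjL (g := g) hρ (insert (co j) T)
      (Finset.mem_insert_self _ _) (by
        intro b hb r
        rcases Finset.mem_insert.1 hb with rfl | hb
        · exact hjρ r
        · have h3 := hTF hb
          rw [hFr, mem_filter] at h3
          exact h3.2.2 r) (by
        intro x hx
        rw [hg x (by omega)]
        simp only [hco, hx]) ((1 - η) / L) (by rw [hcard]; exact hz) hc0
    rw [hcard] at h2
    push_cast at h2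
    exact h2
  have hsum : (∑ j ∈ J, (univ.filter fun x : Cube n => wt x % L = j ∧ g x ≠ h x).card) ≤
      (univ.filter fun x : Cube n => g x ≠ h x).card := by
    rw [← Finset.card_biUnion]
    · apply Finset.card_le_card
      intro x hx
      rw [mem_biUnion] at hx
      obtain ⟨j, -, hx⟩ := hx
      rw [mem_filter] at hx ⊢
      exact ⟨mem_univ _, hx.2.2⟩
    · intro i _ j _ hij
      rw [Function.onFun, Finset.disjoint_left]
      intro x hx hx'
      rw [mem_filter] at hx hx'
      exact hij (hx.2.1.symm.trans hx'.2.1)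
  have hsum2 : (J.card : ℝ) * (2 ^ n * ((1 - η) / L) *
      ((1 : ℝ) / 2 - 1 / (2 * Real.sqrt ((t : ℝ) + 1)))) ≤
      (((univ.filter fun x : Cube n => g x ≠ h x).card : ℕ) : ℝ) := by
    have h2 := Finset.sum_le_sum herr
    rw [Finset.sum_const, nsmul_eq_mul] at h2
    refine h2.trans ?_
    exact_mod_cast hsum
  have hLsM : (L : ℝ) = s * M := by rw [hL]; push_cast; ring
  have hJr : (L : ℝ) - M - k * M ≤ J.card := by
    have : (L : ℝ) ≤ J.card + M + k * M := by exact_mod_cast hJcard
    linarith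
  have hsq : 0 ≤ (1 : ℝ) / 2 - 1 / (2 * Real.sqrt ((t : ℝ) + 1)) := by
    have h2 : (1 : ℝ) ≤ Real.sqrt ((t : ℝ) + 1) := by
      rw [Real.one_le_sqrt]
      linarith [Nat.cast_nonneg (α := ℝ) t]
    have h3 : 1 / (2 * Real.sqrt ((t : ℝ) + 1)) ≤ 1 / (2 * 1) :=
      one_div_le_one_div_of_le (by norm_num) (by linarith)
    linarith
  rw [dist, le_div_iff₀ (by positivity)]
  refine le_trans ?_ hsum2
  refine le_trans ?_ (mul_le_mul_of_nonneg_right hJr
    (mul_nonneg (mul_nonneg (by positivity) hc0) hsq))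
  apply le_of_eq
  rw [hLsM]
  have h8 : ((s : ℝ) * M - M - k * M) / (s * M) = 1 - (k + 1) / s := by
    field_simp
    ring
  rw [← h8]
  ring

end Pool.Agent.MP4d28ec
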