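import Mathlib

/-!
Uniform probability and expectation on finite types.
-/

open Finset

namespace Pool.Agent.H44IT

noncomputable section

universe u v w

variable {α : Type u} {β : Type v} {γ : Type w} [Fintype α] [Fintype β] [Fintype γ]

/-- Expectation over the uniform distribution of a finite type. -/
def Ex (f : α → ℝ) : ℝ := (∑ a, f a) / (Fintype.card α : ℝ)

open Classical in
/-- Probability over the uniform distribution of a finite type. -/
def Pr (p : α → Prop) : ℝ := Ex (fun a => if p a then (1 : ℝ) else 0)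

lemma card_pos' [Nonempty α] : (0 : ℝ) < Fintype.card α := by
  exact_mod_cast Fintype.card_pos

lemma Ex_congr {f g : α → ℝ} (h : ∀ a, f a = g a) : Ex f = Ex g := by
  have : f = g := funext h
  rw [this]

lemma Ex_mono {f g : α → ℝ} (h : ∀ a, f a ≤ g a) : Ex f ≤ Ex g := by
  unfold Ex
  gcongr with a
  exact h a

lemma Ex_nonneg {f : α → ℝ} (h : ∀ a, 0 ≤ f a) : 0 ≤ Ex f := by
  unfold Ex
  exact div_nonneg (Finset.sum_nonneg fun a _ => h a) (Nat.cast_nonneg _)

lemma Ex_add (f g : α → ℝ) : Ex (fun a => f a + g a) = Ex f + Ex g := by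
  unfold Ex
  rw [Finset.sum_add_distrib, add_div]

lemma Ex_sub (f g : α → ℝ) : Ex (fun a => f a - g a) = Ex f - Ex g := by
  unfold Ex
  rw [Finset.sum_sub_distrib, sub_div]

lemma Ex_const_mul (c : ℝ) (f : α → ℝ) : Ex (fun a => c * f a) = c * Ex f := by
  unfold Ex
  rw [← Finset.mul_sum, mul_div_assoc]

lemma Ex_mul_const (c : ℝ) (f : α → ℝ) : Ex (fun a => f a * c) = Ex f * c := by
  unfold Ex
  rw [← Finset.sum_mul, mul_div_right_comm]

lemma Ex_const [Nonempty α] (c : ℝ) : Ex (fun _ : α => c) = c := by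
  unfold Ex
  have := card_pos' (α := α)
  simp only [Finset.sum_const, Finset.card_univ, nsmul_eq_mul]
  field_simp

lemma Ex_sum {ι : Type*} (s : Finset ι) (f : ι → α → ℝ) :
    Ex (fun a => ∑ i ∈ s, f i a) = ∑ i ∈ s, Ex (f i) := by
  unfold Ex
  rw [Finset.sum_comm, Finset.sum_div]

lemma Ex_comm (f : α → β → ℝ) : Ex (fun a => Ex (fun b => f a b)) = Ex (fun b => Ex (fun a => f a b)) := by
  unfold Ex
  rw [← Finset.sum_div, ← Finset.sum_div, Finset.sum_comm, div_div, div_div, mul_comm]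

lemma Ex_prod (f : α × β → ℝ) : Ex f = Ex (fun a => Ex (fun b => f (a, b))) := by
  unfold Ex
  rw [← Finset.sum_div, Fintype.sum_prod_type, Fintype.card_prod, div_div]
  push_cast
  rw [mul_comm]

lemma Ex_equiv (e : α ≃ β) (f : β → ℝ) : Ex (fun a => f (e a)) = Ex f := by
  unfold Ex
  rw [Equiv.sum_comp e f, Fintype.card_congr e]

lemma Ex_fst [Nonempty β] (f : α → ℝ) : Ex (fun ab : α × β => f ab.1) = Ex f := by
  rw [Ex_prod]
  simp only [Ex_const]

lemma Ex_snd [Nonempty α] (f : β → ℝ) : Ex (fun ab : α × β => f ab.2) = Ex f := by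
  rw [Ex_prod]
  simp only [Ex_const]

lemma exists_le_Ex [Nonempty α] (f : α → ℝ) : ∃ a, f a ≤ Ex f := by
  by_contra h
  push Not at h
  have h1 : (∑ _a : α, Ex f) < ∑ a, f a :=
    Finset.sum_lt_sum_of_nonempty Finset.univ_nonempty (fun a _ => h a)
  have h2 := card_pos' (α := α)
  simp only [Finset.sum_const, Finset.card_univ, nsmul_eq_mul] at h1
  unfold Ex at h1
  rw [mul_div_cancel₀ _ h2.ne'] at h1
  exact lt_irrefl _ h1

lemma exists_ge_Ex [Nonempty α] (f : α → ℝ) : ∃ a, Ex f ≤ f a := by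
  by_contra h
  push Not at h
  have h1 : (∑ a, f a) < ∑ _a : α, Ex f :=
    Finset.sum_lt_sum_of_nonempty Finset.univ_nonempty (fun a _ => h a)
  have h2 := card_pos' (α := α)
  simp only [Finset.sum_const, Finset.card_univ, nsmul_eq_mul] at h1
  unfold Ex at h1
  rw [mul_div_cancel₀ _ h2.ne'] at h1
  exact lt_irrefl _ h1

lemma Ex_le_of_le [Nonempty α] {f : α → ℝ} {c : ℝ} (h : ∀ a, f a ≤ c) : Ex f ≤ c := by
  calc Ex f ≤ Ex (fun _ : α => c) := Ex_mono h
    _ = c := Ex_const c

lemma le_Ex_of_le [Nonempty α] {f : α → ℝ} {c : ℝ} (h : ∀ a, c ≤ f a) : c ≤ Ex f := by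
  calc c = Ex (fun _ : α => c) := (Ex_const c).symm
    _ ≤ Ex f := Ex_mono h

/-! ### probability -/

lemma Pr_def (p : α → Prop) [DecidablePred p] : Pr p = Ex (fun a => if p a then (1 : ℝ) else 0) := by
  unfold Pr
  apply Ex_congr
  intro a
  split_ifs <;> rfl

lemma Pr_eq_card (p : α → Prop) [DecidablePred p] :
    Pr p = ((Finset.univ.filter p).card : ℝ) / (Fintype.card α : ℝ) := by
  rw [Pr_def]
  unfold Ex
  congr 1
  rw [Finset.sum_boole]

lemma Pr_congr {p q : α → Prop} (h : ∀ a, p a ↔ q a) : Pr p = Pr q := by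
  have : p = q := funext fun a => propext (h a)
  rw [this]

lemma Pr_mono {p q : α → Prop} (h : ∀ a, p a → q a) : Pr p ≤ Pr q := by
  classical
  rw [Pr_def, Pr_def]
  apply Ex_mono
  intro a
  by_cases hp : p a
  · simp [hp, h a hp]
  · simp only [hp, if_false]
    split_ifs <;> norm_num

lemma Pr_nonneg (p : α → Prop) : 0 ≤ Pr p := by
  classical
  rw [Pr_def]
  apply Ex_nonneg
  intro a
  split_ifs <;> norm_num

lemma Pr_le_one (p : α → Prop) : Pr p ≤ 1 := by
  classical
  rw [Pr_eq_card]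
  by_cases hα : (Fintype.card α : ℝ) = 0
  · rw [hα, div_zero]; norm_num
  · rw [div_le_one (lt_of_le_of_ne (Nat.cast_nonneg _) (Ne.symm hα))]
    exact_mod_cast (Finset.card_le_univ _)

lemma Pr_true [Nonempty α] {p : α → Prop} (h : ∀ a, p a) : Pr p = 1 := by
  classical
  rw [Pr_def]
  simp only [h, if_true]
  exact Ex_const 1

lemma Pr_false {p : α → Prop} (h : ∀ a, ¬ p a) : Pr p = 0 := by
  classical
  rw [Pr_def]
  simp [h, Ex]

lemma Pr_not [Nonempty α] (p : α → Prop) : Pr (fun a => ¬ p a) = 1 - Pr p := by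
  classical
  rw [Pr_def, Pr_def]
  rw [eq_sub_iff_add_eq, ← Ex_add]
  rw [← Ex_const (α := α) 1]
  apply Ex_congr
  intro a
  by_cases h : p a <;> simp [h, Ex_const]

lemma Pr_or_le (p q : α → Prop) : Pr (fun a => p a ∨ q a) ≤ Pr p + Pr q := by
  classical
  rw [Pr_def, Pr_def, Pr_def, ← Ex_add]
  apply Ex_mono
  intro a
  by_cases h1 : p a <;> by_cases h2 : q a <;> simp [h1, h2]

lemma Pr_le_add {p q r : α → Prop} (h : ∀ a, p a → q a ∨ r a) : Pr p ≤ Pr q + Pr r :=
  (Pr_mono h).trans (Pr_or_le q r)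

lemma Pr_equiv (e : α ≃ β) (p : β → Prop) : Pr (fun a => p (e a)) = Pr p := by
  classical
  rw [Pr_def, Pr_def]
  exact Ex_equiv e (fun b => if p b then (1 : ℝ) else 0)

lemma Pr_prod (p : α × β → Prop) : Pr p = Ex (fun a => Pr (fun b => p (a, b))) := by
  classical
  rw [Pr_def, Ex_prod]
  apply Ex_congr
  intro a
  rw [Pr_def]

lemma Pr_fst [Nonempty β] (p : α → Prop) : Pr (fun ab : α × β => p ab.1) = Pr p := by
  classical
  rw [Pr_def, Pr_def]
  exact Ex_fst (fun a => if p a then (1 : ℝ) else 0)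

lemma Pr_snd [Nonempty α] (p : β → Prop) : Pr (fun ab : α × β => p ab.2) = Pr p := by
  classical
  rw [Pr_def, Pr_def]
  exact Ex_snd (fun a => if p a then (1 : ℝ) else 0)

lemma Pr_and_fst_snd (p : α → Prop) (q : β → Prop) :
    Pr (fun ab : α × β => p ab.1 ∧ q ab.2) = Pr p * Pr q := by
  classical
  rw [Pr_prod, Pr_def p, ← Ex_mul_const]
  apply Ex_congr
  intro a
  by_cases h : p a
  · simp [h]
  · simp only [h, false_and, if_false, zero_mul]
    exact Pr_false (fun _ => not_false)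

/-- Markov inequality. -/
lemma Pr_lt_le (f : α → ℝ) (hf : ∀ a, 0 ≤ f a) {t : ℝ} (ht : 0 < t) :
    Pr (fun a => t < f a) ≤ Ex f / t := by
  classical
  rw [le_div_iff₀ ht, Pr_def, ← Ex_mul_const]
  apply Ex_mono
  intro a
  split_ifs with h
  · linarith
  · simpa using hf a

lemma Pr_le_le (f : α → ℝ) (hf : ∀ a, 0 ≤ f a) {t : ℝ} (ht : 0 < t) :
    Pr (fun a => t ≤ f a) ≤ Ex f / t := by
  classical
  rw [le_div_iff₀ ht, Pr_def, ← Ex_mul_const]
  apply Ex_mono
  intro a
  split_ifs with h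
  · linarith
  · simpa using hf a

lemma exists_of_Pr_pos {p : α → Prop} (h : 0 < Pr p) : ∃ a, p a := by
  by_contra hn
  push Not at hn
  rw [Pr_false hn] at h
  exact lt_irrefl _ h

lemma exists_not_of_Pr_lt_one [Nonempty α] {p : α → Prop} (h : Pr p < 1) : ∃ a, ¬ p a := by
  by_contra hn
  push Not at hn
  rw [Pr_true hn] at h
  exact lt_irrefl _ h

/-- If every point has one of its `m` translates in `p`, then `p` has probability at least `1/m`. -/
lemma Pr_cover [Nonempty α] {ι : Type*} [Fintype ι] [Nonempty ι] (T : ι → (α ≃ α)) (p : α → Prop)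
    (h : ∀ a, ∃ t, p (T t a)) : 1 / (Fintype.card ι : ℝ) ≤ Pr p := by
  classical
  have hc : (0 : ℝ) < Fintype.card ι := card_pos'
  rw [div_le_iff₀ hc]
  have h1 : (1 : ℝ) ≤ Ex (fun a => ∑ t, (if p (T t a) then (1 : ℝ) else 0)) := by
    apply le_Ex_of_le
    intro a
    obtain ⟨t, ht⟩ := h a
    calc (1 : ℝ) = if p (T t a) then (1 : ℝ) else 0 := by rw [if_pos ht]
      _ ≤ ∑ t, (if p (T t a) then (1 : ℝ) else 0) :=
        Finset.single_le_sum (f := fun t => if p (T t a) then (1 : ℝ) else 0)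
          (fun i _ => by split_ifs <;> norm_num) (Finset.mem_univ t)
  rw [Ex_sum] at h1
  have h2 : ∀ t, Ex (fun a => if p (T t a) then (1 : ℝ) else 0) = Pr p := by
    intro t
    rw [Pr_def]
    exact Ex_equiv (T t) (fun b => if p b then (1 : ℝ) else 0)
  simp only [h2, Finset.sum_const, Finset.card_univ, nsmul_eq_mul] at h1
  linarith

lemma Pr_exists_le {ι : Type*} (s : Finset ι) (p : ι → α → Prop) :
    Pr (fun a => ∃ i ∈ s, p i a) ≤ ∑ i ∈ s, Pr (p i) := by
  classical
  induction s using Finset.induction_on with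
  | empty =>
    rw [Pr_false (by simp)]
    simp
  | insert i s hi ih =>
    rw [Finset.sum_insert hi]
    refine (Pr_le_add (q := p i) (r := fun a => ∃ i ∈ s, p i a) ?_).trans (by linarith)
    intro a ha
    obtain ⟨j, hj, hp⟩ := ha
    rw [Finset.mem_insert] at hj
    rcases hj with rfl | hj
    · exact Or.inl hp
    · exact Or.inr ⟨j, hj, hp⟩

end

end Pool.Agent.H44IT
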