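import Pool.Agent.Lib.MP_4d28ec_h44.Defs
import Pool.Agent.Lib.MP_4d28ec_h44.Prob

/-!
Module AMP: decision trees from finite dependence, amplification of a base test by repetition
(Chebyshev), the trivial tester that queries everything, and monotonicity in the number of queries.
-/

open Finset

namespace Pool.Agent.MP4d28ec

open Pool.Agent.H44IT

/-- `T f` depends on the values of `f` at `q` points only. -/
def DependsOn {n : ℕ} {β : Type*} (q : ℕ) (T : (Cube n → Bool) → β) : Prop :=
  ∃ Q : Finset (Cube n), Q.card ≤ q ∧ ∀ f f', (∀ x ∈ Q, f x = f' x) → T f = T f'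

theorem exists_tree_of_finset {n : ℕ} (Q : Finset (Cube n)) :
    ∀ T : (Cube n → Bool) → Bool, (∀ f f', (∀ x ∈ Q, f x = f' x) → T f = T f') →
      ∃ t : QueryTree n, t.queries ≤ Q.card ∧ ∀ f, t.run f = T f := by
  classical
  induction Q using Finset.induction_on with
  | empty =>
    intro T hT
    exact ⟨.stop (T fun _ => false), by simp [QueryTree.queries],
      fun f => hT _ _ (by simp)⟩
  | insert x Q hx ih =>
    intro T hT
    have key : ∀ b : Bool, ∀ f f' : Cube n → Bool, (∀ y ∈ Q, f y = f' y) →
        T (Function.update f x b) = T (Function.update f' x b) := by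
      intro b f f' h
      apply hT
      intro y hy
      by_cases hyx : y = x
      · subst hyx
        simp
      · rw [Function.update_of_ne hyx, Function.update_of_ne hyx]
        exact h y ((Finset.mem_insert.1 hy).resolve_left hyx)
    obtain ⟨t₀, h₀, h₀'⟩ := ih (fun f => T (Function.update f x false)) (key false)
    obtain ⟨t₁, h₁, h₁'⟩ := ih (fun f => T (Function.update f x true)) (key true)
    refine ⟨.query x t₀ t₁, ?_, fun f => ?_⟩
    · rw [Finset.card_insert_of_notMem hx]
      show max t₀.queries t₁.queries + 1 ≤ Q.card + 1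
      omega
    · show (if f x = true then t₁.run f else t₀.run f) = T f
      by_cases hf : f x = true
      · rw [if_pos hf, h₁']
        show T (Function.update f x true) = T f
        rw [← hf, Function.update_eq_self]
      · rw [if_neg hf, h₀']
        show T (Function.update f x false) = T f
        have hf' : f x = false := by simpa using hf
        rw [← hf', Function.update_eq_self]

theorem DependsOn.exists_tree {n q : ℕ} {T : (Cube n → Bool) → Bool} (h : DependsOn q T) :
    ∃ t : QueryTree n, t.queries ≤ q ∧ ∀ f, t.run f = T f := by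
  obtain ⟨Q, h1, h2⟩ := h
  obtain ⟨t, h3, h4⟩ := exists_tree_of_finset Q T h2
  exact ⟨t, h3.trans h1, h4⟩

theorem DependsOn.mono {n q q' : ℕ} {β : Type*} {T : (Cube n → Bool) → β} (h : DependsOn q T)
    (hq : q ≤ q') : DependsOn q' T := by
  obtain ⟨Q, h1, h2⟩ := h
  exact ⟨Q, h1.trans hq, h2⟩

theorem DependsOn.comp {n q : ℕ} {β γ : Type*} {T : (Cube n → Bool) → β} (h : DependsOn q T)
    (F : β → γ) : DependsOn q (fun f => F (T f)) := by
  obtain ⟨Q, h1, h2⟩ := h
  exact ⟨Q, h1, fun f f' hf => congrArg F (h2 f f' hf)⟩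

theorem DependsOn.pi {n q : ℕ} {ι : Type*} [Fintype ι] {β : Type*}
    {T : ι → (Cube n → Bool) → β} (h : ∀ i, DependsOn q (T i)) :
    DependsOn (Fintype.card ι * q) (fun f i => T i f) := by
  classical
  choose Q h1 h2 using h
  refine ⟨Finset.univ.biUnion Q, ?_, ?_⟩
  · refine Finset.card_biUnion_le.trans ?_
    calc ∑ i, (Q i).card ≤ ∑ _i : ι, q := Finset.sum_le_sum fun i _ => h1 i
      _ = Fintype.card ι * q := by simp
  · intro f f' hf
    funext i
    exact h2 i f f' fun x hx => hf x (Finset.mem_biUnion.2 ⟨i, Finset.mem_univ i, hx⟩)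

/-- A finite family of functions with few dependencies is a randomized algorithm. -/
theorem exists_randAlg {n q : ℕ} {ι : Type} [Fintype ι] [Nonempty ι]
    (S : ι → (Cube n → Bool) → Bool) (h : ∀ s, DependsOn q (S s)) :
    ∃ A : RandAlg n q, ∀ f b, A.probAnswer f b = Pr (fun s => S s f = b) := by
  classical
  choose t h1 h2 using fun s => (h s).exists_tree
  have hpos : (0 : ℝ) < Fintype.card ι := card_pos'
  let e := Fintype.equivFin ι
  refine ⟨{
    size := Fintype.card ι
    prob := fun _ => 1 / (Fintype.card ι : ℝ)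
    prob_nonneg := fun _ => by positivity
    prob_sum := by
      rw [Finset.sum_const, Finset.card_univ, Fintype.card_fin, nsmul_eq_mul]
      field_simp
    tree := fun i => t (e.symm i)
    queries_le := fun i => h1 _ }, ?_⟩
  intro f b
  unfold RandAlg.probAnswer
  simp only
  rw [Finset.sum_const, nsmul_eq_mul, Pr_eq_card, mul_one_div]
  congr 2
  apply Finset.card_bij (fun i _ => e.symm i)
  · intro i hi
    simpa [h2] using hi
  · intro i _ j _ hij
    exact e.symm.injective hij
  · intro s hs
    refine ⟨e s, ?_, by simp⟩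
    simpa [h2] using hs

/-! ### Sums of independent variables -/

section Sums

variable {I : Type} [Fintype I] [Nonempty I]

theorem Ex_sum_pi (y : I → ℝ) (hy : Ex y = 0) (m : ℕ) :
    Ex (fun s : Fin m → I => ∑ j, y (s j)) = 0 := by
  rw [Ex_sum]
  induction m with
  | zero => simp
  | succ m ih =>
    rw [Fin.sum_univ_succ]
    have h0 : Ex (fun s : Fin (m + 1) → I => y (s 0)) = 0 := by
      rw [← Ex_equiv (Fin.consEquiv fun _ => I)]
      have : (fun a : I × (Fin m → I) => y ((Fin.consEquiv fun _ => I) a 0)) =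
          fun a => y a.1 := rfl
      rw [this, Ex_fst, hy]
    have h1 : ∀ i : Fin m, Ex (fun s : Fin (m + 1) → I => y (s i.succ)) =
        Ex (fun s : Fin m → I => y (s i)) := by
      intro i
      rw [← Ex_equiv (Fin.consEquiv fun _ => I)]
      have : (fun a : I × (Fin m → I) => y ((Fin.consEquiv fun _ => I) a i.succ)) =
          fun a => y (a.2 i) := rfl
      rw [this, Ex_snd (α := I) (fun s : Fin m → I => y (s i))]
    rw [h0, zero_add, Finset.sum_congr rfl fun i _ => h1 i]
    exact ih

theorem Ex_sum_sq_pi (y : I → ℝ) (hy : Ex y = 0) (m : ℕ) :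
    Ex (fun s : Fin m → I => (∑ j, y (s j)) ^ 2) = m * Ex (fun i => y i ^ 2) := by
  induction m with
  | zero =>
    simp only [Finset.univ_eq_empty, Finset.sum_empty, CharP.cast_eq_zero, zero_mul]
    norm_num
    exact Ex_const 0
  | succ m ih =>
    rw [← Ex_equiv (Fin.consEquiv fun _ => I)]
    have h1 : ∀ a : I × (Fin m → I),
        (∑ j, y ((Fin.consEquiv fun _ => I) a j)) ^ 2 =
          (y a.1 ^ 2 + (∑ j, y (a.2 j)) ^ 2) + 2 * (y a.1 * ∑ j, y (a.2 j)) := by
      intro a
      rw [Fin.sum_univ_succ]
      have e1 : y ((Fin.consEquiv fun _ => I) a 0) = y a.1 := rfl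
      have e2 : ∀ i : Fin m, y ((Fin.consEquiv fun _ => I) a i.succ) = y (a.2 i) := fun _ => rfl
      simp only [e1, e2]
      ring
    rw [Ex_congr h1, Ex_add, Ex_add, Ex_fst (fun i => y i ^ 2),
      Ex_snd (α := I) (fun s : Fin m → I => (∑ j, y (s j)) ^ 2), ih, Ex_const_mul, Ex_prod]
    have h2 : Ex (fun a => Ex (fun b : Fin m → I => y (a, b).1 * ∑ j, y ((a, b).2 j))) = 0 := by
      simp only [Ex_const_mul, Ex_sum_pi y hy m, mul_zero]
      exact Ex_const 0
    rw [h2]
    push_cast
    ring

/-- Chebyshev for the number of successes in `m` independent trials. -/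
theorem chebyshev (p : I → Prop) [DecidablePred p] (m : ℕ) {δ : ℝ} (hδ : 0 < δ)
    (hm : 3 ≤ m * δ ^ 2) :
    Pr (fun s : Fin m → I => (m : ℝ) * δ / 2 ≤
      |((Finset.univ.filter fun j => p (s j)).card : ℝ) - m * Pr p|) ≤ 1 / 3 := by
  classical
  set P := Pr p with hP
  have hP0 : 0 ≤ P := Pr_nonneg p
  have hP1 : P ≤ 1 := Pr_le_one p
  set y : I → ℝ := fun i => (if p i then (1 : ℝ) else 0) - P with hy
  have hy0 : Ex y = 0 := by
    rw [hy, Ex_sub, Ex_const, ← Pr_def]
    simp [hP]
  have hy2 : Ex (fun i => y i ^ 2) ≤ 1 / 4 := by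
    have h1 : ∀ i, y i ^ 2 = (1 - 2 * P) * (if p i then (1 : ℝ) else 0) + P ^ 2 := by
      intro i
      simp only [hy]
      split_ifs <;> ring
    rw [Ex_congr h1, Ex_add, Ex_const_mul, ← Pr_def, Ex_const, ← hP]
    nlinarith [sq_nonneg (P - 1 / 2)]
  have hm0 : (0 : ℝ) < m := by
    rcases Nat.eq_zero_or_pos m with h | h
    · subst h; norm_num at hm
    · exact_mod_cast h
  have hsum : ∀ s : Fin m → I,
      ((Finset.univ.filter fun j => p (s j)).card : ℝ) - m * P = ∑ j, y (s j) := by
    intro s
    simp only [hy]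
    rw [Finset.sum_sub_distrib, Finset.sum_boole]
    simp
  have hvar := Ex_sum_sq_pi y hy0 m
  have ht : (0 : ℝ) < (m * δ / 2) ^ 2 := by positivity
  refine (Pr_mono (q := fun s : Fin m → I => (m * δ / 2) ^ 2 ≤ (∑ j, y (s j)) ^ 2) ?_).trans ?_
  · intro s hs
    rw [hsum] at hs
    rw [← sq_abs (∑ j, y (s j))]
    exact pow_le_pow_left₀ (by positivity) hs 2
  · refine (Pr_le_le _ (fun s => sq_nonneg _) ht).trans ?_
    rw [hvar, div_le_iff₀ ht]
    have h1 : (m : ℝ) * Ex (fun i => y i ^ 2) ≤ m * (1 / 4) :=
      mul_le_mul_of_nonneg_left hy2 hm0.le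
    nlinarith

end Sums

/-- Amplification: a base test with acceptance probability at least `a` on the isomorphic functions
and at most `b` on the far functions gives a tester, by `m` repetitions. -/
theorem exists_tester_of_base {n q m : ℕ} {I : Type} [Fintype I] [Nonempty I]
    (T : I → (Cube n → Bool) → Bool) (hq : ∀ i, DependsOn q (T i)) (g : Cube n → Bool)
    (ε a b : ℝ) (hab : b < a) (hm : 3 ≤ m * (a - b) ^ 2)
    (hyes : ∀ f, (∃ π, f = permute g π) → a ≤ Pr (fun i => T i f = true))
    (hno : ∀ f, (∀ π, ε ≤ dist f (permute g π)) → Pr (fun i => T i f = true) ≤ b) :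
    ∃ A : RandAlg n (m * q), IsTester ε g A := by
  classical
  set N : (Fin m → I) → (Cube n → Bool) → ℕ := fun s f =>
    (Finset.univ.filter fun j => T (s j) f = true).card with hN
  set S : (Fin m → I) → (Cube n → Bool) → Bool := fun s f =>
    decide ((m : ℝ) * (a + b) / 2 ≤ N s f) with hS
  have hdep : ∀ s, DependsOn (m * q) (S s) := by
    intro s
    have h1 : DependsOn (m * q) (fun f (j : Fin m) => T (s j) f) := by
      have := DependsOn.pi (T := fun j : Fin m => T (s j)) (q := q) (fun j => hq (s j))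
      rwa [Fintype.card_fin] at this
    exact h1.comp (fun v : Fin m → Bool =>
      decide ((m : ℝ) * (a + b) / 2 ≤ ((Finset.univ.filter fun j => v j = true).card : ℕ)))
  obtain ⟨A, hA⟩ := exists_randAlg S hdep
  have hm0 : (0 : ℝ) < m := by
    rcases Nat.eq_zero_or_pos m with h | h
    · subst h; norm_num at hm
    · exact_mod_cast h
  refine ⟨A, fun f hf => ?_, fun f hf => ?_⟩
  · rw [hA]
    have h1 := chebyshev (fun i => T i f = true) m (δ := a - b) (by linarith) hm
    have h2 := hyes f hf
    have h3 : Pr (fun s => ¬ S s f = true) ≤ 1 / 3 := by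
      refine (Pr_mono ?_).trans h1
      intro s hs
      simp only [hS, decide_eq_true_eq, not_le] at hs
      rw [abs_sub_comm]
      refine le_trans ?_ (le_abs_self _)
      have h4 : (m : ℝ) * a ≤ m * Pr (fun i => T i f = true) :=
        mul_le_mul_of_nonneg_left h2 hm0.le
      have h5 : ((N s f : ℕ) : ℝ) = ((Finset.univ.filter fun j => T (s j) f = true).card : ℝ) := rfl
      rw [← h5]
      linarith
    rw [Pr_not] at h3
    linarith
  · rw [hA]
    have h1 := chebyshev (fun i => T i f = true) m (δ := a - b) (by linarith) hm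
    have h2 := hno f hf
    have h3 : Pr (fun s => ¬ S s f = false) ≤ 1 / 3 := by
      refine (Pr_mono ?_).trans h1
      intro s hs
      simp only [hS, Bool.not_eq_false, decide_eq_true_eq] at hs
      refine le_trans ?_ (le_abs_self _)
      have h4 : (m : ℝ) * Pr (fun i => T i f = true) ≤ m * b :=
        mul_le_mul_of_nonneg_left h2 hm0.le
      have h5 : ((N s f : ℕ) : ℝ) = ((Finset.univ.filter fun j => T (s j) f = true).card : ℝ) := rfl
      rw [← h5]
      linarith
    rw [Pr_not] at h3
    linarith

theorem dist_self {n : ℕ} (f : Cube n → Bool) : dist f f = 0 := by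
  simp [dist]

/-- The trivial tester queries every point. -/
theorem exists_tester_brute {n : ℕ} (ε : ℝ) (h : 0 < ε) (g : Cube n → Bool) :
    ∃ A : RandAlg n (2 ^ n), IsTester ε g A := by
  classical
  set T : Unit → (Cube n → Bool) → Bool := fun _ f => decide (∃ π, f = permute g π) with hT
  obtain ⟨A, hA⟩ := exists_randAlg T (q := 2 ^ n) (fun _ =>
    ⟨Finset.univ, by simp, fun f f' hf => by
      have : f = f' := funext fun x => hf x (Finset.mem_univ x)
      rw [this]⟩)
  refine ⟨A, fun f hf => ?_, fun f hf => ?_⟩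
  · rw [hA, Pr_true (fun _ => by simp [hT, hf])]
    norm_num
  · have hn : ¬ ∃ π, f = permute g π := by
      rintro ⟨π, rfl⟩
      have := hf π
      rw [dist_self] at this
      linarith
    rw [hA, Pr_true (fun _ => by simp only [hT, decide_eq_false_iff_not]; exact hn)]
    norm_num

/-- More queries are allowed. -/
def RandAlg.mono {n q q' : ℕ} (A : RandAlg n q) (h : q ≤ q') : RandAlg n q' where
  size := A.size
  prob := A.prob
  prob_nonneg := A.prob_nonneg
  prob_sum := A.prob_sum
  tree := A.tree
  queries_le := fun i => (A.queries_le i).trans h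

theorem IsTester.mono {n q q' : ℕ} {ε : ℝ} {g : Cube n → Bool} {A : RandAlg n q} (h : q ≤ q')
    (hA : IsTester ε g A) : IsTester ε g (A.mono h) := hA

theorem exists_tester_mono {n q q' : ℕ} {ε : ℝ} {g : Cube n → Bool} (h : q ≤ q')
    (hA : ∃ A : RandAlg n q, IsTester ε g A) : ∃ A : RandAlg n q', IsTester ε g A := by
  obtain ⟨A, hA⟩ := hA
  exact ⟨A.mono h, hA.mono h⟩

end Pool.Agent.MP4d28ec
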