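import Pool.Agent.Lib.MP_4d28ec_h44.Rigid2

/-!
Efficient testability and the average distance of the statistics of finitely many values under one
fixed probability distribution on tuples of points.
-/

open Finset

namespace Pool.Agent.MP4d28ec

open Pool.Agent.H44IT

/-- For one fixed probability distribution on the `q`-tuples of points, a function whose
statistics are close to those of `g` on average is `ε`-close to an isomorphic copy of `g`. -/
def AverageRigid (g : (n : ℕ) → Cube n → Bool) : Prop :=
  ∀ ε : ℝ, 0 < ε → ∃ (q : ℕ) (δ : ℝ), 0 < δ ∧ ∀ n : ℕ, ∃ D : (Fin q → Cube n) → ℝ,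
    (∀ x, 0 ≤ D x) ∧ ∑ x, D x = 1 ∧ ∀ f : Cube n → Bool,
      ∑ x, D x * ∑ b : Fin q → Bool, |freq f x b - freq (g n) x b| ≤ δ →
        ∃ π, dist f (permute (g n) π) < ε

lemma acc_sub_le {n q : ℕ} (f g : Cube n → Bool) (x : Fin q → Cube n)
    (S : (Fin q → Bool) → Bool) :
    acc g x S - acc f x S ≤ ∑ b : Fin q → Bool, |freq f x b - freq g x b| := by
  rw [acc_eq, acc_eq, ← Finset.sum_sub_distrib]
  apply Finset.sum_le_sum
  intro b _
  rw [← mul_sub]
  have h2 := neg_abs_le (freq f x b - freq g x b)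
  have h3 := abs_nonneg (freq f x b - freq g x b)
  split_ifs
  · linarith
  · linarith

theorem average_of_testable {g : (n : ℕ) → Cube n → Bool} (hg : EfficientlyTestable g) :
    AverageRigid g := by
  classical
  intro ε hε
  obtain ⟨q, hq⟩ := hg ε hε
  refine ⟨128 * (2 ^ q - 1), 1 / 2, by norm_num, ?_⟩
  intro n
  obtain ⟨A, hA⟩ := hq n
  obtain ⟨J, _, _, U, hU1, hU2, hU3⟩ := exists_family (m := 128) A hA (η := 1 / 8) (by norm_num)
    (by norm_num)
  choose x S hS using fun j => (hU1 j).exists_nonadaptive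
  have hD : ∀ v : (Fin (128 * (2 ^ q - 1)) → Cube n) → ℝ,
      ∑ y, Pr (fun j => x j = y) * v y = Ex (fun j => v (x j)) := by
    intro v
    have h1 : ∀ y, Pr (fun j => x j = y) * v y =
        Ex (fun j => (if x j = y then (1 : ℝ) else 0) * v y) := by
      intro y
      rw [Pr_def, Ex_mul_const]
    simp only [h1]
    rw [← Ex_sum]
    apply Ex_congr
    intro j
    simp
  refine ⟨fun y => Pr (fun j => x j = y), fun y => Pr_nonneg _, ?_, ?_⟩
  · have := hD (fun _ => 1)
    simp only [mul_one] at this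
    rw [this, Ex_const]
  · intro f hf
    rw [hD] at hf
    by_contra hfar
    push Not at hfar
    have h1 : 1 - 1 / 8 ≤ Ex (fun j => acc (g n) (x j) (S j)) := by
      rw [Ex_acc U x S hS]
      exact le_Ex_of_le fun π => hU2 _ ⟨π, rfl⟩
    have h2 : Ex (fun j => acc f (x j) (S j)) ≤ 1 / 8 := by
      rw [Ex_acc U x S hS]
      exact Ex_le_of_le fun τ => hU3 _ (far_permute hfar τ)
    have h3 : Ex (fun j => acc (g n) (x j) (S j)) - Ex (fun j => acc f (x j) (S j)) ≤
        Ex (fun j => ∑ b, |freq f (x j) b - freq (g n) (x j) b|) := by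
      rw [← Ex_sub]
      exact Ex_mono fun j => acc_sub_le _ _ _ _
    linarith

/-- The empirical frequency of a pattern. -/
noncomputable def emp {n q m : ℕ} (f : Cube n → Bool) (x : Fin q → Cube n)
    (s : Fin m → Equiv.Perm (Fin n)) (b : Fin q → Bool) : ℝ :=
  ((Finset.univ.filter fun j => ∀ i, permute f (s j) (x i) = b i).card : ℝ) / m

lemma emp_close {n q m : ℕ} (hm : 0 < m) {t : ℝ} (ht : 0 < t) (f : Cube n → Bool)
    (x : Fin q → Cube n) :
    Pr (fun s : Fin m → Equiv.Perm (Fin n) =>
      t * (2 : ℝ) ^ q ≤ ∑ b, |emp f x s b - freq f x b|) ≤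
      (2 : ℝ) ^ q * (1 / (m * (2 * t) ^ 2)) := by
  classical
  have hmR : (0 : ℝ) < m := by exact_mod_cast hm
  refine (Pr_mono (q := fun s : Fin m → Equiv.Perm (Fin n) =>
    ∃ b ∈ (Finset.univ : Finset (Fin q → Bool)), t ≤ |emp f x s b - freq f x b|) ?_).trans ?_
  · intro s hs
    by_contra hcon
    push Not at hcon
    have h1 : ∑ b : Fin q → Bool, |emp f x s b - freq f x b| < ∑ _b : Fin q → Bool, t :=
      Finset.sum_lt_sum_of_nonempty Finset.univ_nonempty hcon
    rw [Finset.sum_const, Finset.card_univ, Fintype.card_fun, Fintype.card_bool, Fintype.card_fin,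
      nsmul_eq_mul] at h1
    push_cast at h1
    linarith
  · refine (Pr_exists_le _ _).trans ?_
    have h2 : ∀ b : Fin q → Bool, Pr (fun s : Fin m → Equiv.Perm (Fin n) =>
        t ≤ |emp f x s b - freq f x b|) ≤ 1 / (m * (2 * t) ^ 2) := by
      intro b
      refine (Pr_mono ?_).trans (chebyshev' (fun π : Equiv.Perm (Fin n) =>
        ∀ i, permute f π (x i) = b i) m hm (δ := 2 * t) (by positivity))
      intro s hs
      rw [freq_eq_Pr] at hs
      unfold emp at hs
      have h3 := mul_le_mul_of_nonneg_left hs hmR.le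
      have h4 : (m : ℝ) * |((Finset.univ.filter fun j => ∀ i, permute f (s j) (x i) = b i).card : ℝ)
          / m - Pr (fun π : Equiv.Perm (Fin n) => ∀ i, permute f π (x i) = b i)| =
          |((Finset.univ.filter fun j => ∀ i, permute f (s j) (x i) = b i).card : ℝ) -
            m * Pr (fun π : Equiv.Perm (Fin n) => ∀ i, permute f π (x i) = b i)| := by
        rw [← abs_of_pos hmR, ← abs_mul, abs_of_pos hmR]
        congr 1
        field_simp
      rw [h4] at h3
      linarith
    refine (Finset.sum_le_sum fun b _ => h2 b).trans (le_of_eq ?_)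
    rw [Finset.sum_const, Finset.card_univ, Fintype.card_fun, Fintype.card_bool, Fintype.card_fin,
      nsmul_eq_mul]
    push_cast
    ring

lemma freq_permute {n q : ℕ} (f : Cube n → Bool) (τ : Equiv.Perm (Fin n)) (x : Fin q → Cube n)
    (b : Fin q → Bool) : freq (permute f τ) x b = freq f x b := by
  classical
  rw [freq_eq_Pr, freq_eq_Pr,
    ← Pr_equiv (Equiv.mulRight τ) (fun π : Equiv.Perm (Fin n) => ∀ i, permute f π (x i) = b i)]
  apply Pr_congr
  intro π
  simp only [permute_permute, Equiv.coe_mulRight]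

theorem testable_of_average {g : (n : ℕ) → Cube n → Bool} (hg : AverageRigid g) :
    EfficientlyTestable g := by
  classical
  intro ε hε
  obtain ⟨q, δ', hδ', h'⟩ := hg ε hε
  -- a smaller `δ`
  obtain ⟨δ, hδ, hδ1, h⟩ : ∃ δ : ℝ, 0 < δ ∧ δ ≤ 1 ∧ ∀ n : ℕ, ∃ D : (Fin q → Cube n) → ℝ,
      (∀ x, 0 ≤ D x) ∧ ∑ x, D x = 1 ∧ ∀ f : Cube n → Bool,
      ∑ x, D x * ∑ b : Fin q → Bool, |freq f x b - freq (g n) x b| ≤ δ →
        ∃ π, dist f (permute (g n) π) < ε := by
    refine ⟨min δ' 1, lt_min hδ' one_pos, min_le_right _ _, fun n => ?_⟩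
    obtain ⟨D, h1, h2, h3⟩ := h' n
    exact ⟨D, h1, h2, fun f hf => h3 f (hf.trans (min_le_left _ _))⟩
  set N : ℝ := (2 : ℝ) ^ q with hN
  have hN0 : 0 < N := by positivity
  set t : ℝ := δ / (16 * N) with ht
  have ht0 : 0 < t := by positivity
  have htN : t * N = δ / 16 := by rw [ht]; field_simp
  set m : ℕ := ⌈16 * N / (δ * (2 * t) ^ 2)⌉₊ with hm
  have hmR : 16 * N / (δ * (2 * t) ^ 2) ≤ m := Nat.le_ceil _
  have hmR0 : (0 : ℝ) < m := lt_of_lt_of_le (by positivity) hmR
  have hm0 : 0 < m := by exact_mod_cast hmR0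
  have hκ : N * (1 / (m * (2 * t) ^ 2)) ≤ δ / 16 := by
    rw [div_le_iff₀ (by positivity)] at hmR
    rw [mul_one_div, div_le_iff₀ (by positivity)]
    nlinarith
  set M : ℕ := ⌈3 / (δ / 8) ^ 2⌉₊ with hM
  have hM' : 3 ≤ (M : ℝ) * (δ / 8) ^ 2 := by
    have h1 : 3 / (δ / 8) ^ 2 ≤ M := Nat.le_ceil _
    rwa [div_le_iff₀ (by positivity)] at h1
  refine ⟨M * (m * q), fun n => ?_⟩
  obtain ⟨D, hD0, hD1, hD⟩ := h n
  obtain ⟨I, _, _, c, hc⟩ := exists_uniform D hD0 hD1 (η := δ / 8) (by linarith)
  set V : (Cube n → Bool) → (Fin q → Cube n) → ℝ := fun f x =>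
    ∑ b : Fin q → Bool, |freq f x b - freq (g n) x b| with hV
  have hV0 : ∀ f x, 0 ≤ V f x := fun f x => Finset.sum_nonneg fun b _ => abs_nonneg _
  have hV2 : ∀ f x, V f x ≤ 2 := by
    intro f x
    have h1 : V f x ≤ ∑ b : Fin q → Bool, (freq f x b + freq (g n) x b) := by
      apply Finset.sum_le_sum
      intro b _
      have h2 := freq_nonneg f x b
      have h3 := freq_nonneg (g n) x b
      rw [abs_le]
      constructor <;> linarith
    rw [Finset.sum_add_distrib, sum_freq, sum_freq] at h1
    linarith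
  set T : I × (Fin m → Equiv.Perm (Fin n)) → (Cube n → Bool) → Bool := fun i f =>
    decide (∑ b : Fin q → Bool, |emp f (c i.1) i.2 b - freq (g n) (c i.1) b| ≤ δ / 8) with hT
  have hdep : ∀ i, DependsOn (m * q) (T i) := by
    intro i
    have h1 : DependsOn (m * q) (fun (f : Cube n → Bool) (j : Fin m) (b : Fin q → Bool) =>
        decide (∀ k, permute f (i.2 j) (c i.1 k) = b k)) := by
      have := DependsOn.pi (T := fun j : Fin m => fun (f : Cube n → Bool) (b : Fin q → Bool) =>
        decide (∀ k, permute f (i.2 j) (c i.1 k) = b k)) (q := q) (fun j => by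
          refine ⟨Finset.univ.image (fun k => fun l => c i.1 k (i.2 j l)), ?_, ?_⟩
          · exact Finset.card_image_le.trans (by simp)
          · intro f f' hff
            funext b
            have : ∀ k, permute f (i.2 j) (c i.1 k) = permute f' (i.2 j) (c i.1 k) := fun k =>
              hff _ (Finset.mem_image.2 ⟨k, Finset.mem_univ _, rfl⟩)
            simp only [this])
      rwa [Fintype.card_fin] at this
    have h2 := h1.comp (fun v : Fin m → (Fin q → Bool) → Bool =>
      decide (∑ b : Fin q → Bool, |((Finset.univ.filter fun j => v j b = true).card : ℝ) / m -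
        freq (g n) (c i.1) b| ≤ δ / 8))
    simp only [decide_eq_true_eq] at h2
    exact h2
  have hyes : ∀ f, (∃ π, f = permute (g n) π) → 1 - δ / 16 ≤ Pr (fun i => T i f = true) := by
    rintro f ⟨π, rfl⟩
    rw [Pr_prod]
    apply le_Ex_of_le
    intro i
    have h1 := emp_close hm0 ht0 (permute (g n) π) (c i)
    have h2 : Pr (fun s : Fin m → Equiv.Perm (Fin n) =>
        ¬ (T (i, s) (permute (g n) π) = true)) ≤ δ / 16 := by
      refine (Pr_mono ?_).trans (h1.trans hκ)
      intro s hs
      simp only [hT, decide_eq_true_eq, not_le] at hs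
      simp only [freq_permute]
      rw [htN]
      linarith
    rw [Pr_not] at h2
    linarith
  have hno : ∀ f, (∀ π, ε ≤ dist f (permute (g n) π)) →
      Pr (fun i => T i f = true) ≤ 1 - δ / 16 - δ / 8 := by
    intro f hf
    have h1 : δ < ∑ x, D x * V f x := by
      by_contra hcon
      push Not at hcon
      obtain ⟨π, hπ⟩ := hD f hcon
      linarith [hf π]
    have h2 := hc (fun x => V f x / 2) (fun x => by linarith [hV0 f x])
      (fun x => by linarith [hV2 f x])
    rw [abs_le] at h2
    have h3 : ∑ x, D x * (V f x / 2) = (∑ x, D x * V f x) / 2 := by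
      rw [Finset.sum_div]
      apply Finset.sum_congr rfl
      intro x _
      ring
    rw [h3] at h2
    rw [Pr_prod]
    -- pointwise bound
    have h4 : ∀ i : I, Pr (fun s : Fin m → Equiv.Perm (Fin n) => T (i, s) f = true) ≤
        1 + δ / 16 + δ / 8 - V f (c i) / 2 := by
      intro i
      by_cases hi : V f (c i) ≤ δ / 4
      · have := Pr_le_one (fun s : Fin m → Equiv.Perm (Fin n) => T (i, s) f = true)
        linarith
      · push Not at hi
        have h5 : Pr (fun s : Fin m → Equiv.Perm (Fin n) => T (i, s) f = true) ≤ δ / 16 := by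
          refine (Pr_mono ?_).trans ((emp_close hm0 ht0 f (c i)).trans hκ)
          intro s hs
          simp only [hT, decide_eq_true_eq] at hs
          rw [htN]
          have h6 : V f (c i) ≤ ∑ b, |emp f (c i) s b - freq f (c i) b| +
              ∑ b, |emp f (c i) s b - freq (g n) (c i) b| := by
            rw [← Finset.sum_add_distrib]
            apply Finset.sum_le_sum
            intro b _
            have := abs_sub_le (freq f (c i) b) (emp f (c i) s b) (freq (g n) (c i) b)
            rw [abs_sub_comm (freq f (c i) b) (emp f (c i) s b)] at this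
            exact this
          linarith
        have := hV2 f (c i)
        linarith
    refine (Ex_mono h4).trans ?_
    rw [Ex_sub, Ex_const]
    linarith
  refine exists_tester_of_base (m := M) (q := m * q) T hdep (g n) ε (1 - δ / 16)
    (1 - δ / 16 - δ / 8) (by linarith) ?_ hyes hno
  have : (1 - δ / 16) - (1 - δ / 16 - δ / 8) = δ / 8 := by ring
  rw [this]
  exact hM'

theorem testable_iff_average (g : (n : ℕ) → Cube n → Bool) :
    EfficientlyTestable g ↔ AverageRigid g :=
  ⟨average_of_testable, testable_of_average⟩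

end Pool.Agent.MP4d28ec
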