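import Pool.Agent.Lib.MP_4d28ec_h44.Prob

/-!
Linearity testing over finite abelian groups in the regime of small failure probability.
-/

open Finset

namespace Pool.Agent.H44IT

theorem blr {G A : Type*} [AddCommGroup G] [Fintype G] [AddCommGroup A]
    (h : G → A) (δ : ℝ) (hδ : 6 * δ < 1)
    (H : Pr (fun p : G × G => h (p.1 + p.2) ≠ h p.1 + h p.2) ≤ δ) :
    ∃ Λ : G →+ A, (∀ a, Pr (fun x => h (x + a) - h x ≠ Λ a) ≤ 2 * δ) ∧
      Pr (fun x => h x ≠ Λ x) ≤ 2 * δ := by
  have hδ0 : 0 ≤ δ := (Pr_nonneg _).trans H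
  have key : ∀ a : G, ∃ x0 : G, Pr (fun y => h (y + a) - h y ≠ h (x0 + a) - h x0) ≤ 2 * δ := by
    intro a
    have h1 : Pr (fun p : G × G => h (p.1 + a + p.2) ≠ h (p.1 + a) + h p.2) ≤ δ := by
      refine le_trans (le_of_eq ?_) H
      exact Pr_equiv ((Equiv.addRight a).prodCongr (Equiv.refl G))
        (fun p : G × G => h (p.1 + p.2) ≠ h p.1 + h p.2)
    have h2 : Pr (fun p : G × G => h (p.1 + (p.2 + a)) ≠ h p.1 + h (p.2 + a)) ≤ δ := by
      refine le_trans (le_of_eq ?_) H
      exact Pr_equiv ((Equiv.refl G).prodCongr (Equiv.addRight a))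
        (fun p : G × G => h (p.1 + p.2) ≠ h p.1 + h p.2)
    have h3 : Pr (fun p : G × G => h (p.2 + a) - h p.2 ≠ h (p.1 + a) - h p.1) ≤ 2 * δ := by
      refine (Pr_le_add (q := fun p : G × G => h (p.1 + a + p.2) ≠ h (p.1 + a) + h p.2)
        (r := fun p : G × G => h (p.1 + (p.2 + a)) ≠ h p.1 + h (p.2 + a)) ?_).trans
        (by linarith)
      intro p hp
      by_contra hcon
      push Not at hcon
      obtain ⟨e1, e2⟩ := hcon
      apply hp
      have e3 : p.1 + a + p.2 = p.1 + (p.2 + a) := by abel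
      rw [e3] at e1
      rw [e1] at e2
      have e4 : h (p.2 + a) - h p.2 - (h (p.1 + a) - h p.1) =
        (h p.1 + h (p.2 + a)) - (h (p.1 + a) + h p.2) := by abel
      rw [← e2, sub_self] at e4
      exact sub_eq_zero.mp e4
    rw [Pr_prod] at h3
    obtain ⟨x0, hx0⟩ := exists_le_Ex
      (fun x : G => Pr (fun y => h (y + a) - h y ≠ h (x + a) - h x))
    exact ⟨x0, hx0.trans h3⟩
  choose x0 hx0 using key
  have hadd : ∀ a b, (h (x0 (a + b) + (a + b)) - h (x0 (a + b))) =
      (h (x0 a + a) - h (x0 a)) + (h (x0 b + b) - h (x0 b)) := by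
    intro a b
    by_contra hne
    have h1 := hx0 (a + b)
    have h2 : Pr (fun y => h (y + b + a) - h (y + b) ≠ h (x0 a + a) - h (x0 a)) ≤ 2 * δ := by
      refine le_trans (le_of_eq ?_) (hx0 a)
      exact Pr_equiv (Equiv.addRight b)
        (fun y => h (y + a) - h y ≠ h (x0 a + a) - h (x0 a))
    have h3 := hx0 b
    have h4 : (1 : ℝ) ≤ 2 * δ + (2 * δ + 2 * δ) := by
      rw [← Pr_true (α := G) (p := fun _ => True) (fun _ => trivial)]
      refine (Pr_le_add (q := fun y => h (y + (a + b)) - h y ≠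
        h (x0 (a + b) + (a + b)) - h (x0 (a + b)))
        (r := fun y => h (y + b + a) - h (y + b) ≠ h (x0 a + a) - h (x0 a) ∨
          h (y + b) - h y ≠ h (x0 b + b) - h (x0 b)) ?_).trans
        (add_le_add h1 ((Pr_or_le _ _).trans (add_le_add h2 h3)))
      intro y _
      by_contra hcon
      push Not at hcon
      obtain ⟨e1, e2, e3⟩ := hcon
      apply hne
      rw [← e1, ← e2, ← e3]
      have e5 : y + (a + b) = y + b + a := by abel
      rw [e5]
      abel
    linarith
  refine ⟨AddMonoidHom.mk' (fun a => h (x0 a + a) - h (x0 a)) hadd, ?_, ?_⟩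
  · intro a
    exact hx0 a
  · have h1 : (1 - 2 * δ) * Pr (fun x => h x ≠ h (x0 x + x) - h (x0 x)) ≤ δ := by
      classical
      refine le_trans ?_ H
      rw [Pr_prod, Pr_def (fun x => h x ≠ h (x0 x + x) - h (x0 x)), ← Ex_const_mul]
      apply Ex_mono
      intro x
      split_ifs with hx
      · have h2 : Pr (fun y => ¬ (h (y + x) - h y ≠ h (x0 x + x) - h (x0 x))) ≤
            Pr (fun y => h (x + y) ≠ h x + h y) := by
          apply Pr_mono
          intro y hy
          push Not at hy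
          intro hcon
          apply hx
          rw [← hy, add_comm y x, hcon]
          abel
        rw [Pr_not] at h2
        have := hx0 x
        linarith
      · rw [mul_zero]
        exact Pr_nonneg _
    show Pr (fun x => h x ≠ h (x0 x + x) - h (x0 x)) ≤ 2 * δ
    have h2 := Pr_nonneg (fun x => h x ≠ h (x0 x + x) - h (x0 x))
    nlinarith

end Pool.Agent.H44IT
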