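import Pool.Agent.Lib.MP_4d28ec_h44.Reader

/-!
The acceptance probability of the base test: formula, completeness, and what follows when it is
large.
-/

open Finset

namespace Pool.Agent.MP4d28ec

open Pool.Agent.H44IT

lemma Ex_option {K : ℕ} (f : Option (Fin 6 × Fin K) → ℝ) :
    Ex f = (f none + ∑ i, ∑ k, f (some (i, k))) / (6 * K + 1) := by
  unfold Ex
  rw [Fintype.sum_option, Fintype.sum_prod_type]
  congr 1
  simp

/-- The sum of the acceptance probabilities of the one-sided subtests. -/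
noncomputable def sumOne {n s : ℕ} (hs : 0 < s) (R : Fin (LL s) ↪ Fin n) (f : Cube n → Bool) : ℝ :=
  Pr (fun p => T1 (reader R f) p) + Pr (fun p => T2 (reader R f) p) +
  Pr (fun p => T3 (reader R f) p) + Pr (fun p => T4 (reader R f) p) +
  Pr (fun p => T5 (reader R f) p) +
  Pr (fun p => T7 f (actw s) (fun x => ixw hs (wt x)) (reader R f) p)

section marg

variable {A B C D E F G : Type} [Fintype A] [Fintype B] [Fintype C] [Fintype D] [Fintype E]
  [Fintype F] [Fintype G] [Nonempty A] [Nonempty B] [Nonempty C] [Nonempty D] [Nonempty E]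
  [Nonempty F] [Nonempty G]

lemma marg1 (p : A → Prop) : Pr (fun y : A × (B × (C × (D × (E × (F × G))))) => p y.1) = Pr p :=
  Pr_fst p

lemma marg2 (p : B → Prop) : Pr (fun y : A × (B × (C × (D × (E × (F × G))))) => p y.2.1) = Pr p := by
  rw [Pr_snd (fun y : B × (C × (D × (E × (F × G)))) => p y.1), Pr_fst p]

lemma marg3 (p : C → Prop) : Pr (fun y : A × (B × (C × (D × (E × (F × G))))) => p y.2.2.1) = Pr p := by
  rw [Pr_snd (fun y : B × (C × (D × (E × (F × G)))) => p y.2.1),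
    Pr_snd (fun y : C × (D × (E × (F × G))) => p y.1), Pr_fst p]

lemma marg4 (p : D → Prop) :
    Pr (fun y : A × (B × (C × (D × (E × (F × G))))) => p y.2.2.2.1) = Pr p := by
  rw [Pr_snd (fun y : B × (C × (D × (E × (F × G)))) => p y.2.2.1),
    Pr_snd (fun y : C × (D × (E × (F × G))) => p y.2.1),
    Pr_snd (fun y : D × (E × (F × G)) => p y.1), Pr_fst p]

lemma marg5 (p : E → Prop) :
    Pr (fun y : A × (B × (C × (D × (E × (F × G))))) => p y.2.2.2.2.1) = Pr p := by
  rw [Pr_snd (fun y : B × (C × (D × (E × (F × G)))) => p y.2.2.2.1),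
    Pr_snd (fun y : C × (D × (E × (F × G))) => p y.2.2.1),
    Pr_snd (fun y : D × (E × (F × G)) => p y.2.1),
    Pr_snd (fun y : E × (F × G) => p y.1), Pr_fst p]

lemma marg6 (p : F → Prop) :
    Pr (fun y : A × (B × (C × (D × (E × (F × G))))) => p y.2.2.2.2.2.1) = Pr p := by
  rw [Pr_snd (fun y : B × (C × (D × (E × (F × G)))) => p y.2.2.2.2.1),
    Pr_snd (fun y : C × (D × (E × (F × G))) => p y.2.2.2.1),
    Pr_snd (fun y : D × (E × (F × G)) => p y.2.2.1),
    Pr_snd (fun y : E × (F × G) => p y.2.1),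
    Pr_snd (fun y : F × G => p y.1), Pr_fst p]

lemma marg7 (p : G → Prop) :
    Pr (fun y : A × (B × (C × (D × (E × (F × G))))) => p y.2.2.2.2.2.2) = Pr p := by
  rw [Pr_snd (fun y : B × (C × (D × (E × (F × G)))) => p y.2.2.2.2.2),
    Pr_snd (fun y : C × (D × (E × (F × G))) => p y.2.2.2.2),
    Pr_snd (fun y : D × (E × (F × G)) => p y.2.2.2),
    Pr_snd (fun y : E × (F × G) => p y.2.2),
    Pr_snd (fun y : F × G => p y.2), Pr_snd p]

end marg

lemma one_0 {n s : ℕ} (hs : 0 < s) (R : Fin (LL s) ↪ Fin n) (f : Cube n → Bool) (y : Seed n s) :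
    one hs R f y 0 ↔ T1 (reader R f) y.1 := by
  unfold one
  simp

lemma one_1 {n s : ℕ} (hs : 0 < s) (R : Fin (LL s) ↪ Fin n) (f : Cube n → Bool) (y : Seed n s) :
    one hs R f y 1 ↔ T2 (reader R f) y.2.1 := by
  unfold one
  simp

lemma one_2 {n s : ℕ} (hs : 0 < s) (R : Fin (LL s) ↪ Fin n) (f : Cube n → Bool) (y : Seed n s) :
    one hs R f y 2 ↔ T3 (reader R f) y.2.2.1 := by
  unfold one
  simp

lemma one_3 {n s : ℕ} (hs : 0 < s) (R : Fin (LL s) ↪ Fin n) (f : Cube n → Bool) (y : Seed n s) :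
    one hs R f y 3 ↔ T4 (reader R f) y.2.2.2.1 := by
  unfold one
  simp

lemma one_4 {n s : ℕ} (hs : 0 < s) (R : Fin (LL s) ↪ Fin n) (f : Cube n → Bool) (y : Seed n s) :
    one hs R f y 4 ↔ T5 (reader R f) y.2.2.2.2.1 := by
  unfold one
  simp

lemma one_5 {n s : ℕ} (hs : 0 < s) (R : Fin (LL s) ↪ Fin n) (f : Cube n → Bool) (y : Seed n s) :
    one hs R f y 5 ↔
      T7 f (actw s) (fun x => ixw hs (wt x)) (reader R f) y.2.2.2.2.2.2 := by
  unfold one
  simp

lemma Pr_base {n s K : ℕ} (hs : 0 < s) (f : Cube n → Bool) :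
    Pr (fun y : (Fin (LL s) ↪ Fin n) × (Option (Fin 6 × Fin K) × Seed n s) => base hs f y) =
      Ex (fun R : Fin (LL s) ↪ Fin n =>
        (Pr (fun p => T6 ⟨0, hs⟩ (reader R f) p) + K * sumOne hs R f) / (6 * K + 1)) := by
  have hne : Nonempty (Fin s) := ⟨⟨0, hs⟩⟩
  rw [Pr_prod]
  apply Ex_congr
  intro R
  rw [Pr_prod, Ex_option]
  congr 1
  have h0 : Pr (fun y : Seed n s => base (K := K) hs f (R, (none, y))) =
      Pr (fun p => T6 ⟨0, hs⟩ (reader R f) p) :=
    marg6 (fun p => T6 ⟨0, hs⟩ (reader R f) p)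
  have h1 : ∀ (i : Fin 6) (k : Fin K), Pr (fun y : Seed n s => base (K := K) hs f (R, (some (i, k), y))) =
      Pr (fun y : Seed n s => one hs R f y i) := fun i k => rfl
  have q0 : Pr (fun y : Seed n s => one hs R f y 0) = Pr (fun p => T1 (reader R f) p) :=
    (Pr_congr (one_0 hs R f)).trans (marg1 (fun p => T1 (reader R f) p))
  have q1 : Pr (fun y : Seed n s => one hs R f y 1) = Pr (fun p => T2 (reader R f) p) :=
    (Pr_congr (one_1 hs R f)).trans (marg2 (fun p => T2 (reader R f) p))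
  have q2 : Pr (fun y : Seed n s => one hs R f y 2) = Pr (fun p => T3 (reader R f) p) :=
    (Pr_congr (one_2 hs R f)).trans (marg3 (fun p => T3 (reader R f) p))
  have q3 : Pr (fun y : Seed n s => one hs R f y 3) = Pr (fun p => T4 (reader R f) p) :=
    (Pr_congr (one_3 hs R f)).trans (marg4 (fun p => T4 (reader R f) p))
  have q4 : Pr (fun y : Seed n s => one hs R f y 4) = Pr (fun p => T5 (reader R f) p) :=
    (Pr_congr (one_4 hs R f)).trans (marg5 (fun p => T5 (reader R f) p))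
  have q5 : Pr (fun y : Seed n s => one hs R f y 5) =
      Pr (fun p => T7 f (actw s) (fun x => ixw hs (wt x)) (reader R f) p) :=
    (Pr_congr (one_5 hs R f)).trans
      (marg7 (fun p => T7 f (actw s) (fun x => ixw hs (wt x)) (reader R f) p))
  rw [h0]
  simp only [h1, Finset.sum_const, Finset.card_univ, Fintype.card_fin, nsmul_eq_mul]
  rw [Fin.sum_univ_six, q0, q1, q2, q3, q4, q5]
  unfold sumOne
  ring

/-! ### completeness -/

lemma Pr_emb {n L : ℕ} (hn : L ≤ n) (hL : 0 < L) (a : Fin L) (i : Fin n) :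
    Pr (fun R : Fin L ↪ Fin n => R a = i) = 1 / (n : ℝ) := by
  classical
  have hne : Nonempty (Fin L ↪ Fin n) := ⟨Fin.castLEEmb hn⟩
  have hsym : ∀ j : Fin n, Pr (fun R : Fin L ↪ Fin n => R a = j) =
      Pr (fun R : Fin L ↪ Fin n => R a = i) := by
    intro j
    rw [← Pr_equiv (Equiv.embeddingCongr (Equiv.refl (Fin L)) (Equiv.swap i j))
      (fun R : Fin L ↪ Fin n => R a = j)]
    apply Pr_congr
    intro R
    show Equiv.swap i j (R a) = j ↔ R a = i
    rw [← Equiv.eq_symm_apply, Equiv.symm_swap, Equiv.swap_apply_right]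
  have hsum : ∑ j : Fin n, Pr (fun R : Fin L ↪ Fin n => R a = j) = 1 := by
    have : ∀ j : Fin n, Pr (fun R : Fin L ↪ Fin n => R a = j) =
        Ex (fun R : Fin L ↪ Fin n => if R a = j then (1 : ℝ) else 0) := fun j => Pr_def _
    simp only [this]
    rw [← Ex_sum]
    rw [← Ex_const (α := Fin L ↪ Fin n) 1]
    apply Ex_congr
    intro R
    simp [Ex_const]
  simp only [hsym, Finset.sum_const, Finset.card_univ, Fintype.card_fin, nsmul_eq_mul] at hsum
  have hn0 : (n : ℝ) ≠ 0 := by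
    have : 0 < n := lt_of_lt_of_le hL hn
    positivity
  field_simp
  linarith

lemma Pr_meet {n L s : ℕ} (hn : L ≤ n) (hL : 0 < L) (S : Fin s → Fin n) :
    Pr (fun R : Fin L ↪ Fin n => ¬ ∀ a k, R a ≠ S k) ≤ s * L / n := by
  have h1 : Pr (fun R : Fin L ↪ Fin n => ¬ ∀ a k, R a ≠ S k) ≤
      Pr (fun R : Fin L ↪ Fin n => ∃ p ∈ (Finset.univ : Finset (Fin L × Fin s)), R p.1 = S p.2) := by
    apply Pr_mono
    intro R hR
    push Not at hR
    obtain ⟨a, k, h⟩ := hR
    exact ⟨(a, k), Finset.mem_univ _, h⟩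
  refine h1.trans ((Pr_exists_le _ _).trans ?_)
  simp only [Pr_emb hn hL, Finset.sum_const, Finset.card_univ, Fintype.card_prod,
    Fintype.card_fin, nsmul_eq_mul]
  push_cast
  apply le_of_eq
  ring

lemma bool_add_cancel (a b : Bool) : a + b + b = a := by
  cases a <;> cases b <;> rfl

lemma rd_exact {n s : ℕ} {F : Fun s → Cube n → Bool} {S : Fin s → Fin n}
    (hF : ∀ φ x, F φ x = φ (fun k => x (S k))) (φ : Fun s) (x : Cube n) (χ : Fun s) :
    rd F φ x χ = φ (fun k => x (S k)) := by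
  unfold rd
  rw [hF, hF, Pi.add_apply, bool_add_cancel]

lemma rd3_exact {n s : ℕ} {F : Fun s → Cube n → Bool} {S : Fin s → Fin n}
    (hF : ∀ φ x, F φ x = φ (fun k => x (S k))) (r : Fin s → ZMod 3) (x : Cube n) (χ : Fun s) :
    rd3 F r x χ = hash3 r (fun k => c3 (x (S k))) := by
  unfold rd3
  rw [rd_exact hF, rd_exact hF, c3_ind]

lemma c3_mix {n : ℕ} (B x y : Cube n) (i : Fin n) :
    c3 (x i) + c3 (y i) = c3 (mix B x y i) + c3 (mix B y x i) := by
  simp only [mix]
  cases B i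
  · simp [add_comm]
  · simp

section complete

variable {n s : ℕ} {F : Fun s → Cube n → Bool} {S : Fin s → Fin n}

lemma exact_T1 (hF : ∀ φ x, F φ x = φ (fun k => x (S k))) (p) : T1 F p := by
  unfold T1
  rw [hF, hF, hF, Pi.add_apply]

lemma exact_T2 (hF : ∀ φ x, F φ x = φ (fun k => x (S k))) (p) : T2 F p := by
  unfold T2
  rw [hF, hF, hF, hF, Pi.add_apply, Pi.mul_apply, bool_add_cancel]

lemma exact_T3 (hF : ∀ φ x, F φ x = φ (fun k => x (S k))) (p) : T3 F p := by
  unfold T3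
  rw [hF, hF, Pi.add_apply, Pi.one_apply, bool_add_cancel]

lemma exact_T4 (hF : ∀ φ x, F φ x = φ (fun k => x (S k))) (p) : T4 F p := by
  unfold T4
  rw [rd_exact hF, rd_exact hF, rd_exact hF, ← hash2_add]
  rfl

lemma exact_T5 (hF : ∀ φ x, F φ x = φ (fun k => x (S k))) (p) : T5 F p := by
  unfold T5
  rw [rd3_exact hF, rd3_exact hF, rd3_exact hF, rd3_exact hF, ← hash3_add, ← hash3_add]
  congr 1
  funext k
  exact c3_mix _ _ _ _

lemma exact_T6 (hs : 0 < s) (hS : Function.Injective S) (o : Fin s)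
    (hF : ∀ φ x, F φ x = φ (fun k => x (S k))) :
    Pr (fun p => T6 o F p) = (1 - (1 - 1 / (s : ℝ)) ^ s) / 2 := by
  have hne : Nonempty (Fin s) := ⟨o⟩
  have h1 : Pr (fun p => T6 o F p) =
      Pr (fun p : ((Cube n × (Fin n → Fin s)) × (Fin s → Bool)) × Fun s =>
        hash2 p.1.2 (fun k => noise o p.1.1.2 (S k)) ≠ 0) := by
    apply Pr_congr
    intro p
    unfold T6
    rw [rd_exact hF, rd_exact hF]
    have e : (fun k => (p.1.1.1 + noise o p.1.1.2) (S k)) =
        (fun k => p.1.1.1 (S k)) + (fun k => noise o p.1.1.2 (S k)) := rfl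
    rw [e, hash2_add]
    generalize hash2 p.1.2 (fun k => p.1.1.1 (S k)) = a
    generalize hash2 p.1.2 (fun k => noise o p.1.1.2 (S k)) = b
    cases a <;> cases b <;> decide
  rw [h1, Pr_fst (fun q : (Cube n × (Fin n → Fin s)) × (Fin s → Bool) =>
      hash2 q.2 (fun k => noise o q.1.2 (S k)) ≠ 0),
    hash2_half (fun q : Cube n × (Fin n → Fin s) => (fun k => noise o q.2 (S k))),
    Pr_snd (fun u : Fin n → Fin s => (fun k => noise o u (S k)) ≠ 0), Pr_not]
  have h2 : Pr (fun u : Fin n → Fin s => (fun k => noise o u (S k)) = 0) =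
      (1 - 1 / (s : ℝ)) ^ s := by
    have hcard : (Finset.univ.map ⟨S, hS⟩ : Finset (Fin n)).card = s := by
      rw [Finset.card_map, Finset.card_univ, Fintype.card_fin]
    have h3 := Pr_noise hs o (Finset.univ.map ⟨S, hS⟩ : Finset (Fin n))
    rw [hcard] at h3
    rw [← h3]
    apply Pr_congr
    intro u
    constructor
    · intro h i hi
      rw [Finset.mem_map] at hi
      obtain ⟨k, _, hk⟩ := hi
      have h4 := congrFun h k
      simp only [Function.Embedding.coeFn_mk] at hk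
      rw [← hk]
      intro h5
      have h6 : noise o u (S k) = true := by simp [noise, h5]
      rw [h6] at h4
      exact absurd h4 (by simp)
    · intro h
      funext k
      have h4 := h (S k) (Finset.mem_map.mpr ⟨k, Finset.mem_univ _, rfl⟩)
      show noise o u (S k) = (0 : Bool)
      simp [noise, h4]
      rfl
  rw [h2]
  ring

end complete

lemma exact_T7 {n s : ℕ} (hs : 0 < s) {S : Fin s → Fin n} {F : Fun s → Cube n → Bool}
    (hF : ∀ φ x, F φ x = φ (fun k => x (S k))) (p) :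
    T7 (hid hs S) (actw s) (fun x => ixw hs (wt x)) F p := by
  unfold T7
  intro h
  rw [rd_exact hF]
  unfold hid
  rw [dif_neg (not_lt.mpr h)]

theorem base_complete {n s K : ℕ} (hs : 0 < s) (hn : LL s ≤ n) (S : Fin s → Fin n)
    (hS : Function.Injective S) :
    (6 * K + (1 - (1 - 1 / (s : ℝ)) ^ s) / 2) / (6 * K + 1) - s * LL s / n ≤
      Pr (fun y : (Fin (LL s) ↪ Fin n) × (Option (Fin 6 × Fin K) × Seed n s) =>
        base hs (hid hs S) y) := by
  classical
  have hne : Nonempty (Fin (LL s) ↪ Fin n) := ⟨Fin.castLEEmb hn⟩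
  rw [Pr_base]
  set A : ℝ := (6 * K + (1 - (1 - 1 / (s : ℝ)) ^ s) / 2) / (6 * K + 1) with hA
  have hs1 : (1 : ℝ) ≤ s := by exact_mod_cast hs
  have hq0 : 0 ≤ 1 - 1 / (s : ℝ) := by
    rw [sub_nonneg, div_le_one (by linarith)]
    exact hs1
  have hq1 : 1 - 1 / (s : ℝ) ≤ 1 := by
    have : 0 ≤ 1 / (s : ℝ) := by positivity
    linarith
  have hpow0 : 0 ≤ (1 - 1 / (s : ℝ)) ^ s := pow_nonneg hq0 s
  have hA1 : A ≤ 1 := by
    rw [hA, div_le_one (by positivity)]
    linarith
  have h1 : ∀ R : Fin (LL s) ↪ Fin n, A - (if ¬ ∀ a k, R a ≠ S k then (1 : ℝ) else 0) ≤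
      (Pr (fun p => T6 ⟨0, hs⟩ (reader R (hid hs S)) p) + K * sumOne hs R (hid hs S)) /
        (6 * K + 1) := by
    intro R
    by_cases hR : ∀ a k, R a ≠ S k
    · rw [if_neg (not_not.mpr hR), sub_zero, hA]
      have hF : ∀ φ x, reader R (hid hs S) φ x = φ (fun k => x (S k)) :=
        fun φ x => reader_hid hs S R hR φ x
      have hne : Nonempty (Fin s) := ⟨⟨0, hs⟩⟩
      unfold sumOne
      rw [exact_T6 hs hS _ hF, Pr_true (exact_T1 hF), Pr_true (exact_T2 hF), Pr_true (exact_T3 hF),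
        Pr_true (exact_T4 hF), Pr_true (exact_T5 hF), Pr_true (exact_T7 hs hF)]
      apply le_of_eq
      ring
    · rw [if_pos hR]
      have h2 : 0 ≤ (Pr (fun p => T6 ⟨0, hs⟩ (reader R (hid hs S)) p) +
          K * sumOne hs R (hid hs S)) / (6 * K + 1) := by
        apply div_nonneg _ (by positivity)
        apply add_nonneg (Pr_nonneg _)
        apply mul_nonneg (Nat.cast_nonneg _)
        unfold sumOne
        have := Pr_nonneg (fun p => T1 (reader R (hid hs S)) p)
        have := Pr_nonneg (fun p => T2 (reader R (hid hs S)) p)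
        have := Pr_nonneg (fun p => T3 (reader R (hid hs S)) p)
        have := Pr_nonneg (fun p => T4 (reader R (hid hs S)) p)
        have := Pr_nonneg (fun p => T5 (reader R (hid hs S)) p)
        have := Pr_nonneg (fun p => T7 (hid hs S) (actw s) (fun x => ixw hs (wt x))
          (reader R (hid hs S)) p)
        linarith
      linarith
  refine le_trans ?_ (Ex_mono h1)
  rw [Ex_sub, Ex_const, ← Pr_def]
  have := Pr_meet hn (LL_pos hs) S
  linarith

/-! ### soundness -/

theorem base_sound {n s K : ℕ} (hs : 2 ≤ s) (hK : 200000 ≤ K) (hn : LL s ≤ n) (f : Cube n → Bool)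
    {β : ℝ} (hβ : β ≤ 1)
    (h : (6 * K + (1 - (1 - 1 / (s : ℝ)) ^ s) / 2 - β) / (6 * K + 1) ≤
      Pr (fun y : (Fin (LL s) ↪ Fin n) × (Option (Fin 6 × Fin K) × Seed n s) =>
        base (by omega) f y)) :
    ∃ σ : Fin s → Option (Fin n), ((s : ℝ) - (used σ).card) / s ≤ 12 * β + 57600 / K ∧
      Pr (fun x => actw s x ∧ f x ≠ rowVal (σ (ixw (by omega) (wt x))) x) ≤ 2402 / K := by
  have hs0 : 0 < s := by omega
  have hne : Nonempty (Fin (LL s) ↪ Fin n) := ⟨Fin.castLEEmb hn⟩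
  have hnes : Nonempty (Fin s) := ⟨⟨0, hs0⟩⟩
  rw [Pr_base] at h
  obtain ⟨R, hR⟩ := exists_ge_Ex (fun R : Fin (LL s) ↪ Fin n =>
        (Pr (fun p => T6 ⟨0, hs0⟩ (reader R f) p) + K * sumOne hs0 R f) / (6 * K + 1))
  have h1 := h.trans hR
  have hK0 : (0 : ℝ) < K := by
    have : (200000 : ℝ) ≤ K := by exact_mod_cast hK
    linarith
  have hK1 : (200000 : ℝ) ≤ K := by exact_mod_cast hK
  rw [div_le_div_iff_of_pos_right (by positivity)] at h1
  have hs1 : (1 : ℝ) ≤ s := by exact_mod_cast hs0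
  have hq0 : 0 ≤ 1 - 1 / (s : ℝ) := by
    rw [sub_nonneg, div_le_one (by linarith)]
    exact hs1
  have hq1 : 1 - 1 / (s : ℝ) ≤ 1 := by
    have : 0 ≤ 1 / (s : ℝ) := by positivity
    linarith
  have hpow1 : (1 - 1 / (s : ℝ)) ^ s ≤ 1 := pow_le_one₀ hq0 hq1
  unfold sumOne at h1
  have a1 := Pr_le_one (fun p => T1 (reader R f) p)
  have a2 := Pr_le_one (fun p => T2 (reader R f) p)
  have a3 := Pr_le_one (fun p => T3 (reader R f) p)
  have a4 := Pr_le_one (fun p => T4 (reader R f) p)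
  have a5 := Pr_le_one (fun p => T5 (reader R f) p)
  have a7 := Pr_le_one (fun p => T7 f (actw s) (fun x => ixw hs0 (wt x)) (reader R f) p)
  have a6 := Pr_le_one (fun p => T6 ⟨0, hs0⟩ (reader R f) p)
  have b1 := Pr_not (fun p => T1 (reader R f) p)
  have b2 := Pr_not (fun p => T2 (reader R f) p)
  have b3 := Pr_not (fun p => T3 (reader R f) p)
  have b4 := Pr_not (fun p => T4 (reader R f) p)
  have b5 := Pr_not (fun p => T5 (reader R f) p)
  have b7 := Pr_not (fun p => T7 f (actw s) (fun x => ixw hs0 (wt x)) (reader R f) p)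
  set t1 := Pr (fun p => T1 (reader R f) p)
  set t2 := Pr (fun p => T2 (reader R f) p)
  set t3 := Pr (fun p => T3 (reader R f) p)
  set t4 := Pr (fun p => T4 (reader R f) p)
  set t5 := Pr (fun p => T5 (reader R f) p)
  set t7 := Pr (fun p => T7 f (actw s) (fun x => ixw hs0 (wt x)) (reader R f) p)
  set t6 := Pr (fun p => T6 ⟨0, hs0⟩ (reader R f) p)
  have hbd : ∀ t : ℝ, K * (1 - t) ≤ 2 → 1 - t ≤ 2 / K := by
    intro t ht
    rw [le_div_iff₀ hK0]
    linarith
  have m1 := mul_nonneg hK0.le (sub_nonneg.mpr a1)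
  have m2 := mul_nonneg hK0.le (sub_nonneg.mpr a2)
  have m3 := mul_nonneg hK0.le (sub_nonneg.mpr a3)
  have m4 := mul_nonneg hK0.le (sub_nonneg.mpr a4)
  have m5 := mul_nonneg hK0.le (sub_nonneg.mpr a5)
  have m7 := mul_nonneg hK0.le (sub_nonneg.mpr a7)
  have key : K * (1 - t1) + K * (1 - t2) + K * (1 - t3) + K * (1 - t4) + K * (1 - t5) + K * (1 - t7)
      ≤ t6 - (1 - (1 - 1 / (s : ℝ)) ^ s) / 2 + β := by linarith
  obtain ⟨σ, hσ1, hσ2⟩ := reader_sound hs ⟨0, hs0⟩ (reader R f) f (actw s)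
    (fun x => ixw hs0 (wt x)) (δ := 2 / K) (β := β)
    (by
      rw [← mul_div_assoc, div_le_one hK0]
      linarith)
    (by rw [b1]; exact hbd _ (by linarith)) (by rw [b2]; exact hbd _ (by linarith))
    (by rw [b3]; exact hbd _ (by linarith)) (by rw [b4]; exact hbd _ (by linarith))
    (by rw [b5]; exact hbd _ (by linarith)) (by rw [b7]; exact hbd _ (by linarith))
    (by linarith)
  refine ⟨σ, hσ1.trans (le_of_eq (by ring)), hσ2.trans (le_of_eq (by ring))⟩

end Pool.Agent.MP4d28ec
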