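import Pool.Agent.Lib.MP_4d28ec_h44.Base
import Pool.Agent.Lib.MP_4d28ec_h44.Dist
import Pool.Agent.Lib.MP_4d28ec_h44.Low2

/-!
The family and its testers.
-/

open Finset

namespace Pool.Agent.MP4d28ec

open Pool.Agent.H44IT

lemma permute_hid {n s : ℕ} (hs : 0 < s) (S : Fin s → Fin n) (π : Equiv.Perm (Fin n)) :
    permute (hid hs S) π = hid hs (fun k => π (S k)) := by
  funext x
  unfold permute hid
  rw [wt_perm x π]

lemma used_card {n s : ℕ} (σ : Fin s → Option (Fin n)) :
    (used σ).card = (((Finset.univ : Finset (Fin s)).image σ).erase none).card := by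
  classical
  have h1 : (used σ).map Function.Embedding.some =
      ((Finset.univ : Finset (Fin s)).image σ).erase none := by
    ext a
    rw [Finset.mem_map, Finset.mem_erase, Finset.mem_image]
    constructor
    · rintro ⟨i, hi, rfl⟩
      simp only [used, Finset.mem_filter, Finset.mem_univ, true_and] at hi
      obtain ⟨k, hk⟩ := hi
      exact ⟨by simp, k, Finset.mem_univ _, hk⟩
    · rintro ⟨ha, k, _, hk⟩
      cases a with
      | none => exact absurd rfl ha
      | some i =>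
        refine ⟨i, ?_, rfl⟩
        simp only [used, Finset.mem_filter, Finset.mem_univ, true_and]
        exact ⟨k, hk⟩
  rw [← h1, Finset.card_map]

/-- The number of coordinates is large compared with the number of hidden coordinates. -/
def Good (s n : ℕ) : Prop :=
  s * (s * LL s) ≤ n ∧ ∀ n', n - s ≤ n' → ∀ j < LL s, |res (LL s) n' j - 1 / LL s| ≤ 1 / (s * LL s)

lemma Good.mono {s n n' : ℕ} (h : Good s n) (hn : n ≤ n') : Good s n' :=
  ⟨h.1.trans hn, fun m hm => h.2 m (by omega)⟩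

lemma exists_good {s : ℕ} (hs : 0 < s) : ∃ N, Good s N := by
  have hL := LL_pos hs
  have hpos : (0 : ℝ) < 1 / (s * LL s) := by positivity
  obtain ⟨N, hN⟩ := res_equi (LL s) hL _ hpos
  refine ⟨max (s * (s * LL s)) (N + s), le_max_left _ _, ?_⟩
  intro m hm j hj
  apply hN m _ j hj
  have := le_max_right (s * (s * LL s)) (N + s)
  omega

lemma good_zero (n : ℕ) : Good 0 n := by
  refine ⟨by simp, ?_⟩
  intro m _ j hj
  have : LL 0 = 0 := by simp [LL]
  omega

lemma Good.le {s n : ℕ} (hs : 0 < s) (h : Good s n) : s ≤ n ∧ LL s ≤ n := by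
  have hL := LL_pos hs
  have h1 := h.1
  constructor
  · have : s ≤ s * (s * LL s) := Nat.le_mul_of_pos_right _ (Nat.mul_pos hs hL)
    omega
  · have h2 : LL s ≤ s * LL s := Nat.le_mul_of_pos_left _ hs
    have h3 : s * LL s ≤ s * (s * LL s) := Nat.le_mul_of_pos_left _ hs
    omega

open Classical in
/-- The number of hidden coordinates. -/
noncomputable def sN (n : ℕ) : ℕ := Nat.findGreatest (fun s => Good s n) n

lemma sN_good (n : ℕ) : Good (sN n) n := by
  classical
  unfold sN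
  exact Nat.findGreatest_spec (P := fun s => Good s n) (Nat.zero_le n) (good_zero n)

lemma sN_large (s : ℕ) : ∃ N, ∀ n ≥ N, s ≤ sN n := by
  classical
  rcases Nat.eq_zero_or_pos s with rfl | hs
  · exact ⟨0, fun n _ => Nat.zero_le _⟩
  · obtain ⟨N, hN⟩ := exists_good hs
    refine ⟨N, fun n hn => ?_⟩
    have hg := hN.mono hn
    unfold sN
    exact Nat.le_findGreatest (P := fun s => Good s n) (hg.le hs).1 hg

/-- The family. -/
noncomputable def fam (n : ℕ) : Cube n → Bool :=
  if h : 0 < sN n ∧ sN n ≤ n then hid h.1 (Fin.castLE h.2) else fun _ => false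

/-- The tester for large `n`. -/
theorem exists_tester_hid {n s K m : ℕ} (hs : 2 ≤ s) (hg : Good s n) {ε : ℝ} (hε : 0 < ε)
    (hε1 : ε ≤ 1) (hK : 1000000 / ε ≤ K) (hsε : 8 / ε ≤ s)
    (hsK : 2 * (6 * K + 1) / (ε / 100) ≤ s) (hm : 12 * (6 * K + 1) ^ 2 / (ε / 100) ^ 2 ≤ m)
    (hsn : s ≤ n) :
    ∃ A : RandAlg n (m * 16), IsTester ε (hid (by omega) (Fin.castLE hsn)) A := by
  classical
  have hs0 : 0 < s := by omega
  obtain ⟨_, hLn⟩ := hg.le hs0
  have hn0 : 0 < n := by omega
  have hne1 : Nonempty (Fin (LL s) ↪ Fin n) := ⟨Fin.castLEEmb hLn⟩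
  have hne2 : Nonempty (Fin s) := ⟨⟨0, hs0⟩⟩
  set β : ℝ := ε / 100 with hβ
  have hβ0 : 0 < β := by positivity
  have hK6 : (1000000 : ℝ) ≤ K := by
    refine le_trans ?_ hK
    rw [le_div_iff₀ hε]
    linarith
  have hK0 : (0 : ℝ) < K := by linarith
  have hKn : 200000 ≤ K := by
    have : (200000 : ℝ) ≤ K := by linarith
    exact_mod_cast this
  set κ : ℝ := (1 - (1 - 1 / (s : ℝ)) ^ s) / 2 with hκ
  set c : ℝ := 6 * K + 1 with hc
  have hc0 : 0 < c := by positivity
  have hsR : (0 : ℝ) < s := by exact_mod_cast hs0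
  have hLR : (0 : ℝ) < LL s := by exact_mod_cast LL_pos hs0
  have hnR : (0 : ℝ) < n := by exact_mod_cast hn0
  have hsmall : (s : ℝ) * LL s / n ≤ 1 / s := by
    rw [div_le_div_iff₀ hnR hsR]
    have := hg.1
    have h1 : ((s * (s * LL s) : ℕ) : ℝ) ≤ n := by exact_mod_cast this
    push_cast at h1
    nlinarith
  have hsmall2 : 1 / (s : ℝ) ≤ β / (2 * c) := by
    rw [div_le_div_iff₀ hsR (by positivity)]
    rw [div_le_iff₀ hβ0] at hsK
    linarith
  have hgap : β / (2 * c) ≤ ((6 * K + κ) / c - s * LL s / n) - (6 * K + κ - β) / c := by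
    have e1 : (6 * K + κ) / c - (6 * K + κ - β) / c = β / c := by
      rw [← sub_div]
      congr 1
      ring
    have e2 : β / c = β / (2 * c) + β / (2 * c) := by
      field_simp
      ring
    linarith
  have hgap0 : 0 < β / (2 * c) := by positivity
  obtain ⟨A, hA⟩ := exists_tester_of_base (m := m) (q := 16)
    (I := (Fin (LL s) ↪ Fin n) × (Option (Fin 6 × Fin K) × Seed n s))
    (fun y f => decide (base hs0 f y))
    (fun y => (dep_base hs0 y).comp (fun p : Prop => decide p))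
    (hid hs0 (Fin.castLE hsn)) ε
    ((6 * K + κ) / c - s * LL s / n) ((6 * K + κ - β) / c) (by linarith)
    (by
      have h1 : (β / (2 * c)) ^ 2 ≤
          (((6 * K + κ) / c - s * LL s / n) - (6 * K + κ - β) / c) ^ 2 :=
        pow_le_pow_left₀ hgap0.le hgap 2
      have h2 : 3 ≤ m * (β / (2 * c)) ^ 2 := by
        rw [div_le_iff₀ (by positivity)] at hm
        have e : m * (β / (2 * c)) ^ 2 = (m * β ^ 2) / (4 * c ^ 2) := by
          field_simp
          ring
        rw [e, le_div_iff₀ (by positivity)]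
        linarith
      have h3 : (m : ℝ) * (β / (2 * c)) ^ 2 ≤
          m * (((6 * K + κ) / c - s * LL s / n) - (6 * K + κ - β) / c) ^ 2 :=
        mul_le_mul_of_nonneg_left h1 (Nat.cast_nonneg m)
      linarith)
    (by
      rintro f ⟨π, rfl⟩
      rw [permute_hid]
      have h1 := base_complete (K := K) hs0 hLn (fun k => π (Fin.castLE hsn k))
        (π.injective.comp (Fin.castLE_injective hsn))
      refine h1.trans (le_of_eq ?_)
      apply Pr_congr
      intro y
      simp)
    (by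
      intro f hf
      by_contra hcon
      push Not at hcon
      have h1 : (6 * K + κ - β) / c ≤
          Pr (fun y : (Fin (LL s) ↪ Fin n) × (Option (Fin 6 × Fin K) × Seed n s) =>
            base hs0 f y) := by
        refine hcon.le.trans (le_of_eq ?_)
        apply Pr_congr
        intro y
        simp
      obtain ⟨σ, hσ1, hσ2⟩ := base_sound hs hKn hLn f (β := β) (by rw [hβ]; linarith) h1
      obtain ⟨S, hS⟩ := close_of_decode (L := LL s) hs0 (MM_pos s) rfl hsn σ (by
        intro j hj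
        have h2 := hg.2 n (by omega) j hj
        rw [abs_le] at h2
        have h3 : 1 / ((s : ℝ) * LL s) ≤ 1 / LL s := by
          apply one_div_le_one_div_of_le hLR
          have : (1 : ℝ) ≤ s := by exact_mod_cast hs0
          nlinarith
        have h4 : res (LL s) n j ≤ 2 / LL s := by
          have : (2 : ℝ) / LL s = 1 / LL s + 1 / LL s := by ring
          linarith
        exact h4) f (2402 / K) hσ2
      obtain ⟨π, hπ⟩ := Equiv.Perm.exists_extending_pair (Fin.castLE hsn) S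
        (Fin.castLE_injective hsn) S.injective
      have h5 := hS (hid hs0 S) (by
        intro x hx
        unfold hid
        rw [dif_neg (not_lt.mpr hx)]
        rfl)
      have h6 := hf π
      rw [permute_hid] at h6
      simp only [hπ] at h6
      rw [← used_card] at h5
      have h7 : 2 * ((s : ℝ) - (used σ).card) / s = 2 * (((s : ℝ) - (used σ).card) / s) := by ring
      rw [h7] at h5
      have h8 : (2 : ℝ) / s ≤ ε / 4 := by
        rw [div_le_div_iff₀ hsR (by norm_num)]
        rw [div_le_iff₀ hε] at hsε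
        linarith
      have h9 : (117602 : ℝ) / K ≤ ε / 8 := by
        rw [div_le_div_iff₀ hK0 (by norm_num)]
        rw [div_le_iff₀ hε] at hK
        nlinarith
      have h10 : (57600 : ℝ) / K * 2 + 2402 / K = 117602 / K := by ring
      rw [hβ] at hσ1
      linarith)
  exact ⟨A, hA⟩

theorem fam_testable : EfficientlyTestable fam := by
  intro ε₀ hε₀
  set ε : ℝ := min ε₀ 1 with hεdef
  have hε : 0 < ε := lt_min hε₀ one_pos
  have hε1 : ε ≤ 1 := min_le_right _ _
  have hεle : ε ≤ ε₀ := min_le_left _ _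
  set K : ℕ := ⌈1000000 / ε⌉₊ with hKdef
  have hK : 1000000 / ε ≤ K := Nat.le_ceil _
  set m : ℕ := ⌈12 * (6 * (K : ℝ) + 1) ^ 2 / (ε / 100) ^ 2⌉₊ with hmdef
  have hm : 12 * (6 * (K : ℝ) + 1) ^ 2 / (ε / 100) ^ 2 ≤ m := Nat.le_ceil _
  set s0 : ℕ := 2 + ⌈8 / ε⌉₊ + ⌈2 * (6 * (K : ℝ) + 1) / (ε / 100)⌉₊ with hs0def
  obtain ⟨N, hN⟩ := sN_large s0
  refine ⟨max (m * 16) (2 ^ N), fun n => ?_⟩
  have key : ∃ A : RandAlg n (max (m * 16) (2 ^ N)), IsTester ε (fam n) A := by
    by_cases hn : N ≤ n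
    · apply exists_tester_mono (le_max_left _ _)
      have h1 := hN n hn
      have hs : 2 ≤ sN n := by omega
      have hs0 : 0 < sN n := by omega
      have hg := sN_good n
      have hle := (hg.le hs0).1
      have hf : fam n = hid hs0 (Fin.castLE hle) := by
        unfold fam
        rw [dif_pos ⟨hs0, hle⟩]
      rw [hf]
      have h2 : ((⌈8 / ε⌉₊ : ℕ) : ℝ) ≤ (sN n : ℝ) := by
        have : ⌈8 / ε⌉₊ ≤ sN n := by omega
        exact_mod_cast this
      have h3 : ((⌈2 * (6 * (K : ℝ) + 1) / (ε / 100)⌉₊ : ℕ) : ℝ) ≤ (sN n : ℝ) := by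
        have : ⌈2 * (6 * (K : ℝ) + 1) / (ε / 100)⌉₊ ≤ sN n := by omega
        exact_mod_cast this
      exact exists_tester_hid hs hg hε hε1 hK ((Nat.le_ceil _).trans h2) ((Nat.le_ceil _).trans h3)
        hm hle
    · apply exists_tester_mono _ (exists_tester_brute ε hε (fam n))
      refine le_trans ?_ (le_max_right _ _)
      exact Nat.pow_le_pow_right (by norm_num) (by omega)
  obtain ⟨A, hA1, hA2⟩ := key
  exact ⟨A, hA1, fun f hf => hA2 f (fun π => hεle.trans (hf π))⟩

lemma prod_bound {y K : ℝ} (hy0 : 0 ≤ y) (hy1 : y ≤ 1) (hK : 0 ≤ K) (h : (K + 3) * y ≤ 1) :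
    (1 - (K + 3) * y) / 2 ≤ (1 / 2 - y / 2) * (1 - (K + 1) * (y * y)) * (1 - y * y) := by
  have hyy : y * y ≤ y := by nlinarith
  have hKy : 0 ≤ K * y := mul_nonneg hK hy0
  have c1 : 1 - (K + 1) * y ≤ 1 - (K + 1) * (y * y) := by
    have : (K + 1) * (y * y) ≤ (K + 1) * y := mul_le_mul_of_nonneg_left hyy (by linarith)
    linarith
  have c2 : 1 - y ≤ 1 - y * y := by linarith
  have c3 : 0 ≤ 1 - y := by linarith
  have c4 : 0 ≤ 1 - (K + 1) * y := by linarith
  have c5 : (1 - y) * (1 - (K + 1) * y) ≤ (1 - y) * (1 - (K + 1) * (y * y)) :=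
    mul_le_mul_of_nonneg_left c1 c3
  have c6 : 1 - (K + 2) * y ≤ (1 - y) * (1 - (K + 1) * y) := by
    have : 0 ≤ (K + 1) * (y * y) := mul_nonneg (by linarith) (mul_nonneg hy0 hy0)
    nlinarith
  have c7 : 0 ≤ 1 - (K + 2) * y := by linarith
  have c8 : 0 ≤ (1 - y) * (1 - (K + 1) * (y * y)) := by linarith
  have c9 : (1 - y) * (1 - (K + 1) * (y * y)) * (1 - y) ≤
      (1 - y) * (1 - (K + 1) * (y * y)) * (1 - y * y) := mul_le_mul_of_nonneg_left c2 c8
  have c10 : (1 - (K + 2) * y) * (1 - y) ≤ (1 - y) * (1 - (K + 1) * (y * y)) * (1 - y) :=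
    mul_le_mul_of_nonneg_right (c6.trans c5) c3
  have c11 : 1 - (K + 3) * y ≤ (1 - (K + 2) * y) * (1 - y) := by
    have : 0 ≤ (K + 2) * (y * y) := mul_nonneg (by linarith) (mul_nonneg hy0 hy0)
    nlinarith
  have c12 : (1 / 2 - y / 2) * (1 - (K + 1) * (y * y)) * (1 - y * y) =
      (1 - y) * (1 - (K + 1) * (y * y)) * (1 - y * y) / 2 := by ring
  rw [c12]
  linarith

lemma dist_nonneg {n : ℕ} (f g : Cube n → Bool) : 0 ≤ dist f g := by
  unfold dist
  positivity

theorem fam_far (k : ℕ) (c : ℝ) (hc : c < 1 / 2) : ∃ n₀ : ℕ, ∀ n ≥ n₀, ∀ h : Cube n → Bool,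
    PartiallySymmetric k h → c ≤ dist (fam n) h := by
  obtain ⟨N, hN⟩ := sN_large (k + 3 + ⌈(((k : ℝ) + 3) / (1 - 2 * c)) ^ 2⌉₊)
  refine ⟨N, fun n hn h hh => ?_⟩
  rcases lt_or_ge c 0 with hcneg | hcnn
  · exact hcneg.le.trans (dist_nonneg _ _)
  have h1 := hN n hn
  have hs0 : 0 < sN n := by omega
  have hg := sN_good n
  obtain ⟨hle, hLn⟩ := hg.le hs0
  have hf : fam n = hid hs0 (Fin.castLE hle) := by
    unfold fam
    rw [dif_pos ⟨hs0, hle⟩]
  rw [hf]
  have hsR : (0 : ℝ) < sN n := by exact_mod_cast hs0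
  have hLR : (0 : ℝ) < LL (sN n) := by exact_mod_cast LL_pos hs0
  have hs1 : (1 : ℝ) ≤ sN n := by exact_mod_cast hs0
  have hx : 1 / (sN n : ℝ) ≤ 1 := by
    rw [div_le_one hsR]
    exact hs1
  have hsn2 : sN n + k + 1 + (sN n - 1) ≤ n := by
    have h2 := hg.1
    have h3 : 1 ≤ LL (sN n) := LL_pos hs0
    have h4 : sN n * sN n ≤ sN n * (sN n * LL (sN n)) := by
      apply Nat.mul_le_mul_left
      exact Nat.le_mul_of_pos_right _ h3
    have h5 : (k + 3) * sN n ≤ sN n * sN n := Nat.mul_le_mul_right _ (by omega)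
    have h6 : k ≤ k * sN n := Nat.le_mul_of_pos_right _ hs0
    have h7 : (k + 3) * sN n = k * sN n + 3 * sN n := by ring
    omega
  have h6 := lower_bound2 (k := k) (L := LL (sN n)) (t := sN n - 1) hs0 (MM_pos (sN n)) rfl hle
    hsn2 (hid hs0 (Fin.castLE hle))
    (by
      intro x hx
      unfold hid
      rw [dif_neg (not_lt.mpr hx)]
      rfl)
    (1 / sN n) (by positivity) hx
    (by
      intro m hm j hj
      have h7 := hg.2 m (by omega) j hj
      rw [abs_le] at h7
      have e : (1 - 1 / (sN n : ℝ)) / LL (sN n) = 1 / LL (sN n) - 1 / (sN n * LL (sN n)) := by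
        field_simp
      rw [e]
      linarith [h7.1]) h hh
  refine le_trans ?_ h6
  have hcast : (((sN n - 1 : ℕ) : ℝ) + 1) = sN n := by
    have : ((sN n - 1 : ℕ) : ℝ) = (sN n : ℝ) - 1 := by
      rw [Nat.cast_sub (by omega), Nat.cast_one]
    rw [this]
    ring
  rw [hcast]
  set r : ℝ := Real.sqrt (sN n) with hr
  have hr1 : 1 ≤ r := by
    rw [hr, Real.one_le_sqrt]
    exact hs1
  have hr0 : 0 < r := by linarith
  have hrr : r * r = sN n := by
    rw [hr]
    exact Real.mul_self_sqrt hsR.le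
  have hc0 : 0 < 1 - 2 * c := by linarith
  have h8 : ((k : ℝ) + 3) / (1 - 2 * c) ≤ r := by
    rw [hr]
    apply Real.le_sqrt_of_sq_le
    refine (Nat.le_ceil _).trans ?_
    have : ⌈(((k : ℝ) + 3) / (1 - 2 * c)) ^ 2⌉₊ ≤ sN n := by omega
    exact_mod_cast this
  have h9 : ((k : ℝ) + 3) * (1 / r) ≤ 1 - 2 * c := by
    rw [mul_one_div, div_le_iff₀ hr0]
    rw [div_le_iff₀ hc0] at h8
    linarith
  have e1 : 1 / (sN n : ℝ) = (1 / r) * (1 / r) := by
    rw [← hrr]
    field_simp
  have e2 : 1 / (2 * r) = (1 / r) / 2 := by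
    field_simp
  have e3 : ((k : ℝ) + 1) / sN n = (k + 1) * ((1 / r) * (1 / r)) := by
    rw [← e1]
    ring
  rw [e1, e2, e3]
  have hy1 : 1 / r ≤ 1 := by
    rw [div_le_one hr0]
    exact hr1
  have hy0 : 0 < 1 / r := by positivity
  refine le_trans ?_ (prod_bound hy0.le hy1 (Nat.cast_nonneg k) (by linarith))
  linarith

end Pool.Agent.MP4d28ec
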