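import Pool.Agent.Lib.MP_4d28ec_h44.LongCode

/-!
Random hashes of vectors, the crossover identity, and the noise count.
-/

open Finset

namespace Pool.Agent.H44IT

/-- The inner product modulo two. -/
def hash2 {s : ℕ} (r v : Fin s → Bool) : Bool := ∑ k, r k * v k

/-- The inner product modulo three of a vector with a Boolean vector. -/
def hash3 {s : ℕ} (r v : Fin s → ZMod 3) : ZMod 3 := ∑ k, r k * v k

lemma hash2_add {s : ℕ} (r v w : Fin s → Bool) : hash2 r (v + w) = hash2 r v + hash2 r w := by
  unfold hash2
  rw [← Finset.sum_add_distrib]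
  apply Finset.sum_congr rfl
  intro k _
  rw [Pi.add_apply, mul_add]

lemma hash2_add_left {s : ℕ} (r r' v : Fin s → Bool) :
    hash2 (r + r') v = hash2 r v + hash2 r' v := by
  unfold hash2
  rw [← Finset.sum_add_distrib]
  apply Finset.sum_congr rfl
  intro k _
  rw [Pi.add_apply, add_mul]

lemma hash2_zero {s : ℕ} (r : Fin s → Bool) : hash2 r 0 = 0 := by
  unfold hash2
  apply Finset.sum_eq_zero
  intro k _
  rw [Pi.zero_apply, mul_zero]

lemma hash2_single {s : ℕ} (k : Fin s) (v : Fin s → Bool) : hash2 (Pi.single k 1) v = v k := by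
  unfold hash2
  rw [Finset.sum_eq_single k]
  · rw [Pi.single_eq_same, one_mul]
  · intro j _ hj
    rw [Pi.single_eq_of_ne hj, zero_mul]
  · intro h
    exact absurd (Finset.mem_univ k) h

lemma hash3_add {s : ℕ} (r v w : Fin s → ZMod 3) : hash3 r (v + w) = hash3 r v + hash3 r w := by
  unfold hash3
  rw [← Finset.sum_add_distrib]
  apply Finset.sum_congr rfl
  intro k _
  rw [Pi.add_apply, mul_add]

lemma hash3_sub {s : ℕ} (r v w : Fin s → ZMod 3) : hash3 r (v - w) = hash3 r v - hash3 r w := by
  unfold hash3
  rw [← Finset.sum_sub_distrib]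
  apply Finset.sum_congr rfl
  intro k _
  rw [Pi.sub_apply, mul_sub]

lemma hash3_add_left {s : ℕ} (r r' v : Fin s → ZMod 3) :
    hash3 (r + r') v = hash3 r v + hash3 r' v := by
  unfold hash3
  rw [← Finset.sum_add_distrib]
  apply Finset.sum_congr rfl
  intro k _
  rw [Pi.add_apply, add_mul]

lemma hash3_single {s : ℕ} (k : Fin s) (v : Fin s → ZMod 3) : hash3 (Pi.single k 1) v = v k := by
  unfold hash3
  rw [Finset.sum_eq_single k]
  · rw [Pi.single_eq_same, one_mul]
  · intro j _ hj
    rw [Pi.single_eq_of_ne hj, zero_mul]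
  · intro h
    exact absurd (Finset.mem_univ k) h

lemma Pr_hash2 {s : ℕ} (v : Fin s → Bool) (hv : v ≠ 0) :
    Pr (fun r : Fin s → Bool => hash2 r v ≠ 0) = 1 / 2 := by
  obtain ⟨k, hk⟩ : ∃ k, v k ≠ 0 := by
    by_contra hc
    push Not at hc
    exact hv (funext hc)
  have hk1 := bool_ne_zero hk
  have h1 : Pr (fun r : Fin s → Bool => hash2 r v ≠ 0) =
      Pr (fun r : Fin s → Bool => ¬ (hash2 r v ≠ 0)) := by
    rw [← Pr_equiv (Equiv.addRight (Pi.single k (1 : Bool)))
      (fun r : Fin s → Bool => ¬ (hash2 r v ≠ 0))]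
    apply Pr_congr
    intro r
    rw [Equiv.coe_addRight, hash2_add_left, hash2_single, hk1]
    cases hash2 r v <;> decide
  have h2 := Pr_not (fun r : Fin s → Bool => hash2 r v ≠ 0)
  linarith

lemma Pr_hash3 {s : ℕ} (v : Fin s → ZMod 3) (hv : v ≠ 0) :
    1 / 2 ≤ Pr (fun r : Fin s → ZMod 3 => hash3 r v ≠ 0) := by
  obtain ⟨k, hk⟩ : ∃ k, v k ≠ 0 := by
    by_contra hc
    push Not at hc
    exact hv (funext hc)
  have hcov := Pr_cover (fun t : Bool => Equiv.addRight (if t then (Pi.single k 1 : Fin s → ZMod 3) else 0))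
    (fun r : Fin s → ZMod 3 => hash3 r v ≠ 0) (by
      intro r
      by_contra hc
      push Not at hc
      have h1 := hc false
      have h2 := hc true
      simp only [Equiv.coe_addRight, Bool.false_eq_true, if_false, if_true, add_zero,
        hash3_add_left, hash3_single] at h1 h2
      rw [h1, zero_add] at h2
      exact hk h2)
  simpa using hcov

lemma unhash2 {s : ℕ} {α : Type*} [Fintype α] (v : α → Fin s → Bool) :
    Pr (fun a => v a ≠ 0) ≤ 2 * Pr (fun p : α × (Fin s → Bool) => hash2 p.2 (v p.1) ≠ 0) := by
  classical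
  rw [Pr_prod, Pr_def, ← Ex_const_mul]
  apply Ex_mono
  intro a
  split_ifs with h
  · rw [Pr_hash2 (v a) h]; norm_num
  · have := Pr_nonneg (fun b : Fin s → Bool => hash2 b (v a) ≠ 0)
    linarith

lemma unhash3 {s : ℕ} {α : Type*} [Fintype α] (v : α → Fin s → ZMod 3) :
    Pr (fun a => v a ≠ 0) ≤ 2 * Pr (fun p : α × (Fin s → ZMod 3) => hash3 p.2 (v p.1) ≠ 0) := by
  classical
  rw [Pr_prod, Pr_def, ← Ex_const_mul]
  apply Ex_mono
  intro a
  split_ifs with h
  · have := Pr_hash3 (v a) h
    linarith
  · have := Pr_nonneg (fun b : Fin s → ZMod 3 => hash3 b (v a) ≠ 0)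
    linarith

/-! ### crossover -/

/-- The point that agrees with `x` where `B` holds and with `y` elsewhere. -/
def mix {n : ℕ} (B x y : Fin n → Bool) : Fin n → Bool := fun i => if B i then x i else y i

lemma mix_eq {n : ℕ} (B x y : Fin n → Bool) : mix B x y = y + B * (x + y) := by
  funext i
  simp only [mix, Pi.add_apply, Pi.mul_apply]
  cases B i <;> cases x i <;> cases y i <;> decide

/-- The embedding of the truth values into the residues modulo three. -/
def c3 (b : Bool) : ZMod 3 := if b then 1 else 0

lemma c3_fail {a b c d : Bool} (h1 : a = b) (h2 : a + b = c + d) (h3 : c ≠ a) :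
    c3 a + c3 b ≠ c3 c + c3 d := by
  subst h1
  revert h2 h3
  cases a <;> cases c <;> cases d <;> decide

lemma crossover_fail {n : ℕ} (l : (Fin n → Bool) →+ Bool) (i j : Fin n) (hij : i ≠ j)
    (hi : l (Pi.single i 1) ≠ 0) (hj : l (Pi.single j 1) ≠ 0) :
    1 / 8 ≤ Pr (fun p : ((Fin n → Bool) × (Fin n → Bool)) × (Fin n → Bool) =>
      c3 (l p.1.1) + c3 (l p.1.2) ≠ c3 (l (mix p.2 p.1.1 p.1.2)) + c3 (l (mix p.2 p.1.2 p.1.1))) := by
  have hi1 := bool_ne_zero hi
  have hj1 := bool_ne_zero hj
  have hcov := Pr_cover (fun t : (Bool × Bool) × Bool =>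
      (((Equiv.addRight ((if t.1.1 then (Pi.single i 1 : Fin n → Bool) else 0) +
        (if t.1.2 then (Pi.single j 1 : Fin n → Bool) else 0))).prodCongr
          (Equiv.refl (Fin n → Bool))).prodCongr
            (Equiv.addRight (if t.2 then (Pi.single i 1 : Fin n → Bool) else 0))))
    (fun p : ((Fin n → Bool) × (Fin n → Bool)) × (Fin n → Bool) =>
      c3 (l p.1.1) + c3 (l p.1.2) ≠ c3 (l (mix p.2 p.1.1 p.1.2)) + c3 (l (mix p.2 p.1.2 p.1.1))) (by
      rintro ⟨⟨x, y⟩, B⟩
      -- first make the difference equal to one at `i`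
      obtain ⟨t1, ht1⟩ : ∃ t1 : Bool, (x + (if t1 then (Pi.single i 1 : Fin n → Bool) else 0) + y) i = 1 := by
        by_cases h : (x + y) i = 1
        · refine ⟨false, ?_⟩
          simpa using h
        · refine ⟨true, ?_⟩
          simp only [Pi.add_apply, if_true, Pi.single_eq_same] at h ⊢
          revert h
          cases x i <;> cases y i <;> decide
      obtain ⟨t2, ht2⟩ : ∃ t2 : Bool, l (x + (if t1 then (Pi.single i 1 : Fin n → Bool) else 0) +
          (if t2 then (Pi.single j 1 : Fin n → Bool) else 0) + y) = 0 := by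
        by_cases h : l (x + (if t1 then (Pi.single i 1 : Fin n → Bool) else 0) + y) = 0
        · refine ⟨false, ?_⟩
          simpa using h
        · have h' := bool_ne_zero h
          refine ⟨true, ?_⟩
          have e : x + (if t1 then (Pi.single i 1 : Fin n → Bool) else 0) +
            (if true then (Pi.single j 1 : Fin n → Bool) else 0) + y =
            (x + (if t1 then (Pi.single i 1 : Fin n → Bool) else 0) + y) + Pi.single j 1 := by
            simp only [if_true]
            abel
          rw [e, map_add, h', hj1]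
          decide
      set x' := x + ((if t1 then (Pi.single i 1 : Fin n → Bool) else 0) +
          (if t2 then (Pi.single j 1 : Fin n → Bool) else 0)) with hx'
      have hd : l (x' + y) = 0 := by
        rw [hx', ← ht2]
        congr 1
        abel
      have hdi : (x' + y) i = 1 := by
        have h7 : (if t2 then (Pi.single j 1 : Fin n → Bool) else 0) i = 0 := by
          cases t2
          · simp
          · simp [Pi.single_eq_of_ne hij]
        have h8 : (x' + y) i = (x + (if t1 then (Pi.single i 1 : Fin n → Bool) else 0) + y) i +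
            (if t2 then (Pi.single j 1 : Fin n → Bool) else 0) i := by
          rw [hx']
          generalize (if t1 then (Pi.single i 1 : Fin n → Bool) else 0) = A
          generalize (if t2 then (Pi.single j 1 : Fin n → Bool) else 0) = C
          simp only [Pi.add_apply]
          ring
        rw [h8, ht1, h7, add_zero]
      obtain ⟨t3, ht3⟩ : ∃ t3 : Bool, l ((B + (if t3 then (Pi.single i 1 : Fin n → Bool) else 0)) *
          (x' + y)) = 1 := by
        by_cases h : l (B * (x' + y)) = 1
        · refine ⟨false, ?_⟩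
          simpa using h
        · refine ⟨true, ?_⟩
          have e : (B + (if true then (Pi.single i 1 : Fin n → Bool) else 0)) * (x' + y) =
              B * (x' + y) + Pi.single i 1 := by
            simp only [if_true, add_mul]
            congr 1
            funext k
            by_cases hk : k = i
            · subst hk
              rw [Pi.mul_apply, Pi.single_eq_same, one_mul, hdi]
            · rw [Pi.mul_apply, Pi.single_eq_of_ne hk, zero_mul]
          rw [e, map_add, hi1]
          revert h
          cases l (B * (x' + y)) <;> decide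
      refine ⟨((t1, t2), t3), ?_⟩
      simp only [Equiv.prodCongr_apply, Prod.map_apply, Equiv.coe_addRight, Equiv.refl_apply]
      rw [← hx']
      set B' := B + (if t3 then (Pi.single i 1 : Fin n → Bool) else 0) with hB'
      have hxy : l x' = l y := by
        rw [map_add] at hd
        revert hd
        cases l x' <;> cases l y <;> decide
      have hm : l (mix B' x' y) = l y + 1 := by
        rw [mix_eq, map_add, ht3]
      have hm' : l (mix B' y x') = l x' + 1 := by
        rw [mix_eq, map_add, add_comm y x', ht3]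
      apply c3_fail hxy
      · rw [hm, hm', hxy]
        cases l y <;> decide
      · rw [hm, hxy]
        cases l y <;> decide)
  have hcard : (Fintype.card ((Bool × Bool) × Bool) : ℝ) = 8 := by
    simp
  rw [hcard] at hcov
  exact hcov

/-! ### noise -/

lemma Pr_noise {n s : ℕ} (hs : 0 < s) (z : Fin s) (D : Finset (Fin n)) :
    Pr (fun u : Fin n → Fin s => ∀ i ∈ D, u i ≠ z) = (1 - 1 / (s : ℝ)) ^ D.card := by
  classical
  rw [Pr_eq_card]
  have h1 : (Finset.univ.filter fun u : Fin n → Fin s => ∀ i ∈ D, u i ≠ z) =
      Fintype.piFinset (fun i => if i ∈ D then Finset.univ.erase z else Finset.univ) := by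
    ext u
    simp only [Finset.mem_filter, Finset.mem_univ, true_and, Fintype.mem_piFinset]
    constructor
    · intro h i
      by_cases hi : i ∈ D
      · rw [if_pos hi, Finset.mem_erase]
        exact ⟨h i hi, Finset.mem_univ _⟩
      · rw [if_neg hi]
        exact Finset.mem_univ _
    · intro h i hi
      have := h i
      rw [if_pos hi, Finset.mem_erase] at this
      exact this.1
  rw [h1, Fintype.card_piFinset]
  have h2 : ∀ i : Fin n, ((if i ∈ D then (Finset.univ.erase z : Finset (Fin s)) else Finset.univ).card) =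
      if i ∈ D then s - 1 else s := by
    intro i
    split_ifs
    · rw [Finset.card_erase_of_mem (Finset.mem_univ z), Finset.card_univ, Fintype.card_fin]
    · rw [Finset.card_univ, Fintype.card_fin]
  simp only [h2]
  rw [Fintype.card_fun, Fintype.card_fin, Fintype.card_fin]
  have hs' : (s : ℝ) ≠ 0 := by positivity
  have h3 : (s : ℕ) ^ n = ∏ _i : Fin n, s := by simp
  rw [h3]
  push_cast
  rw [← Finset.prod_div_distrib]
  have h4 : ∀ i : Fin n, ((if i ∈ D then ((s - 1 : ℕ) : ℝ) else (s : ℝ)) / (s : ℝ)) =
      if i ∈ D then (1 - 1 / (s : ℝ)) else 1 := by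
    intro i
    split_ifs
    · rw [Nat.cast_sub (by omega), Nat.cast_one]
      field_simp
    · exact div_self hs'
  simp only [h4]
  rw [Finset.prod_ite_mem]
  simp

end Pool.Agent.H44IT
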