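import Pool.Agent.Lib.MP_4d28ec_h44.BLR

/-!
Decoding of long codes in the regime of small failure probability.
-/

open Finset

namespace Pool.Agent.H44IT

lemma bool_ne_zero {b : Bool} (h : b ≠ 0) : b = 1 := by
  cases b
  · exact absurd rfl h
  · rfl

lemma bool_sub (a b : Bool) : a - b = a + b := by
  cases a <;> cases b <;> rfl

theorem longcode_decode {Ω : Type*} [Fintype Ω] [DecidableEq Ω] (Ψ : (Ω → Bool) → Bool)
    (e1 e2 e3 : ℝ) (h1 : Pr (fun p : (Ω → Bool) × (Ω → Bool) => Ψ (p.1 + p.2) ≠ Ψ p.1 + Ψ p.2) ≤ e1)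
    (h2 : Pr (fun p : ((Ω → Bool) × (Ω → Bool)) × (Ω → Bool) =>
      Ψ (p.1.1 * p.1.2 + p.2) + Ψ p.2 ≠ Ψ p.1.1 * Ψ p.1.2) ≤ e2)
    (h3 : Pr (fun χ : Ω → Bool => Ψ (1 + χ) + Ψ χ ≠ 1) ≤ e3)
    (he1 : e1 ≤ 1 / 30) (he2 : e2 ≤ 1 / 30) (he3 : e3 ≤ 1 / 30) :
    ∃ ω : Ω, ∀ φ : Ω → Bool, Pr (fun χ => Ψ (φ + χ) + Ψ χ ≠ φ ω) ≤ 2 * e1 := by
  classical
  obtain ⟨Λ, hΛ, hcl⟩ := blr Ψ e1 (by linarith) h1
  have hread : ∀ φ : Ω → Bool, Pr (fun χ => Ψ (φ + χ) + Ψ χ ≠ Λ φ) ≤ 2 * e1 := by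
    intro φ
    refine le_trans (le_of_eq ?_) (hΛ φ)
    apply Pr_congr
    intro χ
    rw [add_comm φ χ, bool_sub]
  -- multiplicativity
  have hmul : ∀ φ ψ : Ω → Bool, Λ (φ * ψ) = Λ φ * Λ ψ := by
    by_contra hcon
    push Not at hcon
    obtain ⟨φ0, ψ0, hne⟩ := hcon
    have hlow : 1 / (Fintype.card (Bool × Bool) : ℝ) ≤
        Pr (fun p : ((Ω → Bool) × (Ω → Bool)) × (Ω → Bool) => Λ (p.1.1 * p.1.2) ≠ Λ p.1.1 * Λ p.1.2) := by
      apply Pr_cover (fun t : Bool × Bool =>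
        (((Equiv.addRight (if t.1 then φ0 else 0)).prodCongr
          (Equiv.addRight (if t.2 then ψ0 else 0))).prodCongr (Equiv.refl (Ω → Bool))))
      intro p
      by_contra hall
      push Not at hall
      have a1 := hall (false, false)
      have a2 := hall (true, false)
      have a3 := hall (false, true)
      have a4 := hall (true, true)
      simp only [Equiv.prodCongr_apply, Prod.map_fst, Prod.map_snd, Equiv.coe_addRight,
        Bool.false_eq_true, if_false, if_true, add_zero, map_add, add_mul, mul_add] at a1 a2 a3 a4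
      apply hne
      linear_combination a4 - a3 - a2 + a1
    have hup : Pr (fun p : ((Ω → Bool) × (Ω → Bool)) × (Ω → Bool) =>
        Λ (p.1.1 * p.1.2) ≠ Λ p.1.1 * Λ p.1.2) ≤ e2 + (2 * e1 + (2 * e1 + 2 * e1)) := by
      have b1 : Pr (fun p : ((Ω → Bool) × (Ω → Bool)) × (Ω → Bool) =>
          Ψ (p.1.1 * p.1.2 + p.2) + Ψ p.2 ≠ Λ (p.1.1 * p.1.2)) ≤ 2 * e1 := by
        rw [Pr_prod]
        apply Ex_le_of_le
        intro q
        exact hread (q.1 * q.2)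
      have b2 : Pr (fun p : ((Ω → Bool) × (Ω → Bool)) × (Ω → Bool) => Ψ p.1.1 ≠ Λ p.1.1) ≤ 2 * e1 := by
        rw [Pr_fst (fun q : (Ω → Bool) × (Ω → Bool) => Ψ q.1 ≠ Λ q.1), Pr_fst (fun q => Ψ q ≠ Λ q)]
        exact hcl
      have b3 : Pr (fun p : ((Ω → Bool) × (Ω → Bool)) × (Ω → Bool) => Ψ p.1.2 ≠ Λ p.1.2) ≤ 2 * e1 := by
        rw [Pr_fst (fun q : (Ω → Bool) × (Ω → Bool) => Ψ q.2 ≠ Λ q.2), Pr_snd (fun q => Ψ q ≠ Λ q)]
        exact hcl
      refine (Pr_le_add (q := fun p : ((Ω → Bool) × (Ω → Bool)) × (Ω → Bool) =>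
        Ψ (p.1.1 * p.1.2 + p.2) + Ψ p.2 ≠ Ψ p.1.1 * Ψ p.1.2)
        (r := fun p : ((Ω → Bool) × (Ω → Bool)) × (Ω → Bool) =>
          Ψ (p.1.1 * p.1.2 + p.2) + Ψ p.2 ≠ Λ (p.1.1 * p.1.2) ∨
          (Ψ p.1.1 ≠ Λ p.1.1 ∨ Ψ p.1.2 ≠ Λ p.1.2)) ?_).trans
        (add_le_add h2 ((Pr_or_le _ _).trans (add_le_add b1 ((Pr_or_le _ _).trans (add_le_add b2 b3)))))
      intro p hp
      by_contra hc
      push Not at hc
      obtain ⟨c1, c2, c3, c4⟩ := hc
      apply hp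
      rw [← c2, c1, c3, c4]
    have hcard : (Fintype.card (Bool × Bool) : ℝ) = 4 := by
      simp
    rw [hcard] at hlow
    linarith
  -- unit
  have hone : Λ 1 = 1 := by
    by_contra hne
    have : (1 : ℝ) ≤ 2 * e1 + e3 := by
      rw [← Pr_true (α := Ω → Bool) (p := fun _ => True) (fun _ => trivial)]
      refine (Pr_le_add (q := fun χ => Ψ (1 + χ) + Ψ χ ≠ Λ 1)
        (r := fun χ => Ψ (1 + χ) + Ψ χ ≠ 1) ?_).trans (add_le_add (hread 1) h3)
      intro χ _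
      by_contra hc
      push Not at hc
      obtain ⟨c1, c2⟩ := hc
      exact hne (by rw [← c1, c2])
    linarith
  have hsum : ∑ ω, Λ (Pi.single ω (1 : Bool)) = 1 := by
    have h6 := congrArg Λ (Finset.univ_sum_single (fun _ : Ω => (1 : Bool)))
    rw [map_sum] at h6
    rw [h6]
    exact hone
  obtain ⟨ω, hω⟩ : ∃ ω, Λ (Pi.single ω (1 : Bool)) ≠ 0 := by
    by_contra hc
    push Not at hc
    simp only [hc, Finset.sum_const_zero] at hsum
    exact absurd hsum (by decide)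
  have hω1 := bool_ne_zero hω
  refine ⟨ω, ?_⟩
  intro φ
  have hφ : Λ φ = φ ω := by
    have h4 : Λ φ = Λ (φ * Pi.single ω 1) := by rw [hmul, hω1, mul_one]
    have h5 : φ * Pi.single ω (1 : Bool) = Pi.single ω (φ ω) := by
      ext i
      by_cases hi : i = ω
      · subst hi; simp
      · simp [hi]
    rw [h4, h5]
    cases hv : φ ω
    · have : (Pi.single ω false : Ω → Bool) = 0 := Pi.single_zero ω
      rw [this, map_zero]
      rfl
    · exact hω1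
  rw [← hφ]
  exact hread φ

end Pool.Agent.H44IT
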