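import Pool.Agent.Lib.MP_4d28ec_h44.Family
import Pool.Agent.Lib.MP_4d28ec_h44.Avg

/-!
The family of hidden coordinates without the long code: it is asymptotically equal to the testable
family `fam` but it is not efficiently testable.
-/

open Finset

namespace Pool.Agent.MP4d28ec

open Pool.Agent.H44IT

/-- The value is the coordinate `J r`, where `r` is determined by the weight. -/
def pl {n s : ℕ} (hs : 0 < s) (J : Fin s → Fin n) : Cube n → Bool := fun x =>
  x (J (ixw hs (wt x)))

/-- The plain family. -/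
noncomputable def plain (n : ℕ) : Cube n → Bool :=
  if h : 0 < sN n ∧ sN n ≤ n then pl h.1 (Fin.castLE h.2) else fun _ => false

lemma permute_pl {n s : ℕ} (hs : 0 < s) (J : Fin s → Fin n) (π : Equiv.Perm (Fin n)) :
    permute (pl hs J) π = pl hs (fun k => π (J k)) := by
  funext x
  unfold permute pl
  rw [wt_perm x π]

/-! ### the distance to the testable family -/

lemma dist_hid_pl {n s : ℕ} (hs : 0 < s) (J : Fin s → Fin n) (B : ℝ)
    (hB : ∀ j < LL s, res (LL s) n j ≤ B) :
    dist (hid hs J) (pl hs J) ≤ MM s * B := by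
  classical
  have h1 : (Finset.univ.filter fun x : Cube n => hid hs J x ≠ pl hs J x) ⊆
      (Finset.range (MM s)).biUnion fun j => Finset.univ.filter fun x : Cube n => wt x % LL s = j := by
    intro x hx
    rw [Finset.mem_filter] at hx
    rw [Finset.mem_biUnion]
    by_cases h : wt x % LL s < MM s
    · exact ⟨_, Finset.mem_range.2 h, Finset.mem_filter.2 ⟨Finset.mem_univ _, rfl⟩⟩
    · exfalso
      apply hx.2
      unfold hid pl
      rw [dif_neg h]
  have h2 := (Finset.card_le_card h1).trans Finset.card_biUnion_le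
  have hle : MM s ≤ LL s := Nat.le_mul_of_pos_left _ hs
  have h3 : (((Finset.univ.filter fun x : Cube n => hid hs J x ≠ pl hs J x).card : ℕ) : ℝ) ≤
      ∑ j ∈ Finset.range (MM s),
        (((Finset.univ.filter fun x : Cube n => wt x % LL s = j).card : ℕ) : ℝ) := by
    exact_mod_cast h2
  unfold dist
  rw [div_le_iff₀ (by positivity)]
  refine h3.trans ?_
  have h4 : ∀ j ∈ Finset.range (MM s),
      (((Finset.univ.filter fun x : Cube n => wt x % LL s = j).card : ℕ) : ℝ) ≤ B * 2 ^ n := by
    intro j hj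
    rw [Finset.mem_range] at hj
    have h5 := hB j (by omega)
    rw [res, div_le_iff₀ (by positivity)] at h5
    exact h5
  refine (Finset.sum_le_sum h4).trans (le_of_eq ?_)
  rw [Finset.sum_const, Finset.card_range, nsmul_eq_mul]
  ring

/-! ### the statistics of the merged functions -/

/-- For an injective choice of the coordinates at the residues that occur, the law of the answers is
the same. -/
lemma freq_pl_eq {n s q : ℕ} (hs : 0 < s) (J J' : Fin s → Fin n) (x : Fin q → Cube n)
    (hJ : ∀ i j : Fin q, J (ixw hs (wt (x i))) = J (ixw hs (wt (x j))) ↔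
      J' (ixw hs (wt (x i))) = J' (ixw hs (wt (x j)))) (b : Fin q → Bool) :
    freq (pl hs J) x b = freq (pl hs J') x b := by
  classical
  -- the sets of residues
  set r : Fin q → Fin s := fun i => ixw hs (wt (x i)) with hr
  have hJ' : ∀ i j, J (r i) = J (r j) ↔ J' (r i) = J' (r j) := hJ
  -- a section
  let R : Finset (Fin n) := Finset.univ.image (fun i => J (r i))
  have hsec : ∀ c : R, ∃ i, J (r i) = c.1 := by
    rintro ⟨c, hc⟩
    obtain ⟨i, _, hi⟩ := Finset.mem_image.1 hc
    exact ⟨i, hi⟩
  choose sec hsecs using hsec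
  obtain ⟨τ, hτ⟩ := Equiv.Perm.exists_extending_pair (fun c : R => c.1) (fun c : R => J' (r (sec c)))
    Subtype.val_injective (by
      intro c d hcd
      apply Subtype.ext
      rw [← hsecs c, ← hsecs d]
      exact (hJ' _ _).2 hcd)
  have hτ' : ∀ i, τ (J (r i)) = J' (r i) := by
    intro i
    have h1 := hτ ⟨J (r i), Finset.mem_image.2 ⟨i, Finset.mem_univ _, rfl⟩⟩
    have h2 := hsecs ⟨J (r i), Finset.mem_image.2 ⟨i, Finset.mem_univ _, rfl⟩⟩
    rw [show τ (J (r i)) = _ from h1]
    exact (hJ' _ _).1 h2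
  rw [freq_eq_Pr, freq_eq_Pr,
    ← Pr_equiv (Equiv.mulRight τ)
      (fun π : Equiv.Perm (Fin n) => ∀ i, permute (pl hs J) π (x i) = b i)]
  apply Pr_congr
  intro π
  simp only [permute_pl]
  apply forall_congr'
  intro i
  show x i (π (τ (J (ixw hs (wt (x i)))))) = b i ↔ x i (π (J' (ixw hs (wt (x i))))) = b i
  rw [show τ (J (ixw hs (wt (x i)))) = J' (ixw hs (wt (x i))) from hτ' i]

/-- The probability of a collision of a random function at two points. -/
lemma Pr_coll {s m : ℕ} (hm : 0 < m) {a b : Fin s} (hab : a ≠ b) :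
    Pr (fun μ : Fin s → Fin m => μ a = μ b) = 1 / m := by
  classical
  have hne : Nonempty (Fin m) := ⟨⟨0, hm⟩⟩
  have h1 := Pr_equiv (Equiv.funSplitAt a (Fin m)).symm (fun μ : Fin s → Fin m => μ a = μ b)
  rw [← h1]
  have h2 : Pr (fun p : Fin m × ({j : Fin s // j ≠ a} → Fin m) =>
      (Equiv.funSplitAt a (Fin m)).symm p a = (Equiv.funSplitAt a (Fin m)).symm p b) =
      Pr (fun p : Fin m × ({j : Fin s // j ≠ a} → Fin m) => p.1 = p.2 ⟨b, hab.symm⟩) := by
    apply Pr_congr
    intro p
    simp [Equiv.funSplitAt, Equiv.piSplitAt, hab.symm]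
  rw [h2, Pr_prod]
  have h3 : ∀ c : Fin m, Pr (fun ν : {j : Fin s // j ≠ a} → Fin m => c = ν ⟨b, hab.symm⟩) =
      Ex (fun ν : {j : Fin s // j ≠ a} → Fin m => if c = ν ⟨b, hab.symm⟩ then (1 : ℝ) else 0) :=
    fun c => Pr_def _
  simp only [h3]
  rw [Ex_comm]
  have h4 : ∀ ν : {j : Fin s // j ≠ a} → Fin m,
      Ex (fun c : Fin m => if c = ν ⟨b, hab.symm⟩ then (1 : ℝ) else 0) = 1 / m := by
    intro ν
    unfold Ex
    rw [Finset.sum_ite_eq' Finset.univ (ν ⟨b, hab.symm⟩) (fun _ => (1 : ℝ))]
    simp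
  rw [Ex_congr h4, Ex_const]

/-- The random merged function. -/
noncomputable def mergedFun {n s m : ℕ} (hs : 0 < s) (hm : 0 < m) (S : Fin m → Fin n) : RandFun n where
  prob := fun f => Pr (fun μ : Fin s → Fin m => pl hs (fun k => S (μ k)) = f)
  prob_nonneg := fun f => Pr_nonneg _
  prob_sum := by
    classical
    have hne : Nonempty (Fin m) := ⟨⟨0, hm⟩⟩
    simp only [Pr_def]
    rw [← Ex_sum]
    have : ∀ μ : Fin s → Fin m, ∑ f : Cube n → Bool,
        (if pl hs (fun k => S (μ k)) = f then (1 : ℝ) else 0) = 1 := by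
      intro μ
      simp
    rw [Ex_congr this, Ex_const]

lemma merged_sum {n s m : ℕ} (hs : 0 < s) (hm : 0 < m) (S : Fin m → Fin n)
    (v : (Cube n → Bool) → ℝ) :
    ∑ f, (mergedFun hs hm S).prob f * v f =
      Ex (fun μ : Fin s → Fin m => v (pl hs (fun k => S (μ k)))) := by
  classical
  have h1 : ∀ f, (mergedFun hs hm S).prob f * v f =
      Ex (fun μ : Fin s → Fin m => (if pl hs (fun k => S (μ k)) = f then (1 : ℝ) else 0) * v f) := by
    intro f
    rw [Ex_mul_const, ← Pr_def]
    rfl
  simp only [h1]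
  rw [← Ex_sum]
  apply Ex_congr
  intro μ
  simp

lemma merged_close {n s m q : ℕ} (hs : 0 < s) (hm : 0 < m) (S : Fin m → Fin n)
    (hS : Function.Injective S) (J : Fin s → Fin n) (hJ : Function.Injective J)
    (x : Fin q → Cube n) :
    ∑ b : Fin q → Bool, |(mergedFun hs hm S).freq x b - freq (pl hs J) x b| ≤
      2 * ((q : ℝ) ^ 2 / m) := by
  classical
  have hne : Nonempty (Fin m) := ⟨⟨0, hm⟩⟩
  set r : Fin q → Fin s := fun i => ixw hs (wt (x i)) with hr
  have hfreq : ∀ b, (mergedFun hs hm S).freq x b - freq (pl hs J) x b =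
      Ex (fun μ : Fin s → Fin m => freq (pl hs (fun k => S (μ k))) x b - freq (pl hs J) x b) := by
    intro b
    unfold RandFun.freq
    rw [merged_sum hs hm S (fun f => freq f x b), Ex_sub, Ex_const]
  have h1 : ∀ b, |(mergedFun hs hm S).freq x b - freq (pl hs J) x b| ≤
      Ex (fun μ : Fin s → Fin m =>
        |freq (pl hs (fun k => S (μ k))) x b - freq (pl hs J) x b|) := by
    intro b
    rw [hfreq b, abs_le]
    constructor
    · have h2 : -Ex (fun μ : Fin s → Fin m =>
          |freq (pl hs (fun k => S (μ k))) x b - freq (pl hs J) x b|) =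
          Ex (fun μ : Fin s → Fin m =>
            (-1) * |freq (pl hs (fun k => S (μ k))) x b - freq (pl hs J) x b|) := by
        rw [Ex_const_mul]
        ring
      rw [h2]
      apply Ex_mono
      intro μ
      have := neg_abs_le (freq (pl hs (fun k => S (μ k))) x b - freq (pl hs J) x b)
      linarith
    · apply Ex_mono
      intro μ
      exact le_abs_self _
  have h2 : ∑ b : Fin q → Bool, |(mergedFun hs hm S).freq x b - freq (pl hs J) x b| ≤
      Ex (fun μ : Fin s → Fin m => ∑ b : Fin q → Bool,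
        |freq (pl hs (fun k => S (μ k))) x b - freq (pl hs J) x b|) := by
    rw [Ex_sum]
    exact Finset.sum_le_sum fun b _ => h1 b
  refine h2.trans ?_
  -- pointwise bound
  have h3 : ∀ μ : Fin s → Fin m, ∑ b : Fin q → Bool,
      |freq (pl hs (fun k => S (μ k))) x b - freq (pl hs J) x b| ≤
      ∑ p : Fin q × Fin q, (if r p.1 ≠ r p.2 ∧ μ (r p.1) = μ (r p.2) then (2 : ℝ) else 0) := by
    intro μ
    by_cases hμ : ∃ p : Fin q × Fin q, r p.1 ≠ r p.2 ∧ μ (r p.1) = μ (r p.2)
    · obtain ⟨p, hp⟩ := hμ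
      have h4 : (2 : ℝ) ≤
          ∑ p : Fin q × Fin q, (if r p.1 ≠ r p.2 ∧ μ (r p.1) = μ (r p.2) then (2 : ℝ) else 0) := by
        refine le_trans (le_of_eq ?_) (Finset.single_le_sum
          (f := fun p : Fin q × Fin q =>
            (if r p.1 ≠ r p.2 ∧ μ (r p.1) = μ (r p.2) then (2 : ℝ) else 0)) ?_ (Finset.mem_univ p))
        · rw [if_pos hp]
        · intro p _
          split_ifs <;> norm_num
      refine le_trans ?_ h4
      have h5 : ∑ b : Fin q → Bool,
          |freq (pl hs (fun k => S (μ k))) x b - freq (pl hs J) x b| ≤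
          ∑ b : Fin q → Bool, (freq (pl hs (fun k => S (μ k))) x b + freq (pl hs J) x b) := by
        apply Finset.sum_le_sum
        intro b _
        have h6 := freq_nonneg (pl hs (fun k => S (μ k))) x b
        have h7 := freq_nonneg (pl hs J) x b
        rw [abs_le]
        constructor <;> linarith
      rw [Finset.sum_add_distrib, sum_freq, sum_freq] at h5
      linarith
    · push Not at hμ
      have h4 : ∀ b, freq (pl hs (fun k => S (μ k))) x b = freq (pl hs J) x b := by
        intro b
        apply freq_pl_eq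
        intro i j
        show S (μ (r i)) = S (μ (r j)) ↔ J (r i) = J (r j)
        constructor
        · intro h
          by_contra hne'
          have h5 : r i ≠ r j := fun h' => hne' (by rw [h'])
          exact hμ (i, j) h5 (hS h)
        · intro h
          rw [hJ h]
      have h5 : ∑ b : Fin q → Bool,
          |freq (pl hs (fun k => S (μ k))) x b - freq (pl hs J) x b| = 0 := by
        apply Finset.sum_eq_zero
        intro b _
        rw [h4 b, sub_self, abs_zero]
      rw [h5]
      apply Finset.sum_nonneg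
      intro p _
      split_ifs <;> norm_num
  refine (Ex_mono h3).trans ?_
  rw [Ex_sum]
  have h4 : ∀ p : Fin q × Fin q, Ex (fun μ : Fin s → Fin m =>
      (if r p.1 ≠ r p.2 ∧ μ (r p.1) = μ (r p.2) then (2 : ℝ) else 0)) ≤ 2 * (1 / m) := by
    intro p
    by_cases hp : r p.1 = r p.2
    · have h5 : ∀ μ : Fin s → Fin m,
          (if r p.1 ≠ r p.2 ∧ μ (r p.1) = μ (r p.2) then (2 : ℝ) else 0) = 0 := by
        intro μ
        rw [if_neg]
        exact fun h => h.1 hp
      rw [Ex_congr h5, Ex_const]
      positivity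
    · have h5 : ∀ μ : Fin s → Fin m,
          (if r p.1 ≠ r p.2 ∧ μ (r p.1) = μ (r p.2) then (2 : ℝ) else 0) =
          2 * (if μ (r p.1) = μ (r p.2) then (1 : ℝ) else 0) := by
        intro μ
        by_cases h : μ (r p.1) = μ (r p.2)
        · rw [if_pos ⟨hp, h⟩, if_pos h, mul_one]
        · rw [if_neg (fun h' => h h'.2), if_neg h, mul_zero]
      rw [Ex_congr h5, Ex_const_mul, ← Pr_def, Pr_coll hm hp]
  refine (Finset.sum_le_sum fun p _ => h4 p).trans (le_of_eq ?_)
  rw [Finset.sum_const, Finset.card_univ, Fintype.card_prod, Fintype.card_fin, nsmul_eq_mul]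
  push_cast
  ring

/-! ### the merged functions are far -/

lemma merged_far {n s m : ℕ} (hs : 0 < s) (S : Fin m → Fin n) (μ : Fin s → Fin m)
    (J : Fin s → Fin n) (hJ : Function.Injective J) (hn : 2 ≤ n) {B : ℝ} (hB0 : 0 ≤ B)
    (hB : ∀ j < LL s, B ≤ res (LL s) (n - 2) j) (_hms : m ≤ s) :
    ((s : ℝ) - m) * MM s * (B / 2) ≤ dist (pl hs (fun k => S (μ k))) (pl hs J) := by
  classical
  obtain ⟨n', rfl⟩ : ∃ n', n = n' + 2 := ⟨n - 2, by omega⟩
  have hLpos := LL_pos hs
  have : NeZero (LL s) := ⟨hLpos.ne'⟩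
  have hz : ∀ c : ZMod (LL s), B ≤ zres (LL s) n' c := by
    intro c
    have h2 := hB c.val (ZMod.val_lt c)
    rw [Nat.add_sub_cancel, res_eq_zres _ _ _ (ZMod.val_lt c), ZMod.natCast_val,
      ZMod.cast_id', id] at h2
    exact h2
  set G := (Finset.range (LL s)).filter fun j => S (μ (ixw hs j)) ≠ J (ixw hs j) with hG
  have hix : ∀ w, ixw hs (w % LL s) = ixw hs w := by
    intro w
    unfold ixw
    simp
  -- the number of good residues
  have hbad : ((Finset.univ.filter fun r : Fin s => S (μ r) = J r).card) ≤ m := by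
    have h1 : ((Finset.univ.filter fun r : Fin s => S (μ r) = J r).card) ≤
        (Finset.univ : Finset (Fin m)).card := by
      apply Finset.card_le_card_of_injOn μ (fun _ _ => Finset.mem_univ _)
      intro a ha b hb hab
      simp only [Finset.coe_filter, Finset.mem_univ, true_and, Set.mem_ofPred_eq] at ha hb
      apply hJ
      rw [← ha, ← hb, hab]
    simpa using h1
  have hGc : LL s ≤ G.card + m * MM s := by
    have h2 : (Finset.range (LL s)).card ≤ (G ∪
        (Finset.univ.filter fun r : Fin s => S (μ r) = J r).biUnion fun r =>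
        (Finset.range (s * MM s)).filter fun j => j % s = r.val).card := by
      apply Finset.card_le_card
      intro j hj
      rw [Finset.mem_union, Finset.mem_biUnion]
      by_cases hjJ : S (μ (ixw hs j)) = J (ixw hs j)
      · refine Or.inr ⟨ixw hs j, Finset.mem_filter.2 ⟨Finset.mem_univ _, hjJ⟩,
          Finset.mem_filter.2 ⟨hj, ?_⟩⟩
        unfold ixw
        simp only
        rw [Nat.mod_eq_of_lt (Finset.mem_range.1 hj)]
      · exact Or.inl (Finset.mem_filter.2 ⟨hj, hjJ⟩)
    have h3 := Finset.card_union_le G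
      ((Finset.univ.filter fun r : Fin s => S (μ r) = J r).biUnion fun r =>
        (Finset.range (s * MM s)).filter fun j => j % s = r.val)
    have h5 : ((Finset.univ.filter fun r : Fin s => S (μ r) = J r).biUnion fun r =>
        (Finset.range (s * MM s)).filter fun j => j % s = r.val).card ≤ m * MM s := by
      refine (Finset.card_biUnion_le_card_mul _ _ (MM s)
        (fun t _ => card_mod_eq_le s (MM s) _ hs)).trans ?_
      exact Nat.mul_le_mul_right _ hbad
    rw [Finset.card_range] at h2
    omega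
  have herr : ∀ j ∈ G, 2 ^ n' * (2 * B) ≤
      (((Finset.univ.filter fun x : Cube (n' + 2) => wt x % LL s = j ∧
        pl hs (fun k => S (μ k)) x ≠ pl hs J x).card : ℕ) : ℝ) := by
    intro j hj
    rw [hG, Finset.mem_filter, Finset.mem_range] at hj
    have h2 := card_pair (n := n') hj.1 hj.2
    have h3 : (Finset.univ.filter fun x : Cube (n' + 2) => wt x % LL s = j ∧
        pl hs (fun k => S (μ k)) x ≠ pl hs J x) =
        (Finset.univ.filter fun x : Cube (n' + 2) => wt x % LL s = j ∧
        x (S (μ (ixw hs j))) ≠ x (J (ixw hs j))) := by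
      apply Finset.filter_congr
      intro x _
      apply and_congr_right
      intro hx
      unfold pl
      rw [← hix (wt x), hx]
    rw [h3, h2]
    have h5 := hz ((j : ZMod (LL s)) - 1)
    have h6 : (2 : ℝ) ^ n' * B ≤ 2 ^ n' * zres (LL s) n' ((j : ZMod (LL s)) - 1) :=
      mul_le_mul_of_nonneg_left h5 (by positivity)
    linarith
  have hsum : (∑ j ∈ G, (Finset.univ.filter fun x : Cube (n' + 2) => wt x % LL s = j ∧
        pl hs (fun k => S (μ k)) x ≠ pl hs J x).card) ≤
      (Finset.univ.filter fun x : Cube (n' + 2) =>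
        pl hs (fun k => S (μ k)) x ≠ pl hs J x).card := by
    rw [← Finset.card_biUnion]
    · apply Finset.card_le_card
      intro x hx
      rw [Finset.mem_biUnion] at hx
      obtain ⟨j, -, hx⟩ := hx
      rw [Finset.mem_filter] at hx ⊢
      exact ⟨Finset.mem_univ _, hx.2.2⟩
    · intro i _ j _ hij
      rw [Function.onFun, Finset.disjoint_left]
      intro x hx hx'
      rw [Finset.mem_filter] at hx hx'
      exact hij (hx.2.1.symm.trans hx'.2.1)
  have hsum2 : (G.card : ℝ) * (2 ^ n' * (2 * B)) ≤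
      (((Finset.univ.filter fun x : Cube (n' + 2) =>
        pl hs (fun k => S (μ k)) x ≠ pl hs J x).card : ℕ) : ℝ) := by
    have h2 := Finset.sum_le_sum herr
    rw [Finset.sum_const, nsmul_eq_mul] at h2
    refine h2.trans ?_
    exact_mod_cast hsum
  have hGr : ((s : ℝ) - m) * MM s ≤ G.card := by
    have : ((LL s : ℕ) : ℝ) ≤ G.card + m * MM s := by exact_mod_cast hGc
    have e : ((LL s : ℕ) : ℝ) = s * MM s := by unfold LL; push_cast; ring
    rw [e] at this
    linarith
  rw [dist, le_div_iff₀ (by positivity)]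
  refine le_trans ?_ hsum2
  have h7 : (0 : ℝ) ≤ 2 ^ n' * (2 * B) := by positivity
  refine le_trans (le_of_eq ?_) (mul_le_mul_of_nonneg_right hGr h7)
  ring

theorem plain_not_testable : ¬ EfficientlyTestable plain := by
  intro hcon
  obtain ⟨q, δ, hδ, h⟩ := rigid_of_testable hcon (1 / 10) (by norm_num)
  -- the size of `s`
  obtain ⟨N, hN⟩ := sN_large (8 + 4 * ⌈2 * (q : ℝ) ^ 2 / δ⌉₊)
  have h1 := hN N le_rfl
  have hs0 : 0 < sN N := by omega
  have hg := sN_good N
  obtain ⟨hle, hLn⟩ := hg.le hs0
  have hf : plain N = pl hs0 (Fin.castLE hle) := by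
    unfold plain
    rw [dif_pos ⟨hs0, hle⟩]
  set s := sN N with hs
  set m : ℕ := s / 4 with hm
  have hm0 : 0 < m := by omega
  have hms : m ≤ s := by omega
  have hsR : (0 : ℝ) < s := by exact_mod_cast hs0
  have hMR : (0 : ℝ) < MM s := by exact_mod_cast MM_pos s
  have hmR : (0 : ℝ) < m := by exact_mod_cast hm0
  set S : Fin m → Fin N := fun t => Fin.castLE hle (Fin.castLE hms t) with hS
  have hSi : Function.Injective S :=
    (Fin.castLE_injective hle).comp (Fin.castLE_injective hms)
  have hJi : Function.Injective (Fin.castLE hle) := Fin.castLE_injective hle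
  have hclose : StatClose q δ (mergedFun hs0 hm0 S) (plain N) := by
    intro x
    rw [hf]
    refine (merged_close hs0 hm0 S hSi _ hJi x).trans ?_
    have h2 : 2 * (q : ℝ) ^ 2 / δ ≤ m := by
      refine (Nat.le_ceil _).trans ?_
      have : ⌈2 * (q : ℝ) ^ 2 / δ⌉₊ ≤ m := by omega
      exact_mod_cast this
    rw [div_le_iff₀ hδ] at h2
    rw [← mul_div_assoc, div_le_iff₀ hmR]
    linarith
  have hmost := h N (mergedFun hs0 hm0 S) hclose
  unfold MostlyClose at hmost
  have hzero : ∑ f ∈ Finset.univ.filter (fun f => ∃ π, dist f (permute (plain N) π) < 1 / 10),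
      (mergedFun hs0 hm0 S).prob f = 0 := by
    classical
    apply Finset.sum_eq_zero
    intro f hf'
    rw [Finset.mem_filter] at hf'
    obtain ⟨_, π, hπ⟩ := hf'
    show Pr (fun μ : Fin s → Fin m => pl hs0 (fun k => S (μ k)) = f) = 0
    apply Pr_false
    intro μ hμ
    rw [← hμ, hf, permute_pl] at hπ
    have hB : (1 - 1 / (s : ℝ)) / LL s = 1 / LL s - 1 / (s * LL s) := by
      have : (0 : ℝ) < LL s := by exact_mod_cast LL_pos hs0
      field_simp
    have h8 : (8 : ℝ) ≤ s := by
      have : 8 ≤ s := by omega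
      exact_mod_cast this
    have h1s : 1 / (s : ℝ) ≤ 1 / 8 := one_div_le_one_div_of_le (by norm_num) h8
    have h3 := merged_far hs0 S μ (fun k => π (Fin.castLE hle k)) (π.injective.comp hJi)
      (by omega) (B := (1 - 1 / (s : ℝ)) / LL s) (by
        apply div_nonneg (by linarith) (Nat.cast_nonneg _))
      (by
        intro j hj
        have h7 := hg.2 (N - 2) (by omega) j hj
        rw [abs_le] at h7
        rw [hB]
        linarith [h7.1]) hms
    have h4 : (1 : ℝ) / 10 ≤ ((s : ℝ) - m) * MM s * ((1 - 1 / (s : ℝ)) / LL s / 2) := by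
      have e : ((s : ℝ) - m) * MM s * ((1 - 1 / (s : ℝ)) / LL s / 2) =
          (1 - m / s) * ((1 - 1 / s) / 2) := by
        have e2 : ((LL s : ℕ) : ℝ) = s * MM s := by unfold LL; push_cast; ring
        rw [e2]
        field_simp
      rw [e]
      have h5 : (m : ℝ) / s ≤ 1 / 4 := by
        rw [div_le_div_iff₀ hsR (by norm_num)]
        have : m * 4 ≤ 1 * s := by omega
        exact_mod_cast this
      nlinarith
    linarith
  rw [hzero] at hmost
  norm_num at hmost

theorem plain_close : Filter.Tendsto (fun n => dist (fam n) (plain n)) Filter.atTop (nhds 0) := by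
  rw [Metric.tendsto_atTop]
  intro ε hε
  obtain ⟨N, hN⟩ := sN_large (1 + ⌈2 / ε⌉₊ + 1)
  refine ⟨N, fun n hn => ?_⟩
  have h1 := hN n hn
  have hs0 : 0 < sN n := by omega
  have hg := sN_good n
  obtain ⟨hle, hLn⟩ := hg.le hs0
  have hf : fam n = hid hs0 (Fin.castLE hle) := by
    unfold fam
    rw [dif_pos ⟨hs0, hle⟩]
  have hf' : plain n = pl hs0 (Fin.castLE hle) := by
    unfold plain
    rw [dif_pos ⟨hs0, hle⟩]
  have hsR : (0 : ℝ) < sN n := by exact_mod_cast hs0
  have hMR : (0 : ℝ) < MM (sN n) := by exact_mod_cast MM_pos (sN n)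
  have hLR : (0 : ℝ) < LL (sN n) := by exact_mod_cast LL_pos hs0
  have h2 := dist_hid_pl hs0 (Fin.castLE hle) (2 / LL (sN n)) (by
    intro j hj
    have h7 := hg.2 n (by omega) j hj
    rw [abs_le] at h7
    have h3 : 1 / ((sN n : ℝ) * LL (sN n)) ≤ 1 / LL (sN n) := by
      apply one_div_le_one_div_of_le hLR
      have : (1 : ℝ) ≤ sN n := by exact_mod_cast hs0
      nlinarith
    have : (2 : ℝ) / LL (sN n) = 1 / LL (sN n) + 1 / LL (sN n) := by ring
    linarith [h7.2])
  rw [← hf, ← hf'] at h2
  have e : (MM (sN n) : ℝ) * (2 / LL (sN n)) = 2 / sN n := by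
    have e2 : ((LL (sN n) : ℕ) : ℝ) = sN n * MM (sN n) := by unfold LL; push_cast; ring
    rw [e2]
    field_simp
  rw [e] at h2
  rw [Real.dist_eq, sub_zero, abs_of_nonneg (dist_nonneg _ _)]
  refine lt_of_le_of_lt h2 ?_
  rw [div_lt_iff₀ hsR]
  have h3 : 2 / ε < sN n := by
    refine lt_of_le_of_lt (Nat.le_ceil _) ?_
    have : ⌈2 / ε⌉₊ < sN n := by omega
    exact_mod_cast this
  rw [div_lt_iff₀ hε] at h3
  linarith

end Pool.Agent.MP4d28ec
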