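import Pool.Agent.Lib.MP_4d28ec_h44.Sound3
import Pool.Agent.Lib.MP_4d28ec_h44.Amp
import Pool.Agent.Lib.MP_4d28ec_h44.Low

/-!
The family, the way of reading the long code from the unknown function, and the base test.
-/

open Finset

namespace Pool.Agent.MP4d28ec

open Pool.Agent.H44IT

/-- The number of functions on the cube of dimension `s`. -/
def MM (s : ℕ) : ℕ := Fintype.card (Fun s)

/-- The modulus for the weight. -/
def LL (s : ℕ) : ℕ := s * MM s

lemma MM_pos (s : ℕ) : 0 < MM s := Fintype.card_pos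

lemma LL_pos {s : ℕ} (hs : 0 < s) : 0 < LL s := Nat.mul_pos hs (MM_pos s)

/-- A numbering of the functions on the cube of dimension `s`. -/
noncomputable def enc (s : ℕ) : Fun s ≃ Fin (MM s) := Fintype.equivFin _

/-- The index of the hidden coordinate used at a point of given weight. -/
def ixw {s : ℕ} (hs : 0 < s) (w : ℕ) : Fin s := ⟨(w % LL s) % s, Nat.mod_lt _ hs⟩

/-- The function with hidden coordinates `S`. -/
noncomputable def hid {n s : ℕ} (hs : 0 < s) (S : Fin s → Fin n) : Cube n → Bool := fun x =>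
  if h : wt x % LL s < MM s then (enc s).symm ⟨wt x % LL s, h⟩ (fun k => x (S k))
  else x (S (ixw hs (wt x)))

/-- The number of ones outside the range of `R`. -/
def outWt {n L : ℕ} (R : Fin L ↪ Fin n) (x : Cube n) : ℕ :=
  (Finset.univ.filter fun i => (∀ a, R a ≠ i) ∧ x i = true).card

/-- The number of ones to be placed. -/
def need {n L : ℕ} (R : Fin L ↪ Fin n) (j : ℕ) (x : Cube n) : ℕ :=
  (j + (L - outWt R x % L)) % L

/-- The point that agrees with `x` outside the range of `R` and whose weight is `j` modulo `L`. -/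
def pat {n L : ℕ} (R : Fin L ↪ Fin n) (j : ℕ) (x : Cube n) : Cube n := fun i =>
  decide ((∃ a : Fin L, R a = i ∧ (a : ℕ) < need R j x) ∨ ((∀ a, R a ≠ i) ∧ x i = true))

lemma pat_out {n L : ℕ} (R : Fin L ↪ Fin n) (j : ℕ) (x : Cube n) {i : Fin n} (hi : ∀ a, R a ≠ i) :
    pat R j x i = x i := by
  unfold pat
  have h1 : ¬ ∃ a : Fin L, R a = i ∧ (a : ℕ) < need R j x := by
    rintro ⟨a, ha, _⟩
    exact hi a ha
  cases hx : x i
  · simp [hi]
  · simp [hi]

lemma wt_pat {n L : ℕ} (hL : 0 < L) (R : Fin L ↪ Fin n) {j : ℕ} (hj : j < L) (x : Cube n) :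
    wt (pat R j x) % L = j := by
  classical
  have ht : need R j x < L := Nat.mod_lt _ hL
  have h1 : wt (pat R j x) = need R j x + outWt R x := by
    unfold wt outWt
    have h2 : (Finset.univ.filter fun i => pat R j x i = true) =
        ((Finset.univ.filter fun a : Fin L => (a : ℕ) < need R j x).map R) ∪
          (Finset.univ.filter fun i => (∀ a, R a ≠ i) ∧ x i = true) := by
      ext i
      simp only [pat, Finset.mem_filter, Finset.mem_univ, true_and, decide_eq_true_eq,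
        Finset.mem_union, Finset.mem_map]
      constructor
      · rintro (⟨a, ha, hlt⟩ | h)
        · exact Or.inl ⟨a, hlt, ha⟩
        · exact Or.inr h
      · rintro (⟨a, hlt, ha⟩ | h)
        · exact Or.inl ⟨a, ha, hlt⟩
        · exact Or.inr h
    rw [h2, Finset.card_union_of_disjoint, Finset.card_map]
    · congr 1
      rw [Fin.card_filter_val_lt]
      omega
    · rw [Finset.disjoint_left]
      intro i hi hi'
      rw [Finset.mem_map] at hi
      obtain ⟨a, _, ha⟩ := hi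
      rw [Finset.mem_filter] at hi'
      exact hi'.2.1 a ha
  rw [h1]
  unfold need
  rw [Nat.mod_add_mod]
  set w := outWt R x with hw
  have h3 : w % L ≤ L := (Nat.mod_lt _ hL).le
  have h4 : j + (L - w % L) + w = j + L * (w / L + 1) := by
    have := Nat.div_add_mod w L
    rw [mul_add, mul_one]
    omega
  rw [h4, Nat.add_mul_mod_self_left, Nat.mod_eq_of_lt hj]

/-- The reading of the long code from `f`. -/
noncomputable def reader {n s : ℕ} (R : Fin (LL s) ↪ Fin n) (f : Cube n → Bool) :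
    Fun s → Cube n → Bool := fun φ x => f (pat R (enc s φ) x)

lemma enc_lt {s : ℕ} (hs : 0 < s) (φ : Fun s) : (enc s φ : ℕ) < LL s := by
  have h1 := (enc s φ).isLt
  have h2 : MM s ≤ LL s := by
    unfold LL
    exact Nat.le_mul_of_pos_left _ hs
  omega

lemma reader_hid {n s : ℕ} (hs : 0 < s) (S : Fin s → Fin n) (R : Fin (LL s) ↪ Fin n)
    (hRS : ∀ a k, R a ≠ S k) (φ : Fun s) (x : Cube n) :
    reader R (hid hs S) φ x = φ (fun k => x (S k)) := by
  unfold reader hid
  have h1 := wt_pat (LL_pos hs) R (enc_lt hs φ) x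
  have h2 : wt (pat R (enc s φ) x) % LL s < MM s := by
    rw [h1]
    exact (enc s φ).isLt
  rw [dif_pos h2]
  have h3 : (⟨wt (pat R (enc s φ) x) % LL s, h2⟩ : Fin (MM s)) = enc s φ := Fin.ext h1
  rw [h3, Equiv.symm_apply_apply]
  congr 1
  funext k
  exact pat_out R _ x (fun a => hRS a k)

/-! ### the seeds and the base test -/

abbrev S1 (n s : ℕ) : Type := Cube n × (Fun s × Fun s)
abbrev S2 (n s : ℕ) : Type := Cube n × ((Fun s × Fun s) × Fun s)
abbrev S3 (n s : ℕ) : Type := Cube n × Fun s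
abbrev S4 (n s : ℕ) : Type := ((Cube n × Cube n) × (Fin s → Bool)) × Fun s
abbrev S5 (n s : ℕ) : Type := (((Cube n × Cube n) × Cube n) × (Fin s → ZMod 3)) × Fun s
abbrev S6 (n s : ℕ) : Type := ((Cube n × (Fin n → Fin s)) × (Fin s → Bool)) × Fun s

/-- The randomness of the subtests. -/
abbrev Seed (n s : ℕ) : Type :=
  S1 n s × (S2 n s × (S3 n s × (S4 n s × (S5 n s × (S6 n s × S3 n s)))))

instance fintypeS1 (n s : ℕ) : Fintype (S1 n s) := inferInstance
instance fintypeS2 (n s : ℕ) : Fintype (S2 n s) := inferInstance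
instance fintypeS3 (n s : ℕ) : Fintype (S3 n s) := inferInstance
instance fintypeS4 (n s : ℕ) : Fintype (S4 n s) := inferInstance
instance fintypeS5 (n s : ℕ) : Fintype (S5 n s) := inferInstance
instance fintypeS6 (n s : ℕ) : Fintype (S6 n s) := inferInstance
instance fintypeSeed (n s : ℕ) : Fintype (Seed n s) := inferInstance

/-- The part of the cube where the function reads one coordinate. -/
def actw (s : ℕ) {n : ℕ} (x : Cube n) : Prop := MM s ≤ wt x % LL s

/-- The one-sided subtests. -/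
def one {n s : ℕ} (hs : 0 < s) (R : Fin (LL s) ↪ Fin n) (f : Cube n → Bool) (y : Seed n s)
    (i : Fin 6) : Prop :=
  (i = 0 → T1 (reader R f) y.1) ∧
  (i = 1 → T2 (reader R f) y.2.1) ∧
  (i = 2 → T3 (reader R f) y.2.2.1) ∧
  (i = 3 → T4 (reader R f) y.2.2.2.1) ∧
  (i = 4 → T5 (reader R f) y.2.2.2.2.1) ∧
  (i = 5 → T7 f (actw s) (fun x => ixw hs (wt x)) (reader R f) y.2.2.2.2.2.2)

/-- The base test. -/
def base {n s K : ℕ} (hs : 0 < s) (f : Cube n → Bool)
    (y : (Fin (LL s) ↪ Fin n) × (Option (Fin 6 × Fin K) × Seed n s)) : Prop :=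
  match y.2.1 with
  | none => T6 ⟨0, hs⟩ (reader y.1 f) y.2.2.2.2.2.2.2.1
  | some (i, _) => one hs y.1 f y.2.2 i

lemma DependsOn.pair {n q q' : ℕ} {β γ δ : Type*} {T : (Cube n → Bool) → β}
    {T' : (Cube n → Bool) → γ} (h : DependsOn q T) (h' : DependsOn q' T') (c : β → γ → δ) :
    DependsOn (q + q') (fun f => c (T f) (T' f)) := by
  classical
  obtain ⟨Q, h1, h2⟩ := h
  obtain ⟨Q', h1', h2'⟩ := h'
  refine ⟨Q ∪ Q', (Finset.card_union_le _ _).trans (by omega), ?_⟩
  intro f f' hf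
  have e1 := h2 f f' (fun x hx => hf x (Finset.mem_union_left _ hx))
  have e2 := h2' f f' (fun x hx => hf x (Finset.mem_union_right _ hx))
  show c (T f) (T' f) = c (T f') (T' f')
  rw [e1, e2]

lemma DependsOn.value {n : ℕ} (x : Cube n) : DependsOn 1 (fun f : Cube n → Bool => f x) :=
  ⟨{x}, by simp, fun f f' hf => hf x (Finset.mem_singleton_self x)⟩

lemma DependsOn.const {n : ℕ} {β : Type*} (b : β) : DependsOn 0 (fun _ : Cube n → Bool => b) :=
  ⟨∅, by simp, fun _ _ _ => rfl⟩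

lemma dep_reader {n s : ℕ} (R : Fin (LL s) ↪ Fin n) (φ : Fun s) (x : Cube n) :
    DependsOn 1 (fun f : Cube n → Bool => reader R f φ x) := DependsOn.value _

lemma dep_rd {n s : ℕ} (R : Fin (LL s) ↪ Fin n) (φ : Fun s) (x : Cube n) (χ : Fun s) :
    DependsOn 2 (fun f : Cube n → Bool => rd (reader R f) φ x χ) :=
  (dep_reader R (φ + χ) x).pair (dep_reader R χ x) (fun a b => a + b)

lemma dep_rd3 {n s : ℕ} (R : Fin (LL s) ↪ Fin n) (r : Fin s → ZMod 3) (x : Cube n) (χ : Fun s) :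
    DependsOn 4 (fun f : Cube n → Bool => rd3 (reader R f) r x χ) :=
  (dep_rd R (ind r 1) x χ).pair (dep_rd R (ind r 2) x χ) (fun a b => c3 a + 2 * c3 b)

lemma dep_T1 {n s : ℕ} (R : Fin (LL s) ↪ Fin n) (p : S1 n s) :
    DependsOn 16 (fun f : Cube n → Bool => T1 (reader R f) p) :=
  ((dep_reader R (p.2.1 + p.2.2) p.1).pair ((dep_reader R p.2.1 p.1).pair (dep_reader R p.2.2 p.1)
    (fun a b => a + b)) (fun a b => a = b)).mono (by norm_num)

lemma dep_T2 {n s : ℕ} (R : Fin (LL s) ↪ Fin n) (p : S2 n s) :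
    DependsOn 16 (fun f : Cube n → Bool => T2 (reader R f) p) :=
  (((dep_reader R (p.2.1.1 * p.2.1.2 + p.2.2) p.1).pair (dep_reader R p.2.2 p.1)
    (fun a b => a + b)).pair ((dep_reader R p.2.1.1 p.1).pair (dep_reader R p.2.1.2 p.1)
    (fun a b => a * b)) (fun a b => a = b)).mono (by norm_num)

lemma dep_T3 {n s : ℕ} (R : Fin (LL s) ↪ Fin n) (p : S3 n s) :
    DependsOn 16 (fun f : Cube n → Bool => T3 (reader R f) p) :=
  ((dep_reader R (1 + p.2) p.1).pair (dep_reader R p.2 p.1) (fun a b => a + b = 1)).mono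
    (by norm_num)

lemma dep_T4 {n s : ℕ} (R : Fin (LL s) ↪ Fin n) (p : S4 n s) :
    DependsOn 16 (fun f : Cube n → Bool => T4 (reader R f) p) :=
  ((dep_rd R (hash2 p.1.2) (p.1.1.1 + p.1.1.2) p.2).pair
    ((dep_rd R (hash2 p.1.2) p.1.1.1 p.2).pair (dep_rd R (hash2 p.1.2) p.1.1.2 p.2)
      (fun a b => a + b)) (fun a b => a = b)).mono (by norm_num)

lemma dep_T5 {n s : ℕ} (R : Fin (LL s) ↪ Fin n) (p : S5 n s) :
    DependsOn 16 (fun f : Cube n → Bool => T5 (reader R f) p) :=
  ((((dep_rd3 R p.1.2 p.1.1.1.1 p.2).pair (dep_rd3 R p.1.2 p.1.1.1.2 p.2) (fun a b => a + b)).pair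
    ((dep_rd3 R p.1.2 (mix p.1.1.2 p.1.1.1.1 p.1.1.1.2) p.2).pair
      (dep_rd3 R p.1.2 (mix p.1.1.2 p.1.1.1.2 p.1.1.1.1) p.2) (fun a b => a + b))
    (fun a b => a = b))).mono (by norm_num)

lemma dep_T6 {n s : ℕ} (o : Fin s) (R : Fin (LL s) ↪ Fin n) (p : S6 n s) :
    DependsOn 16 (fun f : Cube n → Bool => T6 o (reader R f) p) :=
  ((dep_rd R (hash2 p.1.2) p.1.1.1 p.2).pair
    (dep_rd R (hash2 p.1.2) (p.1.1.1 + noise o p.1.1.2) p.2) (fun a b => a ≠ b)).mono
    (by norm_num)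

lemma dep_T7 {n s : ℕ} (R : Fin (LL s) ↪ Fin n) (act : Cube n → Prop) (ix : Cube n → Fin s)
    (p : S3 n s) :
    DependsOn 16 (fun f : Cube n → Bool => T7 f act ix (reader R f) p) :=
  ((DependsOn.value p.1).pair (dep_rd R (fun z => z (ix p.1)) p.1 p.2)
    (fun a b => act p.1 → a = b)).mono (by norm_num)

lemma dep_one {n s : ℕ} (hs : 0 < s) (R : Fin (LL s) ↪ Fin n) (y : Seed n s) (i : Fin 6) :
    DependsOn 16 (fun f : Cube n → Bool => one hs R f y i) := by
  unfold one
  fin_cases i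
  · simpa using dep_T1 R y.1
  · simpa using dep_T2 R y.2.1
  · simpa using dep_T3 R y.2.2.1
  · simpa using dep_T4 R y.2.2.2.1
  · simpa using dep_T5 R y.2.2.2.2.1
  · simpa using dep_T7 R (actw s) (fun x => ixw hs (wt x)) y.2.2.2.2.2.2

lemma dep_base {n s K : ℕ} (hs : 0 < s)
    (y : (Fin (LL s) ↪ Fin n) × (Option (Fin 6 × Fin K) × Seed n s)) :
    DependsOn 16 (fun f : Cube n → Bool => base hs f y) := by
  obtain ⟨R, o, y⟩ := y
  unfold base
  match o with
  | none => exact dep_T6 ⟨0, hs⟩ R y.2.2.2.2.2.1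
  | some (i, _) => exact dep_one hs R y i

end Pool.Agent.MP4d28ec
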