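import Pool.Agent.Lib.MP_4d28ec_h44.Round

/-!
Efficient testability of the isomorphism to a family of functions is equivalent to a rigidity
property of the statistics of finitely many values.
-/

open Finset

namespace Pool.Agent.MP4d28ec

open Pool.Agent.H44IT

/-- For a uniformly random permutation `π` of the coordinates, `freq f x b` is the probability that
`f ∘ π` takes the values `b_1, …, b_q` at the points `x_1, …, x_q`. -/
noncomputable def freq {n q : ℕ} (f : Cube n → Bool) (x : Fin q → Cube n) (b : Fin q → Bool) : ℝ :=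
  ((Finset.univ.filter fun π : Equiv.Perm (Fin n) => ∀ i, permute f π (x i) = b i).card : ℝ) /
    (n.factorial : ℝ)

/-- A random Boolean function on the cube: a probability distribution on the finite set of all
functions. -/
structure RandFun (n : ℕ) where
  /-- The probability of a function. -/
  prob : (Cube n → Bool) → ℝ
  prob_nonneg : ∀ f, 0 ≤ prob f
  prob_sum : ∑ f, prob f = 1

/-- The same probability as `freq` for a random function with independently and uniformly
relabelled coordinates. -/
noncomputable def RandFun.freq {n q : ℕ} (P : RandFun n) (x : Fin q → Cube n) (b : Fin q → Bool) :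
    ℝ :=
  ∑ f, P.prob f * Pool.Agent.MP4d28ec.freq f x b

/-- The values at any `q` points of the relabelled random function `P` and of the relabelled
function `g` have nearly the same law. -/
def StatClose {n : ℕ} (q : ℕ) (δ : ℝ) (P : RandFun n) (g : Cube n → Bool) : Prop :=
  ∀ x : Fin q → Cube n, ∑ b : Fin q → Bool, |P.freq x b - freq g x b| ≤ δ

open Classical in
/-- With probability at least `1 - ε` the random function is `ε`-close to an isomorphic copy
of `g`. -/
def MostlyClose {n : ℕ} (ε : ℝ) (P : RandFun n) (g : Cube n → Bool) : Prop :=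
  1 - ε ≤ ∑ f ∈ Finset.univ.filter (fun f => ∃ π, dist f (permute g π) < ε), P.prob f

/-- The statistics of finitely many values determine the isomorphism class up to a small error. -/
def Rigid (g : (n : ℕ) → Cube n → Bool) : Prop :=
  ∀ ε : ℝ, 0 < ε → ∃ (q : ℕ) (δ : ℝ), 0 < δ ∧ ∀ (n : ℕ) (P : RandFun n),
    StatClose q δ P (g n) → MostlyClose ε P (g n)

/-! ### test expectations -/

lemma freq_eq_Pr {n q : ℕ} (f : Cube n → Bool) (x : Fin q → Cube n) (b : Fin q → Bool) :
    freq f x b = Pr (fun π : Equiv.Perm (Fin n) => ∀ i, permute f π (x i) = b i) := by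
  classical
  unfold freq
  rw [Pr_eq_card, Fintype.card_perm, Fintype.card_fin]

lemma freq_nonneg {n q : ℕ} (f : Cube n → Bool) (x : Fin q → Cube n) (b : Fin q → Bool) :
    0 ≤ freq f x b := by
  rw [freq_eq_Pr]
  exact Pr_nonneg _

/-- The acceptance probability of a nonadaptive test. -/
noncomputable def acc {n q : ℕ} (f : Cube n → Bool) (x : Fin q → Cube n)
    (S : (Fin q → Bool) → Bool) : ℝ :=
  Pr (fun π : Equiv.Perm (Fin n) => S (fun i => permute f π (x i)) = true)

lemma acc_eq {n q : ℕ} (f : Cube n → Bool) (x : Fin q → Cube n) (S : (Fin q → Bool) → Bool) :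
    acc f x S = ∑ b, (if S b = true then (1 : ℝ) else 0) * freq f x b := by
  classical
  unfold acc
  simp only [freq_eq_Pr]
  rw [Pr_def]
  have h1 : ∀ b, (if S b = true then (1 : ℝ) else 0) *
      Pr (fun π : Equiv.Perm (Fin n) => ∀ i, permute f π (x i) = b i) =
      Ex (fun π : Equiv.Perm (Fin n) => (if S b = true then (1 : ℝ) else 0) *
        (if ∀ i, permute f π (x i) = b i then (1 : ℝ) else 0)) := by
    intro b
    rw [Pr_def, Ex_const_mul]
  simp only [h1]
  rw [← Ex_sum]
  apply Ex_congr
  intro π
  rw [Finset.sum_eq_single (fun i => permute f π (x i))]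
  · simp
  · intro b _ hb
    have : ¬ ∀ i, permute f π (x i) = b i := by
      intro h
      exact hb (funext fun i => (h i).symm)
    rw [if_neg this, mul_zero]
  · intro h
    exact absurd (Finset.mem_univ _) h

lemma sum_freq {n q : ℕ} (f : Cube n → Bool) (x : Fin q → Cube n) : ∑ b, freq f x b = 1 := by
  have h1 := acc_eq f x (fun _ => true)
  have h2 : acc f x (fun _ => true) = 1 := by
    unfold acc
    exact Pr_true (fun _ => rfl)
  rw [h2] at h1
  simpa using h1.symm

lemma acc_nonneg {n q : ℕ} (f : Cube n → Bool) (x : Fin q → Cube n)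
    (S : (Fin q → Bool) → Bool) : 0 ≤ acc f x S := Pr_nonneg _

lemma acc_le_one {n q : ℕ} (f : Cube n → Bool) (x : Fin q → Cube n)
    (S : (Fin q → Bool) → Bool) : acc f x S ≤ 1 := Pr_le_one _

lemma permute_permute {n : ℕ} (f : Cube n → Bool) (π τ : Equiv.Perm (Fin n)) :
    permute (permute f π) τ = permute f (τ * π) := by
  funext x
  rfl

lemma permute_one {n : ℕ} (f : Cube n → Bool) : permute f 1 = f := by
  funext x
  rfl

lemma acc_permute {n q : ℕ} (f : Cube n → Bool) (τ : Equiv.Perm (Fin n)) (x : Fin q → Cube n)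
    (S : (Fin q → Bool) → Bool) : acc (permute f τ) x S = acc f x S := by
  unfold acc
  rw [← Pr_equiv (Equiv.mulRight τ)
    (fun π : Equiv.Perm (Fin n) => S (fun i => permute f π (x i)) = true)]
  apply Pr_congr
  intro π
  simp only [permute_permute, Equiv.coe_mulRight]

lemma RandFun.acc_eq {n q : ℕ} (P : RandFun n) (x : Fin q → Cube n) (S : (Fin q → Bool) → Bool) :
    ∑ f, P.prob f * acc f x S = ∑ b, (if S b = true then (1 : ℝ) else 0) * P.freq x b := by
  simp only [Pool.Agent.MP4d28ec.acc_eq, RandFun.freq, Finset.mul_sum]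
  rw [Finset.sum_comm]
  apply Finset.sum_congr rfl
  intro b _
  apply Finset.sum_congr rfl
  intro f _
  ring

lemma RandFun.sum_freq {n q : ℕ} (P : RandFun n) (x : Fin q → Cube n) : ∑ b, P.freq x b = 1 := by
  simp only [RandFun.freq]
  rw [Finset.sum_comm]
  simp only [← Finset.mul_sum, Pool.Agent.MP4d28ec.sum_freq, mul_one]
  exact P.prob_sum

lemma acc_diff_le {n q : ℕ} {δ : ℝ} (P : RandFun n) (g : Cube n → Bool)
    (x : Fin q → Cube n) (h : ∑ b : Fin q → Bool, |P.freq x b - freq g x b| ≤ δ)
    (S : (Fin q → Bool) → Bool) :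
    acc g x S - δ ≤ ∑ f, P.prob f * acc f x S := by
  rw [RandFun.acc_eq, acc_eq]
  have h1 : ∑ b, (if S b = true then (1 : ℝ) else 0) * freq g x b -
      ∑ b, (if S b = true then (1 : ℝ) else 0) * P.freq x b ≤
      ∑ b : Fin q → Bool, |P.freq x b - freq g x b| := by
    rw [← Finset.sum_sub_distrib]
    apply Finset.sum_le_sum
    intro b _
    rw [← mul_sub]
    have h2 := neg_abs_le (P.freq x b - freq g x b)
    have h3 := abs_nonneg (P.freq x b - freq g x b)
    split_ifs
    · linarith
    · linarith
  linarith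

/-- If the statistics differ then some test tells the two apart. -/
lemma exists_test {n q : ℕ} {δ : ℝ} (P : RandFun n) (g : Cube n → Bool)
    (x : Fin q → Cube n) (h : δ < ∑ b : Fin q → Bool, |P.freq x b - freq g x b|) :
    ∃ S : (Fin q → Bool) → Bool, δ / 2 ≤ acc g x S - ∑ f, P.prob f * acc f x S := by
  classical
  refine ⟨fun b => decide (P.freq x b < freq g x b), ?_⟩
  rw [RandFun.acc_eq, acc_eq, ← Finset.sum_sub_distrib]
  have h1 : ∀ b : Fin q → Bool, (if decide (P.freq x b < freq g x b) = true then (1 : ℝ) else 0) *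
      freq g x b - (if decide (P.freq x b < freq g x b) = true then (1 : ℝ) else 0) * P.freq x b =
      |P.freq x b - freq g x b| / 2 + (freq g x b - P.freq x b) / 2 := by
    intro b
    by_cases hb : P.freq x b < freq g x b
    · rw [if_pos (by simpa using hb), abs_of_neg (by linarith)]
      ring
    · rw [if_neg (by simpa using hb), abs_of_nonneg (by linarith)]
      ring
  rw [Finset.sum_congr rfl fun b _ => h1 b, Finset.sum_add_distrib, ← Finset.sum_div,
    ← Finset.sum_div, Finset.sum_sub_distrib, sum_freq, RandFun.sum_freq]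
  linarith

/-! ### testable implies rigid -/

lemma probAnswer_add {n q : ℕ} (A : RandAlg n q) (f : Cube n → Bool) :
    A.probAnswer f true + A.probAnswer f false = 1 := by
  unfold RandAlg.probAnswer
  rw [← A.prob_sum, ← Finset.sum_filter_add_sum_filter_not Finset.univ
    (fun i => (A.tree i).run f = true)]
  congr 1
  apply Finset.sum_congr _ (fun _ _ => rfl)
  ext i
  simp

lemma IsTester.size_pos {n q : ℕ} (A : RandAlg n q) : Nonempty (Fin A.size) := by
  by_contra h
  rw [not_nonempty_iff] at h
  have := A.prob_sum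
  rw [Finset.univ_eq_empty, Finset.sum_empty] at this
  norm_num at this

/-- Error reduction. -/
lemma exists_family {n q m : ℕ} {ε η : ℝ} {g : Cube n → Bool} (A : RandAlg n q)
    (hA : IsTester ε g A) (hη : 0 < η) (hm : 16 / η ≤ m) :
    ∃ (J : Type) (_ : Fintype J) (_ : Nonempty J) (U : J → (Cube n → Bool) → Bool),
      (∀ j, DependsOn (m * (2 ^ q - 1)) (U j)) ∧
      (∀ f, (∃ π, f = permute g π) → 1 - η ≤ Pr (fun j => U j f = true)) ∧
      (∀ f, (∀ π, ε ≤ dist f (permute g π)) → Pr (fun j => U j f = true) ≤ η) := by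
  classical
  have hne := IsTester.size_pos A
  obtain ⟨I, _, _, c, hc⟩ := exists_uniform A.prob A.prob_nonneg A.prob_sum
    (η := 1 / 24) (by norm_num)
  have hmR : (0 : ℝ) < m := lt_of_lt_of_le (by positivity) hm
  have hm0 : 0 < m := by exact_mod_cast hmR
  have hacc : ∀ f : Cube n → Bool,
      |Pr (fun i : I => (A.tree (c i)).run f = true) - A.probAnswer f true| ≤ 1 / 24 := by
    intro f
    have h1 := hc (fun i => if (A.tree i).run f = true then 1 else 0)
      (fun i => by split_ifs <;> norm_num) (fun i => by split_ifs <;> norm_num)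
    rw [Pr_def]
    have h2 : A.probAnswer f true =
        ∑ i, A.prob i * (if (A.tree i).run f = true then (1 : ℝ) else 0) := by
      unfold RandAlg.probAnswer
      rw [Finset.sum_filter]
      apply Finset.sum_congr rfl
      intro i _
      split_ifs <;> ring
    rw [h2]
    exact h1
  set N : (Fin m → I) → (Cube n → Bool) → ℕ := fun s f =>
    (Finset.univ.filter fun j => (A.tree (c (s j))).run f = true).card with hN
  refine ⟨Fin m → I, inferInstance, inferInstance, fun s f => decide ((m : ℝ) / 2 ≤ N s f),
    ?_, ?_, ?_⟩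
  · intro s
    have h1 : DependsOn (m * (2 ^ q - 1)) (fun f (j : Fin m) => (A.tree (c (s j))).run f) := by
      have := DependsOn.pi (T := fun j : Fin m => fun f => (A.tree (c (s j))).run f)
        (q := 2 ^ q - 1) (fun j => ((A.tree (c (s j))).dependsOn).mono (by
          have h2 : 2 ^ (A.tree (c (s j))).queries ≤ 2 ^ q :=
            Nat.pow_le_pow_right (by norm_num) (A.queries_le _)
          omega))
      rwa [Fintype.card_fin] at this
    exact h1.comp (fun v : Fin m → Bool =>
      decide ((m : ℝ) / 2 ≤ ((Finset.univ.filter fun j => v j = true).card : ℕ)))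
  · intro f hf
    have h1 := hA.1 f hf
    have h2 := hacc f
    rw [abs_le] at h2
    have h3 := chebyshev' (fun i : I => (A.tree (c i)).run f = true) m hm0 (δ := 1 / 4)
      (by norm_num)
    have h4 : Pr (fun s => ¬ (decide ((m : ℝ) / 2 ≤ N s f) = true)) ≤ η := by
      refine (Pr_mono ?_).trans (h3.trans ?_)
      · intro s hs
        simp only [decide_eq_true_eq, not_le] at hs
        rw [abs_sub_comm]
        refine le_trans ?_ (le_abs_self _)
        have h5 : ((N s f : ℕ) : ℝ) =
          ((Finset.univ.filter fun j => (A.tree (c (s j))).run f = true).card : ℝ) := rfl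
        rw [← h5]
        have h6 : (5 / 8 : ℝ) ≤ Pr (fun i : I => (A.tree (c i)).run f = true) := by linarith
        have h7 := mul_le_mul_of_nonneg_left h6 hmR.le
        linarith
      · rw [div_le_iff₀ (by positivity)]
        rw [div_le_iff₀ hη] at hm
        linarith
    rw [Pr_not] at h4
    linarith
  · intro f hf
    have h1 := hA.2 f hf
    have h1' := probAnswer_add A f
    have h2 := hacc f
    rw [abs_le] at h2
    have h3 := chebyshev' (fun i : I => (A.tree (c i)).run f = true) m hm0 (δ := 1 / 4)
      (by norm_num)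
    refine (Pr_mono ?_).trans (h3.trans ?_)
    · intro s hs
      simp only [decide_eq_true_eq] at hs
      refine le_trans ?_ (le_abs_self _)
      have h5 : ((N s f : ℕ) : ℝ) =
        ((Finset.univ.filter fun j => (A.tree (c (s j))).run f = true).card : ℝ) := rfl
      rw [← h5]
      have h6 : Pr (fun i : I => (A.tree (c i)).run f = true) ≤ (3 / 8 : ℝ) := by linarith
      have h7 := mul_le_mul_of_nonneg_left h6 hmR.le
      linarith
    · rw [div_le_iff₀ (by positivity)]
      rw [div_le_iff₀ hη] at hm
      linarith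

/-- A test that depends on few values is a nonadaptive test. -/
lemma DependsOn.exists_nonadaptive {n Q : ℕ} {U : (Cube n → Bool) → Bool} (h : DependsOn Q U) :
    ∃ (x : Fin Q → Cube n) (S : (Fin Q → Bool) → Bool), ∀ f, U f = S (fun i => f (x i)) := by
  classical
  obtain ⟨D, hD, hU⟩ := h
  obtain ⟨x, hx⟩ : ∃ x : Fin Q → Cube n, ∀ y ∈ D, ∃ i, x i = y := by
    let e := D.equivFin
    refine ⟨fun i => if hi : (i : ℕ) < D.card then (e.symm ⟨i, hi⟩ : Cube n) else fun _ => false, ?_⟩
    intro y hy
    refine ⟨⟨(e ⟨y, hy⟩ : Fin D.card), lt_of_lt_of_le (e ⟨y, hy⟩).isLt hD⟩, ?_⟩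
    simp
  refine ⟨x, fun b => U (fun y => if hy : ∃ i, x i = y then b hy.choose else false), ?_⟩
  intro f
  apply hU
  intro y hy
  have hex := hx y hy
  have h1 : f (x hex.choose) = f y := by rw [hex.choose_spec]
  simp only [dif_pos hex]
  exact h1.symm

/-- A relabelled far function is far. -/
lemma far_permute {n : ℕ} {ε : ℝ} {f g : Cube n → Bool} (hf : ∀ π, ε ≤ dist f (permute g π))
    (τ : Equiv.Perm (Fin n)) : ∀ π, ε ≤ dist (permute f τ) (permute g π) := by
  classical
  intro π
  have h1 := hf (τ⁻¹ * π)
  refine h1.trans (le_of_eq ?_)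
  unfold dist
  congr 1
  have h2 : (Finset.univ.filter fun x => f x ≠ permute g (τ⁻¹ * π) x).card =
      (Finset.univ.filter fun x => permute f τ x ≠ permute g π x).card := by
    apply Finset.card_bij (fun x _ => fun i => x (τ⁻¹ i))
    · intro x hx
      rw [Finset.mem_filter] at hx ⊢
      refine ⟨Finset.mem_univ _, ?_⟩
      have e1 : permute f τ (fun i => x (τ⁻¹ i)) = f x := by
        unfold permute
        simp
      have e2 : permute g π (fun i => x (τ⁻¹ i)) = permute g (τ⁻¹ * π) x := by
        unfold permute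
        simp
      rw [e1, e2]
      exact hx.2
    · intro x _ y _ hxy
      funext i
      have := congrFun hxy (τ i)
      simpa using this
    · intro y hy
      refine ⟨fun i => y (τ i), ?_, ?_⟩
      · rw [Finset.mem_filter] at hy ⊢
        refine ⟨Finset.mem_univ _, ?_⟩
        have e1 : permute f τ y = f (fun i => y (τ i)) := rfl
        have e2 : permute g π y = permute g (τ⁻¹ * π) (fun i => y (τ i)) := by
          unfold permute
          congr 1
          funext i
          exact congrArg y (τ.apply_symm_apply (π i)).symm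
        rw [← e1, ← e2]
        exact hy.2
      · funext i
        exact congrArg y (τ.apply_symm_apply i)
  exact_mod_cast h2

/-- The average acceptance probability of a family of tests. -/
lemma Ex_acc {n Q : ℕ} {J : Type} [Fintype J] (U : J → (Cube n → Bool) → Bool)
    (x : J → Fin Q → Cube n) (S : J → (Fin Q → Bool) → Bool)
    (hS : ∀ j f, U j f = S j (fun i => f (x j i))) (f : Cube n → Bool) :
    Ex (fun j => acc f (x j) (S j)) =
      Ex (fun π : Equiv.Perm (Fin n) => Pr (fun j => U j (permute f π) = true)) := by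
  classical
  unfold acc
  have h1 : ∀ j, Pr (fun π : Equiv.Perm (Fin n) => S j (fun i => permute f π (x j i)) = true) =
      Ex (fun π : Equiv.Perm (Fin n) => if U j (permute f π) = true then (1 : ℝ) else 0) := by
    intro j
    rw [Pr_def]
    apply Ex_congr
    intro π
    rw [hS j (permute f π)]
  simp only [h1]
  rw [Ex_comm]
  apply Ex_congr
  intro π
  rw [Pr_def]

theorem rigid_of_testable {g : (n : ℕ) → Cube n → Bool} (hg : EfficientlyTestable g) :
    Rigid g := by
  classical
  intro ε hε
  obtain ⟨q, hq⟩ := hg ε hε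
  set m : ℕ := ⌈16 / (ε / 4)⌉₊ with hm
  refine ⟨m * (2 ^ q - 1), ε / 4, by positivity, ?_⟩
  intro n P hP
  obtain ⟨A, hA⟩ := hq n
  obtain ⟨J, _, _, U, hU1, hU2, hU3⟩ := exists_family (m := m) A hA (η := ε / 4) (by positivity)
    (Nat.le_ceil _)
  choose x S hS using fun j => (hU1 j).exists_nonadaptive
  have hiso : ∀ π : Equiv.Perm (Fin n), 1 - ε / 4 ≤ Pr (fun j => U j (permute (g n) π) = true) :=
    fun π => hU2 _ ⟨π, rfl⟩
  have hfar : ∀ f : Cube n → Bool, (∀ π, ε ≤ dist f (permute (g n) π)) →
      ∀ τ : Equiv.Perm (Fin n), Pr (fun j => U j (permute f τ) = true) ≤ ε / 4 :=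
    fun f hf τ => hU3 _ (far_permute hf τ)
  have hg1 : 1 - ε / 4 ≤ Ex (fun j => acc (g n) (x j) (S j)) := by
    rw [Ex_acc U x S hS]
    exact le_Ex_of_le hiso
  have hP1 : Ex (fun j => acc (g n) (x j) (S j)) - ε / 4 ≤
      Ex (fun j => ∑ f, P.prob f * acc f (x j) (S j)) := by
    rw [← Ex_const (α := J) (ε / 4), ← Ex_sub]
    apply Ex_mono
    intro j
    exact acc_diff_le P (g n) (x j) (hP (x j)) (S j)
  have hP2 : Ex (fun j => ∑ f, P.prob f * acc f (x j) (S j)) ≤
      ∑ f, P.prob f * (if ∃ π, dist f (permute (g n) π) < ε then 1 else ε / 4) := by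
    rw [Ex_sum]
    apply Finset.sum_le_sum
    intro f _
    rw [Ex_const_mul]
    apply mul_le_mul_of_nonneg_left _ (P.prob_nonneg f)
    rw [Ex_acc U x S hS]
    split_ifs with hf
    · exact Ex_le_of_le fun π => Pr_le_one _
    · push Not at hf
      exact Ex_le_of_le (hfar f hf)
  have hP3 : ∑ f, P.prob f * (if ∃ π, dist f (permute (g n) π) < ε then 1 else ε / 4) ≤
      ∑ f ∈ Finset.univ.filter (fun f => ∃ π, dist f (permute (g n) π) < ε), P.prob f + ε / 4 := by
    rw [Finset.sum_filter]
    have h1 : ∑ f, P.prob f * (ε / 4) = ε / 4 := by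
      rw [← Finset.sum_mul, P.prob_sum, one_mul]
    refine le_trans ?_ (le_of_eq (congrArg₂ (· + ·) rfl h1))
    rw [← Finset.sum_add_distrib]
    apply Finset.sum_le_sum
    intro f _
    have h2 := P.prob_nonneg f
    have h3 : 0 ≤ P.prob f * (ε / 4) := by positivity
    split_ifs
    · linarith
    · linarith
  unfold MostlyClose
  linarith

end Pool.Agent.MP4d28ec
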