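import Pool.Agent.Lib.MP_4d28ec_h44.Amp

/-!
Rounding of real weights to a uniform distribution, a finite minimax theorem, the nonadaptive form
of a decision tree, and a quantitative Chebyshev inequality.
-/

open Finset

namespace Pool.Agent.MP4d28ec

open Pool.Agent.H44IT

lemma exists_uniform {T : Type} [Fintype T] [Nonempty T] (w : T → ℝ) (hw : ∀ t, 0 ≤ w t)
    (hsum : ∑ t, w t = 1) {η : ℝ} (hη : 0 < η) :
    ∃ (I : Type) (_ : Fintype I) (_ : Nonempty I) (c : I → T), ∀ v : T → ℝ,
      (∀ t, 0 ≤ v t) → (∀ t, v t ≤ 1) →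
      |Ex (fun i : I => v (c i)) - ∑ t, w t * v t| ≤ η := by
  classical
  set τ : ℝ := (Fintype.card T : ℝ) with hτ
  have hτ0 : 0 < τ := by rw [hτ]; exact card_pos'
  obtain ⟨N, hN⟩ := exists_nat_gt (τ + τ / η)
  have hτη : 0 < τ / η := by positivity
  have hNτ : τ / η < N - τ := by linarith
  have hNpos : (0 : ℝ) < N := by linarith
  set m : T → ℕ := fun t => ⌊(N : ℝ) * w t⌋₊ with hm
  have hm1 : ∀ t, (m t : ℝ) ≤ N * w t := fun t =>
    Nat.floor_le (mul_nonneg hNpos.le (hw t))
  have hm2 : ∀ t, (N : ℝ) * w t - 1 ≤ m t := fun t => by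
    have := Nat.lt_floor_add_one ((N : ℝ) * w t)
    linarith
  set M : ℝ := ∑ t, (m t : ℝ) with hM
  have hM1 : M ≤ N := by
    calc M ≤ ∑ t, (N : ℝ) * w t := Finset.sum_le_sum fun t _ => hm1 t
      _ = N := by rw [← Finset.mul_sum, hsum, mul_one]
  have hM2 : N - τ ≤ M := by
    calc (N : ℝ) - τ = ∑ t, ((N : ℝ) * w t - 1) := by
          rw [Finset.sum_sub_distrib, ← Finset.mul_sum, hsum, mul_one]
          simp [hτ]
      _ ≤ M := Finset.sum_le_sum fun t _ => hm2 t
  have hM0 : 0 < M := by linarith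
  have hcard : (Fintype.card (Σ t, Fin (m t)) : ℝ) = M := by
    rw [Fintype.card_sigma]
    simp [hM]
  have hne : Nonempty (Σ t, Fin (m t)) := by
    rw [← Fintype.card_pos_iff]
    have : (0 : ℝ) < Fintype.card (Σ t, Fin (m t)) := by rw [hcard]; exact hM0
    exact_mod_cast this
  refine ⟨Σ t, Fin (m t), inferInstance, hne, fun i => i.1, ?_⟩
  intro v hv0 hv1
  have hEx : Ex (fun i : Σ t, Fin (m t) => v i.1) = (∑ t, (m t : ℝ) * v t) / M := by
    unfold Ex
    rw [hcard, Fintype.sum_sigma]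
    congr 1
    apply Finset.sum_congr rfl
    intro t _
    simp
  rw [hEx]
  set X : ℝ := ∑ t, (m t : ℝ) * v t with hX
  set S : ℝ := ∑ t, w t * v t with hS
  have hS0 : 0 ≤ S := Finset.sum_nonneg fun t _ => mul_nonneg (hw t) (hv0 t)
  have hS1 : S ≤ 1 := by
    calc S ≤ ∑ t, w t := Finset.sum_le_sum fun t _ => by
          have := mul_le_mul_of_nonneg_left (hv1 t) (hw t)
          linarith
      _ = 1 := hsum
  have hX0 : 0 ≤ X := Finset.sum_nonneg fun t _ => mul_nonneg (Nat.cast_nonneg _) (hv0 t)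
  have hX1 : X ≤ N * S := by
    rw [hS, Finset.mul_sum]
    apply Finset.sum_le_sum
    intro t _
    have := mul_le_mul_of_nonneg_right (hm1 t) (hv0 t)
    linarith
  have hX2 : N * S - τ ≤ X := by
    have h1 : ∑ t, ((N : ℝ) * (w t * v t) - 1) ≤ X := by
      apply Finset.sum_le_sum
      intro t _
      have h2 := mul_le_mul_of_nonneg_right (hm2 t) (hv0 t)
      have h3 := hv1 t
      linarith
    rw [Finset.sum_sub_distrib, ← Finset.mul_sum] at h1
    simp only [Finset.sum_const, Finset.card_univ, nsmul_eq_mul, mul_one] at h1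
    exact h1
  have hτM : τ ≤ η * M := by
    have h1 : τ / η ≤ M := by linarith
    rw [div_le_iff₀ hη] at h1
    linarith
  rw [abs_le]
  constructor
  · rw [neg_le_sub_iff_le_add, ← sub_le_iff_le_add, le_div_iff₀ hM0]
    nlinarith
  · rw [sub_le_iff_le_add, div_le_iff₀ hM0]
    nlinarith

lemma minimax {T F : Type} [Fintype T] [Fintype F] [Nonempty T] [Nonempty F] (u : T → F → ℝ)
    (c c' : ℝ) (hc : c' < c)
    (h : ∀ p : F → ℝ, (∀ f, 0 ≤ p f) → ∑ f, p f = 1 → ∃ t, c ≤ ∑ f, p f * u t f) :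
    ∃ w : T → ℝ, (∀ t, 0 ≤ w t) ∧ ∑ t, w t = 1 ∧ ∀ f, c' ≤ ∑ t, w t * u t f := by
  classical
  by_contra hcon
  push Not at hcon
  let L : (T → ℝ) →ₗ[ℝ] (F → ℝ) :=
    { toFun := fun w f => ∑ t, w t * u t f
      map_add' := by
        intro a b
        funext f
        simp [add_mul, Finset.sum_add_distrib]
      map_smul' := by
        intro a b
        funext f
        simp [Finset.mul_sum, mul_assoc] }
  set K : Set (F → ℝ) := L '' stdSimplex ℝ T with hK
  set C : Set (F → ℝ) := {v | ∀ f, c' ≤ v f} with hC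
  have hKconv : Convex ℝ K := (convex_stdSimplex ℝ T).linear_image L
  have hKcomp : IsCompact K :=
    (isCompact_stdSimplex ℝ T).image (LinearMap.continuous_of_finiteDimensional L)
  have hCconv : Convex ℝ C := by
    intro a ha b hb x y hx hy hxy
    intro f
    have h1 := ha f
    have h2 := hb f
    simp only [Pi.add_apply, Pi.smul_apply, smul_eq_mul]
    have h3 := mul_le_mul_of_nonneg_left h1 hx
    have h4 := mul_le_mul_of_nonneg_left h2 hy
    have h5 : x * c' + y * c' = c' := by rw [← add_mul, hxy, one_mul]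
    linarith
  have hCclosed : IsClosed C := by
    have : C = ⋂ f, {v : F → ℝ | c' ≤ v f} := by
      ext v
      simp [hC]
    rw [this]
    exact isClosed_iInter fun f => isClosed_le continuous_const (continuous_apply f)
  have hdisj : Disjoint K C := by
    rw [Set.disjoint_left]
    rintro y ⟨w, hw, rfl⟩ hy
    obtain ⟨hw0, hw1⟩ := hw
    obtain ⟨f, hf⟩ := hcon w hw0 hw1
    exact absurd (hy f) (not_le.mpr hf)
  obtain ⟨φ, a, b, hφ1, hab, hφ2⟩ :=
    geometric_hahn_banach_compact_closed hKconv hKcomp hCconv hCclosed hdisj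
  set p : F → ℝ := fun f => φ (Pi.single f 1) with hp
  have hφ : ∀ v : F → ℝ, φ v = ∑ f, p f * v f := by
    intro v
    have h1 := LinearMap.pi_apply_eq_sum_univ (φ : (F → ℝ) →ₗ[ℝ] ℝ) v
    have h2 : φ v = ∑ i, v i • φ (fun j => if i = j then 1 else 0) := h1
    rw [h2]
    apply Finset.sum_congr rfl
    intro i _
    have h3 : (fun j => if i = j then (1 : ℝ) else 0) = Pi.single i 1 := by
      funext j
      by_cases hij : i = j
      · subst hij; simp
      · simp [hij]
    rw [h3, smul_eq_mul, mul_comm]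
  have hp0 : ∀ f, 0 ≤ p f := by
    intro f
    by_contra hneg
    push Not at hneg
    set v0 : F → ℝ := fun _ => c' with hv0
    set t : ℝ := |φ v0 - b| / (- p f) with ht
    have hnp : 0 < - p f := by linarith
    have ht0 : 0 ≤ t := div_nonneg (abs_nonneg _) hnp.le
    have hmem : v0 + t • (Pi.single f 1 : F → ℝ) ∈ C := by
      intro f'
      simp only [Pi.add_apply, Pi.smul_apply, smul_eq_mul, hv0]
      by_cases hf : f' = f
      · subst hf
        rw [Pi.single_eq_same, mul_one]
        linarith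
      · rw [Pi.single_eq_of_ne hf, mul_zero, add_zero]
    have h1 := hφ2 _ hmem
    rw [map_add, map_smul, smul_eq_mul] at h1
    have h2 : t * φ (Pi.single f 1) = - |φ v0 - b| := by
      show t * p f = _
      rw [ht, div_mul_eq_mul_div, div_eq_iff hnp.ne']
      ring
    rw [h2] at h1
    have := le_abs_self (φ v0 - b)
    linarith
  set S : ℝ := ∑ f, p f with hS
  have hS0 : 0 ≤ S := Finset.sum_nonneg fun f _ => hp0 f
  have hconst : (fun _ => c' : F → ℝ) ∈ C := fun f => le_rfl
  have h3 := hφ2 _ hconst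
  rw [hφ] at h3
  rw [← Finset.sum_mul] at h3
  have hSpos : 0 < S := by
    rcases hS0.lt_or_eq with h | h
    · exact h
    · exfalso
      have hz : ∀ f, p f = 0 := by
        intro f
        have := (Finset.sum_eq_zero_iff_of_nonneg (fun f _ => hp0 f)).mp h.symm
        exact this f (Finset.mem_univ f)
      obtain ⟨t⟩ := ‹Nonempty T›
      have hKmem : L (Pi.single t 1) ∈ K := ⟨_, single_mem_stdSimplex ℝ t, rfl⟩
      have h4 := hφ1 _ hKmem
      rw [hφ] at h4
      simp only [hz, zero_mul, Finset.sum_const_zero] at h4 h3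
      linarith
  obtain ⟨t, ht⟩ := h (fun f => p f / S) (fun f => div_nonneg (hp0 f) hS0) (by
    rw [← Finset.sum_div, ← hS, div_self hSpos.ne'])
  have hKmem : L (Pi.single t 1) ∈ K := ⟨_, single_mem_stdSimplex ℝ t, rfl⟩
  have h4 := hφ1 _ hKmem
  rw [hφ] at h4
  have h5 : ∀ f, L (Pi.single t 1) f = u t f := by
    intro f
    show ∑ t', (Pi.single t 1 : T → ℝ) t' * u t' f = u t f
    rw [Finset.sum_eq_single t]
    · rw [Pi.single_eq_same, one_mul]
    · intro t' _ ht'
      rw [Pi.single_eq_of_ne ht', zero_mul]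
    · intro hh
      exact absurd (Finset.mem_univ t) hh
  simp only [h5] at h4
  have h6 : ∑ f, p f / S * u t f = (∑ f, p f * u t f) / S := by
    rw [Finset.sum_div]
    apply Finset.sum_congr rfl
    intro f _
    ring
  rw [h6, le_div_iff₀ hSpos] at ht
  rw [← hS] at h3
  nlinarith

/-- The nonadaptive form of a decision tree. -/
lemma QueryTree.dependsOn {n : ℕ} (t : QueryTree n) :
    DependsOn (2 ^ t.queries - 1) (fun f => t.run f) := by
  classical
  induction t with
  | stop b => exact ⟨∅, by simp, fun f f' _ => rfl⟩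
  | query x t₀ t₁ ih₀ ih₁ =>
    obtain ⟨Q₀, h₀, h₀'⟩ := ih₀
    obtain ⟨Q₁, h₁, h₁'⟩ := ih₁
    refine ⟨insert x (Q₀ ∪ Q₁), ?_, ?_⟩
    · have h2 := Finset.card_insert_le x (Q₀ ∪ Q₁)
      have h3 := Finset.card_union_le Q₀ Q₁
      have h4 : (QueryTree.query x t₀ t₁).queries = max t₀.queries t₁.queries + 1 := rfl
      rw [h4, pow_succ]
      have h5 : 2 ^ t₀.queries ≤ 2 ^ max t₀.queries t₁.queries :=
        Nat.pow_le_pow_right (by norm_num) (le_max_left _ _)
      have h6 : 2 ^ t₁.queries ≤ 2 ^ max t₀.queries t₁.queries :=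
        Nat.pow_le_pow_right (by norm_num) (le_max_right _ _)
      have h7 : 0 < 2 ^ t₀.queries := by positivity
      have h8 : 0 < 2 ^ t₁.queries := by positivity
      omega
    · intro f f' hf
      show (if f x = true then t₁.run f else t₀.run f) =
        (if f' x = true then t₁.run f' else t₀.run f')
      have hx : f x = f' x := hf x (Finset.mem_insert_self _ _)
      have e0 : t₀.run f = t₀.run f' :=
        h₀' f f' (fun y hy => hf y (Finset.mem_insert_of_mem (Finset.mem_union_left _ hy)))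
      have e1 : t₁.run f = t₁.run f' :=
        h₁' f f' (fun y hy => hf y (Finset.mem_insert_of_mem (Finset.mem_union_right _ hy)))
      rw [hx, e0, e1]

lemma chebyshev' {I : Type} [Fintype I] [Nonempty I] (p : I → Prop) [DecidablePred p] (m : ℕ)
    (hm0 : 0 < m) {δ : ℝ} (hδ : 0 < δ) :
    Pr (fun s : Fin m → I => (m : ℝ) * δ / 2 ≤
      |((Finset.univ.filter fun j => p (s j)).card : ℝ) - m * Pr p|) ≤ 1 / (m * δ ^ 2) := by
  classical
  set P := Pr p with hP
  have hP0 : 0 ≤ P := Pr_nonneg p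
  have hP1 : P ≤ 1 := Pr_le_one p
  set y : I → ℝ := fun i => (if p i then (1 : ℝ) else 0) - P with hy
  have hy0 : Ex y = 0 := by
    rw [hy, Ex_sub, Ex_const, ← Pr_def]
    simp [hP]
  have hy2 : Ex (fun i => y i ^ 2) ≤ 1 / 4 := by
    have h1 : ∀ i, y i ^ 2 = (1 - 2 * P) * (if p i then (1 : ℝ) else 0) + P ^ 2 := by
      intro i
      simp only [hy]
      split_ifs <;> ring
    rw [Ex_congr h1, Ex_add, Ex_const_mul, ← Pr_def, Ex_const, ← hP]
    nlinarith [sq_nonneg (P - 1 / 2)]
  have hmR : (0 : ℝ) < m := by exact_mod_cast hm0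
  have hsum : ∀ s : Fin m → I,
      ((Finset.univ.filter fun j => p (s j)).card : ℝ) - m * P = ∑ j, y (s j) := by
    intro s
    simp only [hy]
    rw [Finset.sum_sub_distrib, Finset.sum_boole]
    simp
  have hvar := Ex_sum_sq_pi y hy0 m
  have ht : (0 : ℝ) < (m * δ / 2) ^ 2 := by positivity
  refine (Pr_mono (q := fun s : Fin m → I => (m * δ / 2) ^ 2 ≤ (∑ j, y (s j)) ^ 2) ?_).trans ?_
  · intro s hs
    rw [hsum] at hs
    rw [← sq_abs (∑ j, y (s j))]
    exact pow_le_pow_left₀ (by positivity) hs 2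
  · refine (Pr_le_le _ (fun s => sq_nonneg _) ht).trans ?_
    rw [hvar, div_le_div_iff₀ ht (by positivity)]
    have h1 : (m : ℝ) * Ex (fun i => y i ^ 2) ≤ m * (1 / 4) :=
      mul_le_mul_of_nonneg_left hy2 hmR.le
    have h2 : (m : ℝ) * Ex (fun i => y i ^ 2) * (m * δ ^ 2) ≤ m * (1 / 4) * (m * δ ^ 2) :=
      mul_le_mul_of_nonneg_right h1 (by positivity)
    have e : (m : ℝ) * (1 / 4) * (m * δ ^ 2) = 1 * (m * δ / 2) ^ 2 := by ring
    linarith

end Pool.Agent.MP4d28ec
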