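import Pool.Agent.Lib.MP_4d28ec_h44.Hash
import Pool.Agent.Lib.MP_4d28ec_h44.Defs

/-!
The subtests and the analysis of a reader that passes them.
-/

open Finset

namespace Pool.Agent.MP4d28ec

open Pool.Agent.H44IT

/-- Functions on the cube of dimension `s`. -/
abbrev Fun (s : ℕ) : Type := (Fin s → Bool) → Bool

/-- A self-corrected reading. -/
def rd {n s : ℕ} (F : Fun s → Cube n → Bool) (φ : Fun s) (x : Cube n) (χ : Fun s) : Bool :=
  F (φ + χ) x + F χ x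

/-- The indicator function of one value of a hash modulo three. -/
def ind {s : ℕ} (r : Fin s → ZMod 3) (a : ZMod 3) : Fun s :=
  fun z => decide (hash3 r (fun k => c3 (z k)) = a)

/-- The reading of a hash modulo three. -/
def rd3 {n s : ℕ} (F : Fun s → Cube n → Bool) (r : Fin s → ZMod 3) (x : Cube n) (χ : Fun s) : ZMod 3 :=
  c3 (rd F (ind r 1) x χ) + 2 * c3 (rd F (ind r 2) x χ)

/-- The noise vector. -/
def noise {n s : ℕ} (o : Fin s) (u : Fin n → Fin s) : Cube n := fun i => decide (u i = o)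

def T1 {n s : ℕ} (F : Fun s → Cube n → Bool) (p : Cube n × (Fun s × Fun s)) : Prop :=
  F (p.2.1 + p.2.2) p.1 = F p.2.1 p.1 + F p.2.2 p.1

def T2 {n s : ℕ} (F : Fun s → Cube n → Bool) (p : Cube n × ((Fun s × Fun s) × Fun s)) : Prop :=
  F (p.2.1.1 * p.2.1.2 + p.2.2) p.1 + F p.2.2 p.1 = F p.2.1.1 p.1 * F p.2.1.2 p.1

def T3 {n s : ℕ} (F : Fun s → Cube n → Bool) (p : Cube n × Fun s) : Prop :=
  F (1 + p.2) p.1 + F p.2 p.1 = 1

def T4 {n s : ℕ} (F : Fun s → Cube n → Bool) (p : ((Cube n × Cube n) × (Fin s → Bool)) × Fun s) : Prop :=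
  rd F (hash2 p.1.2) (p.1.1.1 + p.1.1.2) p.2 =
    rd F (hash2 p.1.2) p.1.1.1 p.2 + rd F (hash2 p.1.2) p.1.1.2 p.2

def T5 {n s : ℕ} (F : Fun s → Cube n → Bool)
    (p : (((Cube n × Cube n) × Cube n) × (Fin s → ZMod 3)) × Fun s) : Prop :=
  rd3 F p.1.2 p.1.1.1.1 p.2 + rd3 F p.1.2 p.1.1.1.2 p.2 =
    rd3 F p.1.2 (mix p.1.1.2 p.1.1.1.1 p.1.1.1.2) p.2 + rd3 F p.1.2 (mix p.1.1.2 p.1.1.1.2 p.1.1.1.1) p.2

def T6 {n s : ℕ} (o : Fin s) (F : Fun s → Cube n → Bool)
    (p : ((Cube n × (Fin n → Fin s)) × (Fin s → Bool)) × Fun s) : Prop :=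
  rd F (hash2 p.1.2) p.1.1.1 p.2 ≠ rd F (hash2 p.1.2) (p.1.1.1 + noise o p.1.1.2) p.2

def T7 {n s : ℕ} (f : Cube n → Bool) (act : Cube n → Prop) (ix : Cube n → Fin s)
    (F : Fun s → Cube n → Bool) (p : Cube n × Fun s) : Prop :=
  act p.1 → f p.1 = rd F (fun z => z (ix p.1)) p.1 p.2

lemma exists_decode {n s : ℕ} (F : Fun s → Cube n → Bool) (δ : ℝ)
    (h1 : Pr (fun p => ¬ T1 F p) ≤ δ) (h2 : Pr (fun p => ¬ T2 F p) ≤ δ)
    (h3 : Pr (fun p => ¬ T3 F p) ≤ δ) :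
    ∃ (z : Cube n → Fin s → Bool) (r : Cube n → ℝ), Ex r ≤ 92 * δ ∧
      ∀ x φ, Pr (fun χ => rd F φ x χ ≠ φ (z x)) ≤ r x := by
  classical
  set e1 : Cube n → ℝ := fun x => Pr (fun p : Fun s × Fun s => ¬ T1 F (x, p)) with he1
  set e2 : Cube n → ℝ := fun x => Pr (fun p : (Fun s × Fun s) × Fun s => ¬ T2 F (x, p)) with he2
  set e3 : Cube n → ℝ := fun x => Pr (fun p : Fun s => ¬ T3 F (x, p)) with he3
  rw [Pr_prod] at h1 h2 h3
  have n1 : ∀ x, 0 ≤ e1 x := fun x => Pr_nonneg _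
  have n2 : ∀ x, 0 ≤ e2 x := fun x => Pr_nonneg _
  have n3 : ∀ x, 0 ≤ e3 x := fun x => Pr_nonneg _
  have hdec : ∀ x : Cube n, ∃ ω : Fin s → Bool, ∀ φ : Fun s,
      Pr (fun χ => rd F φ x χ ≠ φ ω) ≤ 2 * e1 x + 30 * (e1 x + e2 x + e3 x) := by
    intro x
    by_cases hgood : e1 x ≤ 1 / 30 ∧ e2 x ≤ 1 / 30 ∧ e3 x ≤ 1 / 30
    · obtain ⟨g1, g2, g3⟩ := hgood
      obtain ⟨ω, hω⟩ := longcode_decode (fun φ => F φ x) (e1 x) (e2 x) (e3 x)
        le_rfl le_rfl le_rfl g1 g2 g3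
      refine ⟨ω, fun φ => (hω φ).trans ?_⟩
      have := n1 x
      have := n2 x
      have := n3 x
      linarith
    · refine ⟨fun _ => false, fun φ => (Pr_le_one _).trans ?_⟩
      have m1 := n1 x
      have m2 := n2 x
      have m3 := n3 x
      by_cases g1 : e1 x ≤ 1 / 30
      · by_cases g2 : e2 x ≤ 1 / 30
        · have g3 : ¬ e3 x ≤ 1 / 30 := fun h => hgood ⟨g1, g2, h⟩
          push Not at g3
          linarith
        · push Not at g2
          linarith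
      · push Not at g1
        linarith
  choose z hz using hdec
  refine ⟨z, fun x => 2 * e1 x + 30 * (e1 x + e2 x + e3 x), ?_, hz⟩
  rw [Ex_add, Ex_const_mul, Ex_const_mul, Ex_add, Ex_add]
  change Ex e1 ≤ δ at h1
  change Ex e2 ≤ δ at h2
  change Ex e3 ≤ δ at h3
  linarith

/-- The map `g` takes the uniform distribution to the uniform distribution. -/
def Unif {α β : Type*} [Fintype α] [Fintype β] (g : α → β) : Prop :=
  ∀ ρ : β → ℝ, Ex (fun a => ρ (g a)) = Ex ρ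

lemma Unif.pr {α β : Type*} [Fintype α] [Fintype β] {g : α → β} (hg : Unif g) (p : β → Prop) :
    Pr (fun a => p (g a)) = Pr p := by
  classical
  rw [Pr_def, Pr_def]
  exact hg (fun b => if p b then (1 : ℝ) else 0)

lemma unif_fst {α β : Type*} [Fintype α] [Fintype β] [Nonempty β] : Unif (fun p : α × β => p.1) :=
  fun ρ => Ex_fst ρ

lemma unif_snd {α β : Type*} [Fintype α] [Fintype β] [Nonempty α] : Unif (fun p : α × β => p.2) :=
  fun ρ => Ex_snd ρ

lemma Unif.comp {α β γ : Type*} [Fintype α] [Fintype β] [Fintype γ] {g : α → β} {h : β → γ}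
    (hh : Unif h) (hg : Unif g) : Unif (fun a => h (g a)) := by
  intro ρ
  rw [hg (fun b => ρ (h b)), hh ρ]

lemma unif_equiv {α β : Type*} [Fintype α] [Fintype β] (e : α ≃ β) : Unif (fun a => e a) :=
  fun ρ => Ex_equiv e ρ

lemma unif_add {n : ℕ} : Unif (fun p : Cube n × Cube n => p.1 + p.2) := by
  intro ρ
  rw [Ex_prod]
  have : ∀ a : Cube n, Ex (fun b => ρ (a + b)) = Ex ρ := fun a => Ex_equiv (Equiv.addLeft a) ρ
  simp only [this]
  exact Ex_const _

lemma mix_mix {n : ℕ} (B x y : Cube n) : mix B (mix B x y) (mix B y x) = x := by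
  funext i
  simp only [mix]
  cases B i <;> rfl

/-- The crossover of two points along a fixed mask, as a permutation of the pairs. -/
def mixEquiv {n : ℕ} (B : Cube n) : (Cube n × Cube n) ≃ (Cube n × Cube n) where
  toFun q := (mix B q.1 q.2, mix B q.2 q.1)
  invFun q := (mix B q.1 q.2, mix B q.2 q.1)
  left_inv q := Prod.ext (mix_mix B q.1 q.2) (mix_mix B q.2 q.1)
  right_inv q := Prod.ext (mix_mix B q.1 q.2) (mix_mix B q.2 q.1)

lemma unif_mix {n : ℕ} : Unif (fun p : (Cube n × Cube n) × Cube n => mix p.2 p.1.1 p.1.2) := by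
  intro ρ
  rw [Ex_prod, Ex_comm]
  have key : ∀ B : Cube n, Ex (fun q : Cube n × Cube n => ρ (mix B q.1 q.2)) = Ex ρ := by
    intro B
    have h1 := Ex_equiv (mixEquiv B) (fun q' : Cube n × Cube n => ρ q'.1)
    rw [Ex_fst] at h1
    exact h1
  simp only [key]
  exact Ex_const _

lemma unif_mix' {n : ℕ} : Unif (fun p : (Cube n × Cube n) × Cube n => mix p.2 p.1.2 p.1.1) := by
  intro ρ
  rw [Ex_prod, Ex_comm]
  have key : ∀ B : Cube n, Ex (fun q : Cube n × Cube n => ρ (mix B q.2 q.1)) = Ex ρ := by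
    intro B
    have h1 := Ex_equiv (mixEquiv B) (fun q' : Cube n × Cube n => ρ q'.2)
    rw [Ex_snd] at h1
    exact h1
  simp only [key]
  exact Ex_const _

/-- The error of a self-corrected reading at a uniformly distributed point. -/
lemma read_err {n s : ℕ} {F : Fun s → Cube n → Bool} {z : Cube n → Fin s → Bool}
    {r : Cube n → ℝ} (hr : ∀ x φ, Pr (fun χ => rd F φ x χ ≠ φ (z x)) ≤ r x)
    {α : Type*} [Fintype α] {g : α → Cube n} (hg : Unif g) (φ : α → Fun s) :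
    Pr (fun p : α × Fun s => rd F (φ p.1) (g p.1) p.2 ≠ φ p.1 (z (g p.1))) ≤ Ex r := by
  rw [Pr_prod, ← hg r]
  apply Ex_mono
  intro a
  exact hr (g a) (φ a)

lemma c3_ind {s : ℕ} (r : Fin s → ZMod 3) (z : Fin s → Bool) :
    c3 (ind r 1 z) + 2 * c3 (ind r 2 z) = hash3 r (fun k => c3 (z k)) := by
  unfold ind
  generalize hash3 r (fun k => c3 (z k)) = v
  revert v
  decide

lemma read_err3 {n s : ℕ} {F : Fun s → Cube n → Bool} {z : Cube n → Fin s → Bool}
    {r : Cube n → ℝ} (hr : ∀ x φ, Pr (fun χ => rd F φ x χ ≠ φ (z x)) ≤ r x)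
    {α : Type*} [Fintype α] {g : α → Cube n} (hg : Unif g) (w : α → Fin s → ZMod 3) :
    Pr (fun p : α × Fun s => rd3 F (w p.1) (g p.1) p.2 ≠ hash3 (w p.1) (fun k => c3 (z (g p.1) k))) ≤
      2 * Ex r := by
  have h1 := read_err hr hg (fun a => ind (w a) 1)
  have h2 := read_err hr hg (fun a => ind (w a) 2)
  refine (Pr_le_add (q := fun p : α × Fun s => rd F (ind (w p.1) 1) (g p.1) p.2 ≠
      ind (w p.1) 1 (z (g p.1)))
    (r := fun p : α × Fun s => rd F (ind (w p.1) 2) (g p.1) p.2 ≠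
      ind (w p.1) 2 (z (g p.1))) ?_).trans (by linarith)
  intro p hp
  by_contra hc
  push Not at hc
  obtain ⟨c1, c2⟩ := hc
  apply hp
  unfold rd3
  rw [c1, c2, c3_ind]

end Pool.Agent.MP4d28ec
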