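import Pool.Agent.Lib.MP_4d28ec_h44.Sound

/-!
Structure of the decoded points: linearity, then rows with one coordinate.
-/

open Finset

namespace Pool.Agent.MP4d28ec

open Pool.Agent.H44IT

lemma vec3 {s : ℕ} (a b c : Fin s → Bool) : a + (b + c) = 0 ↔ a = b + c := by
  constructor
  · intro h
    funext i
    have := congrFun h i
    simp only [Pi.add_apply, Pi.zero_apply] at this ⊢
    revert this
    cases a i <;> cases b i <;> cases c i <;> decide
  · intro h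
    subst h
    funext i
    simp only [Pi.add_apply, Pi.zero_apply]
    cases b i <;> cases c i <;> decide

lemma exists_linear {n s : ℕ} {F : Fun s → Cube n → Bool} {z : Cube n → Fin s → Bool}
    {r : Cube n → ℝ} (hr : ∀ x φ, Pr (fun χ => rd F φ x χ ≠ φ (z x)) ≤ r x)
    {δ : ℝ} (hEx : Ex r ≤ 92 * δ) (h4 : Pr (fun p => ¬ T4 F p) ≤ δ) (hδ : 3324 * δ < 1) :
    ∃ Λ : Cube n →+ (Fin s → Bool), Pr (fun x => z x ≠ Λ x) ≤ 1108 * δ := by
  have ga : Unif (fun p : (Cube n × Cube n) × (Fin s → Bool) => p.1.1 + p.1.2) :=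
    unif_add.comp unif_fst
  have gb : Unif (fun p : (Cube n × Cube n) × (Fin s → Bool) => p.1.1) :=
    unif_fst.comp unif_fst
  have gc : Unif (fun p : (Cube n × Cube n) × (Fin s → Bool) => p.1.2) :=
    unif_snd.comp unif_fst
  have ra := read_err hr ga (fun p => hash2 p.2)
  have rb := read_err hr gb (fun p => hash2 p.2)
  have rc := read_err hr gc (fun p => hash2 p.2)
  have h5 : Pr (fun p : ((Cube n × Cube n) × (Fin s → Bool)) × Fun s =>
      hash2 p.1.2 (z (p.1.1.1 + p.1.1.2) + (z p.1.1.1 + z p.1.1.2)) ≠ 0) ≤ 277 * δ := by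
    refine (Pr_le_add (q := fun p => ¬ T4 F p)
      (r := fun p => rd F (hash2 p.1.2) (p.1.1.1 + p.1.1.2) p.2 ≠ hash2 p.1.2 (z (p.1.1.1 + p.1.1.2)) ∨
        (rd F (hash2 p.1.2) p.1.1.1 p.2 ≠ hash2 p.1.2 (z p.1.1.1) ∨
          rd F (hash2 p.1.2) p.1.1.2 p.2 ≠ hash2 p.1.2 (z p.1.1.2))) ?_).trans
      ((add_le_add h4 ((Pr_or_le _ _).trans (add_le_add ra
        ((Pr_or_le _ _).trans (add_le_add rb rc))))).trans (by linarith))
    intro p hp
    by_contra hc
    push Not at hc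
    obtain ⟨c0, c1, c2, c3⟩ := hc
    apply hp
    unfold T4 at c0
    rw [hash2_add, hash2_add, ← c1, ← c2, ← c3, c0]
    generalize rd F (hash2 p.1.2) p.1.1.1 p.2 + rd F (hash2 p.1.2) p.1.1.2 p.2 = b
    cases b <;> decide
  rw [Pr_fst (fun q : (Cube n × Cube n) × (Fin s → Bool) =>
    hash2 q.2 (z (q.1.1 + q.1.2) + (z q.1.1 + z q.1.2)) ≠ 0)] at h5
  have h6 := unhash2 (fun q : Cube n × Cube n => z (q.1 + q.2) + (z q.1 + z q.2))
  have h7 : Pr (fun p : Cube n × Cube n => z (p.1 + p.2) ≠ z p.1 + z p.2) ≤ 554 * δ := by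
    have : Pr (fun p : Cube n × Cube n => z (p.1 + p.2) ≠ z p.1 + z p.2) =
        Pr (fun q : Cube n × Cube n => z (q.1 + q.2) + (z q.1 + z q.2) ≠ 0) := by
      apply Pr_congr
      intro q
      rw [Ne, Ne, vec3]
    rw [this]
    linarith
  obtain ⟨Λ, _, hΛ⟩ := blr z (554 * δ) (by linarith) h7
  exact ⟨Λ, hΛ.trans (by linarith)⟩

lemma vec_c3 {s : ℕ} {a b c d : Fin s → Bool} :
    ((fun k => c3 (a k)) + (fun k => c3 (b k)) - ((fun k => c3 (c k)) + (fun k => c3 (d k))) = 0) ↔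
      ∀ k, c3 (a k) + c3 (b k) = c3 (c k) + c3 (d k) := by
  rw [sub_eq_zero]
  constructor
  · intro h k
    exact congrFun h k
  · intro h
    exact funext h

lemma cross_close {n s : ℕ} {F : Fun s → Cube n → Bool} {z : Cube n → Fin s → Bool}
    {r : Cube n → ℝ} (hr : ∀ x φ, Pr (fun χ => rd F φ x χ ≠ φ (z x)) ≤ r x)
    {δ : ℝ} (hEx : Ex r ≤ 92 * δ) (h5 : Pr (fun p => ¬ T5 F p) ≤ δ)
    (Λ : Cube n →+ (Fin s → Bool)) (hΛ : Pr (fun x => z x ≠ Λ x) ≤ 1108 * δ) :
    Pr (fun p : (Cube n × Cube n) × Cube n => ¬ ∀ k, c3 (Λ p.1.1 k) + c3 (Λ p.1.2 k) =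
      c3 (Λ (mix p.2 p.1.1 p.1.2) k) + c3 (Λ (mix p.2 p.1.2 p.1.1) k)) ≤ 5906 * δ := by
  have ga : Unif (fun p : ((Cube n × Cube n) × Cube n) × (Fin s → ZMod 3) => p.1.1.1) :=
    unif_fst.comp (unif_fst.comp unif_fst)
  have gb : Unif (fun p : ((Cube n × Cube n) × Cube n) × (Fin s → ZMod 3) => p.1.1.2) :=
    unif_snd.comp (unif_fst.comp unif_fst)
  have gc : Unif (fun p : ((Cube n × Cube n) × Cube n) × (Fin s → ZMod 3) =>
      mix p.1.2 p.1.1.1 p.1.1.2) := unif_mix.comp unif_fst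
  have gd : Unif (fun p : ((Cube n × Cube n) × Cube n) × (Fin s → ZMod 3) =>
      mix p.1.2 p.1.1.2 p.1.1.1) := unif_mix'.comp unif_fst
  have ra := read_err3 hr ga (fun p => p.2)
  have rb := read_err3 hr gb (fun p => p.2)
  have rc := read_err3 hr gc (fun p => p.2)
  have rd' := read_err3 hr gd (fun p => p.2)
  set v : (Cube n × Cube n) × Cube n → Fin s → ZMod 3 := fun p =>
    (fun k => c3 (z p.1.1 k)) + (fun k => c3 (z p.1.2 k)) -
      ((fun k => c3 (z (mix p.2 p.1.1 p.1.2) k)) + (fun k => c3 (z (mix p.2 p.1.2 p.1.1) k))) with hv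
  have h6 : Pr (fun p : (((Cube n × Cube n) × Cube n) × (Fin s → ZMod 3)) × Fun s =>
      hash3 p.1.2 (v p.1.1) ≠ 0) ≤ 737 * δ := by
    refine (Pr_le_add (q := fun p => ¬ T5 F p)
      (r := fun p => rd3 F p.1.2 p.1.1.1.1 p.2 ≠ hash3 p.1.2 (fun k => c3 (z p.1.1.1.1 k)) ∨
        (rd3 F p.1.2 p.1.1.1.2 p.2 ≠ hash3 p.1.2 (fun k => c3 (z p.1.1.1.2 k)) ∨
        (rd3 F p.1.2 (mix p.1.1.2 p.1.1.1.1 p.1.1.1.2) p.2 ≠
            hash3 p.1.2 (fun k => c3 (z (mix p.1.1.2 p.1.1.1.1 p.1.1.1.2) k)) ∨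
          rd3 F p.1.2 (mix p.1.1.2 p.1.1.1.2 p.1.1.1.1) p.2 ≠
            hash3 p.1.2 (fun k => c3 (z (mix p.1.1.2 p.1.1.1.2 p.1.1.1.1) k))))) ?_).trans
      ((add_le_add h5 ((Pr_or_le _ _).trans (add_le_add ra ((Pr_or_le _ _).trans (add_le_add rb
        ((Pr_or_le _ _).trans (add_le_add rc rd'))))))).trans (by linarith))
    intro p hp
    by_contra hc
    push Not at hc
    obtain ⟨c0, c1, c2, c3, c4⟩ := hc
    apply hp
    unfold T5 at c0
    rw [hv]
    simp only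
    rw [hash3_sub, hash3_add, hash3_add, ← c1, ← c2, ← c3, ← c4, c0, sub_self]
  rw [Pr_fst (fun q : ((Cube n × Cube n) × Cube n) × (Fin s → ZMod 3) => hash3 q.2 (v q.1) ≠ 0)] at h6
  have h7 := unhash3 v
  have h8 : Pr (fun p : (Cube n × Cube n) × Cube n => v p ≠ 0) ≤ 1474 * δ := by linarith
  have za : Pr (fun p : (Cube n × Cube n) × Cube n => z p.1.1 ≠ Λ p.1.1) ≤ 1108 * δ := by
    refine le_trans (le_of_eq ?_) hΛ
    exact Unif.pr (g := fun p : (Cube n × Cube n) × Cube n => p.1.1) (unif_fst.comp unif_fst)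
      (fun x => z x ≠ Λ x)
  have zb : Pr (fun p : (Cube n × Cube n) × Cube n => z p.1.2 ≠ Λ p.1.2) ≤ 1108 * δ := by
    refine le_trans (le_of_eq ?_) hΛ
    exact Unif.pr (g := fun p : (Cube n × Cube n) × Cube n => p.1.2) (unif_snd.comp unif_fst)
      (fun x => z x ≠ Λ x)
  have zc : Pr (fun p : (Cube n × Cube n) × Cube n =>
      z (mix p.2 p.1.1 p.1.2) ≠ Λ (mix p.2 p.1.1 p.1.2)) ≤ 1108 * δ := by
    refine le_trans (le_of_eq ?_) hΛ
    exact Unif.pr unif_mix (fun x => z x ≠ Λ x)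
  have zd : Pr (fun p : (Cube n × Cube n) × Cube n =>
      z (mix p.2 p.1.2 p.1.1) ≠ Λ (mix p.2 p.1.2 p.1.1)) ≤ 1108 * δ := by
    refine le_trans (le_of_eq ?_) hΛ
    exact Unif.pr unif_mix' (fun x => z x ≠ Λ x)
  refine (Pr_le_add (q := fun p => v p ≠ 0)
    (r := fun p => z p.1.1 ≠ Λ p.1.1 ∨ (z p.1.2 ≠ Λ p.1.2 ∨
      (z (mix p.2 p.1.1 p.1.2) ≠ Λ (mix p.2 p.1.1 p.1.2) ∨
        z (mix p.2 p.1.2 p.1.1) ≠ Λ (mix p.2 p.1.2 p.1.1)))) ?_).trans
    ((add_le_add h8 ((Pr_or_le _ _).trans (add_le_add za ((Pr_or_le _ _).trans (add_le_add zb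
        ((Pr_or_le _ _).trans (add_le_add zc zd))))))).trans (by linarith))
  intro p hp
  by_contra hc
  push Not at hc
  obtain ⟨c0, c1, c2, c3, c4⟩ := hc
  apply hp
  rw [hv] at c0
  simp only at c0
  rw [vec_c3] at c0
  intro k
  rw [← c1, ← c2, ← c3, ← c4]
  exact c0 k

/-- Evaluation of a row that reads one coordinate, or none. -/
def rowVal {n : ℕ} (a : Option (Fin n)) (x : Cube n) : Bool := a.elim false x

lemma exists_rows {n s : ℕ} (Λ : Cube n →+ (Fin s → Bool))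
    (h : Pr (fun p : (Cube n × Cube n) × Cube n => ¬ ∀ k, c3 (Λ p.1.1 k) + c3 (Λ p.1.2 k) =
      c3 (Λ (mix p.2 p.1.1 p.1.2) k) + c3 (Λ (mix p.2 p.1.2 p.1.1) k)) < 1 / 8) :
    ∃ σ : Fin s → Option (Fin n), ∀ x k, Λ x k = rowVal (σ k) x := by
  classical
  have huniq : ∀ k i j, Λ (Pi.single i 1) k ≠ 0 → Λ (Pi.single j 1) k ≠ 0 → i = j := by
    intro k i j hi hj
    by_contra hij
    have h1 := crossover_fail ((Pi.evalAddMonoidHom (fun _ : Fin s => Bool) k).comp Λ) i j hij hi hj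
    have h2 := h1.trans (Pr_mono (q := fun p : (Cube n × Cube n) × Cube n =>
      ¬ ∀ k, c3 (Λ p.1.1 k) + c3 (Λ p.1.2 k) =
      c3 (Λ (mix p.2 p.1.1 p.1.2) k) + c3 (Λ (mix p.2 p.1.2 p.1.1) k)) (by
        intro p hp hall
        exact hp (hall k)))
    linarith
  have hrow : ∀ k, ∃ a : Option (Fin n), ∀ x, Λ x k = rowVal a x := by
    intro k
    have hexp : ∀ x : Cube n, Λ x k = ∑ i, Λ (Pi.single i (x i)) k := by
      intro x
      conv_lhs => rw [← Finset.univ_sum_single x]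
      rw [map_sum, Finset.sum_apply]
    by_cases hex : ∃ i, Λ (Pi.single i 1) k ≠ 0
    · obtain ⟨i, hi⟩ := hex
      refine ⟨some i, ?_⟩
      intro x
      rw [hexp, Finset.sum_eq_single i]
      · show Λ (Pi.single i (x i)) k = x i
        cases hx : x i
        · have : (Pi.single i false : Fin n → Bool) = 0 := Pi.single_zero i
          rw [this, map_zero]
          rfl
        · exact bool_ne_zero hi
      · intro j _ hj
        have hj0 : Λ (Pi.single j 1) k = 0 := by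
          by_contra hc
          exact hj (huniq k j i hc hi)
        cases hx : x j
        · have : (Pi.single j false : Fin n → Bool) = 0 := Pi.single_zero j
          rw [this, map_zero]
          rfl
        · exact hj0
      · intro h
        exact absurd (Finset.mem_univ i) h
    · push Not at hex
      refine ⟨none, ?_⟩
      intro x
      rw [hexp]
      show _ = (0 : Bool)
      apply Finset.sum_eq_zero
      intro j _
      cases hx : x j
      · have : (Pi.single j false : Fin n → Bool) = 0 := Pi.single_zero j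
        rw [this, map_zero]
        rfl
      · exact hex j
  choose σ hσ using hrow
  exact ⟨σ, fun x k => hσ k x⟩

end Pool.Agent.MP4d28ec
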