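import Pool.Agent.Lib.MP_4d28ec_h44.Sound2

/-!
The noise test and the link test, and the conclusion for a fixed reader.
-/

open Finset

namespace Pool.Agent.MP4d28ec

open Pool.Agent.H44IT

lemma hash2_half {s : ℕ} {α : Type*} [Fintype α] (v : α → Fin s → Bool) :
    Pr (fun p : α × (Fin s → Bool) => hash2 p.2 (v p.1) ≠ 0) = 1 / 2 * Pr (fun a => v a ≠ 0) := by
  classical
  rw [Pr_prod, Pr_def, ← Ex_const_mul]
  apply Ex_congr
  intro a
  split_ifs with h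
  · rw [Pr_hash2 (v a) h]; norm_num
  · push Not at h
    rw [Pr_false]
    · norm_num
    · intro b
      rw [h, hash2_zero]
      simp

lemma unif_noise {n s : ℕ} (o : Fin s) :
    Unif (fun p : Cube n × (Fin n → Fin s) => p.1 + noise o p.2) := by
  have : Nonempty (Fin s) := ⟨o⟩
  intro ρ
  rw [Ex_prod, Ex_comm]
  have key : ∀ u : Fin n → Fin s, Ex (fun x : Cube n => ρ (x + noise o u)) = Ex ρ := by
    intro u
    exact Ex_equiv (Equiv.addRight (noise o u)) ρ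
  simp only [key]
  exact Ex_const _

/-- The coordinates used by the rows. -/
def used {n s : ℕ} (σ : Fin s → Option (Fin n)) : Finset (Fin n) :=
  Finset.univ.filter fun i => ∃ k, σ k = some i

lemma used_card_le {n s : ℕ} (σ : Fin s → Option (Fin n)) : (used σ).card ≤ s := by
  classical
  have h1 : (used σ).map Function.Embedding.some ⊆ Finset.univ.image σ := by
    intro a ha
    rw [Finset.mem_map] at ha
    obtain ⟨i, hi, rfl⟩ := ha
    simp only [used, Finset.mem_filter, Finset.mem_univ, true_and] at hi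
    obtain ⟨k, hk⟩ := hi
    rw [Finset.mem_image]
    exact ⟨k, Finset.mem_univ _, hk⟩
  have h2 := Finset.card_le_card h1
  rw [Finset.card_map] at h2
  exact h2.trans (Finset.card_image_le.trans (by simp))

lemma noise_zero_iff {n s : ℕ} (o : Fin s) (Λ : Cube n →+ (Fin s → Bool))
    (σ : Fin s → Option (Fin n)) (hσ : ∀ x k, Λ x k = rowVal (σ k) x) (u : Fin n → Fin s) :
    Λ (noise o u) = 0 ↔ ∀ i ∈ used σ, u i ≠ o := by
  constructor
  · intro h i hi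
    simp only [used, Finset.mem_filter, Finset.mem_univ, true_and] at hi
    obtain ⟨k, hk⟩ := hi
    have h1 := hσ (noise o u) k
    rw [h, hk] at h1
    intro hu
    have h2 : rowVal (some i) (noise o u) = true := by
      simp [rowVal, noise, hu]
    rw [h2] at h1
    exact absurd h1 (by simp)
  · intro h
    funext k
    rw [hσ]
    cases hk : σ k with
    | none => rfl
    | some i =>
      have hi : i ∈ used σ := by
        simp only [used, Finset.mem_filter, Finset.mem_univ, true_and]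
        exact ⟨k, hk⟩
      have := h i hi
      show noise o u i = (0 : Bool)
      simp [noise, this]
      rfl

lemma noise_bound {n s : ℕ} (hs : 2 ≤ s) (o : Fin s) {F : Fun s → Cube n → Bool}
    {z : Cube n → Fin s → Bool}
    {r : Cube n → ℝ} (hr : ∀ x φ, Pr (fun χ => rd F φ x χ ≠ φ (z x)) ≤ r x)
    {δ β : ℝ} (hEx : Ex r ≤ 92 * δ)
    (Λ : Cube n →+ (Fin s → Bool)) (hΛ : Pr (fun x => z x ≠ Λ x) ≤ 1108 * δ)
    (σ : Fin s → Option (Fin n)) (hσ : ∀ x k, Λ x k = rowVal (σ k) x)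
    (h6 : (1 - (1 - 1 / (s : ℝ)) ^ s) / 2 - β ≤ Pr (fun p => T6 o F p)) :
    (1 - 1 / (s : ℝ)) ^ (used σ).card ≤ (1 - 1 / (s : ℝ)) ^ s + (2 * β + 4800 * δ) := by
  have hne : Nonempty (Fin s) := ⟨o⟩
  have ga : Unif (fun p : (Cube n × (Fin n → Fin s)) × (Fin s → Bool) => p.1.1) :=
    unif_fst.comp unif_fst
  have gb : Unif (fun p : (Cube n × (Fin n → Fin s)) × (Fin s → Bool) => p.1.1 + noise o p.1.2) :=
    (unif_noise o).comp unif_fst
  have ra := read_err hr ga (fun p => hash2 p.2)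
  have rb := read_err hr gb (fun p => hash2 p.2)
  have la : Pr (fun p : ((Cube n × (Fin n → Fin s)) × (Fin s → Bool)) × Fun s =>
      z p.1.1.1 ≠ Λ p.1.1.1) ≤ 1108 * δ := by
    refine le_trans (le_of_eq ?_) hΛ
    exact Unif.pr (g := fun p : ((Cube n × (Fin n → Fin s)) × (Fin s → Bool)) × Fun s => p.1.1.1)
      (ga.comp unif_fst) (fun x => z x ≠ Λ x)
  have lb : Pr (fun p : ((Cube n × (Fin n → Fin s)) × (Fin s → Bool)) × Fun s =>
      z (p.1.1.1 + noise o p.1.1.2) ≠ Λ (p.1.1.1 + noise o p.1.1.2)) ≤ 1108 * δ := by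
    refine le_trans (le_of_eq ?_) hΛ
    exact Unif.pr (g := fun p : ((Cube n × (Fin n → Fin s)) × (Fin s → Bool)) × Fun s =>
      p.1.1.1 + noise o p.1.1.2) (gb.comp unif_fst) (fun x => z x ≠ Λ x)
  have h7 : Pr (fun p => T6 o F p) ≤
      Pr (fun p : ((Cube n × (Fin n → Fin s)) × (Fin s → Bool)) × Fun s =>
        hash2 p.1.2 (Λ (noise o p.1.1.2)) ≠ 0) + 2400 * δ := by
    refine (Pr_le_add (q := fun p : ((Cube n × (Fin n → Fin s)) × (Fin s → Bool)) × Fun s =>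
        hash2 p.1.2 (Λ (noise o p.1.1.2)) ≠ 0)
      (r := fun p => rd F (hash2 p.1.2) p.1.1.1 p.2 ≠ hash2 p.1.2 (z p.1.1.1) ∨
        (rd F (hash2 p.1.2) (p.1.1.1 + noise o p.1.1.2) p.2 ≠
            hash2 p.1.2 (z (p.1.1.1 + noise o p.1.1.2)) ∨
        (z p.1.1.1 ≠ Λ p.1.1.1 ∨
          z (p.1.1.1 + noise o p.1.1.2) ≠ Λ (p.1.1.1 + noise o p.1.1.2)))) ?_).trans
      (add_le_add le_rfl (((Pr_or_le _ _).trans (add_le_add ra ((Pr_or_le _ _).trans (add_le_add rb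
        ((Pr_or_le _ _).trans (add_le_add la lb)))))).trans (by linarith)))
    intro p hp
    by_contra hc
    push Not at hc
    obtain ⟨c0, c1, c2, c3, c4⟩ := hc
    apply hp
    rw [c1, c2, c3, c4, map_add, hash2_add, c0, add_zero]
  rw [Pr_fst (fun q : (Cube n × (Fin n → Fin s)) × (Fin s → Bool) =>
      hash2 q.2 (Λ (noise o q.1.2)) ≠ 0),
    hash2_half (fun q : Cube n × (Fin n → Fin s) => Λ (noise o q.2)),
    Pr_snd (fun u : Fin n → Fin s => Λ (noise o u) ≠ 0), Pr_not] at h7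
  have h8 : Pr (fun u : Fin n → Fin s => Λ (noise o u) = 0) = (1 - 1 / (s : ℝ)) ^ (used σ).card := by
    rw [← Pr_noise (by omega) o (used σ)]
    apply Pr_congr
    intro u
    exact noise_zero_iff o Λ σ hσ u
  rw [h8] at h7
  linarith

lemma pow_lower {s : ℕ} (hs : 2 ≤ s) : 1 / 6 ≤ (1 - 1 / (s : ℝ)) ^ s := by
  obtain ⟨m, rfl⟩ : ∃ m, s = m + 2 := ⟨s - 2, by omega⟩
  have hm1 : (0 : ℝ) < (m : ℝ) + 1 := by positivity
  have hm2 : (0 : ℝ) < (m : ℝ) + 2 := by positivity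
  have h1 : (1 + 1 / ((m : ℝ) + 1)) ^ (m + 1) ≤ 3 := by
    have h2 : 1 + 1 / ((m : ℝ) + 1) ≤ Real.exp (1 / ((m : ℝ) + 1)) := by
      have := Real.add_one_le_exp (1 / ((m : ℝ) + 1))
      linarith
    calc (1 + 1 / ((m : ℝ) + 1)) ^ (m + 1) ≤ (Real.exp (1 / ((m : ℝ) + 1))) ^ (m + 1) := by
          apply pow_le_pow_left₀ _ h2
          positivity
      _ = Real.exp 1 := by
          rw [← Real.exp_nat_mul]
          congr 1
          push_cast
          field_simp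
      _ ≤ 3 := by
          have := Real.exp_one_lt_d9
          linarith
  have h3 : (1 - 1 / ((m + 2 : ℕ) : ℝ)) * (1 + 1 / ((m : ℝ) + 1)) = 1 := by
    push_cast
    field_simp
    ring
  have h4 : (1 - 1 / ((m + 2 : ℕ) : ℝ)) ^ (m + 1) * (1 + 1 / ((m : ℝ) + 1)) ^ (m + 1) = 1 := by
    rw [← mul_pow, h3, one_pow]
  have h5 : (1 : ℝ) / 2 ≤ 1 - 1 / ((m + 2 : ℕ) : ℝ) := by
    push_cast
    rw [le_sub_comm]
    rw [div_le_iff₀ hm2]
    have : (0 : ℝ) ≤ m := Nat.cast_nonneg m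
    linarith
  have h6 : 0 ≤ (1 - 1 / ((m + 2 : ℕ) : ℝ)) ^ (m + 1) := pow_nonneg (by linarith) _
  have h7 : 1 / 3 ≤ (1 - 1 / ((m + 2 : ℕ) : ℝ)) ^ (m + 1) := by
    nlinarith
  have h8 : (1 - 1 / ((m + 2 : ℕ) : ℝ)) ^ (m + 2) =
      (1 - 1 / ((m + 2 : ℕ) : ℝ)) ^ (m + 1) * (1 - 1 / ((m + 2 : ℕ) : ℝ)) := pow_succ _ _
  rw [h8]
  nlinarith

lemma distinct_bound {s D : ℕ} (hs : 2 ≤ s) (hD : D ≤ s) {γ : ℝ}
    (h : (1 - 1 / (s : ℝ)) ^ D ≤ (1 - 1 / (s : ℝ)) ^ s + γ) :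
    ((s : ℝ) - D) / s ≤ 6 * γ := by
  have hs0 : (0 : ℝ) < s := by positivity
  have hs2 : (2 : ℝ) ≤ s := by exact_mod_cast hs
  obtain ⟨m, rfl⟩ : ∃ m, s = D + m := ⟨s - D, by omega⟩
  have h6 := pow_lower hs
  set q : ℝ := 1 - 1 / ((D + m : ℕ) : ℝ) with hq
  have hq0 : 0 < q := by
    rw [hq, sub_pos, div_lt_one hs0]
    linarith
  have hbern : 1 + (m : ℝ) * (1 / ((D + m : ℕ) : ℝ)) ≤ (1 + 1 / ((D + m : ℕ) : ℝ)) ^ m := by
    apply one_add_mul_le_pow
    have : 0 ≤ 1 / ((D + m : ℕ) : ℝ) := by positivity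
    linarith
  have hle1 : q * (1 + 1 / ((D + m : ℕ) : ℝ)) ≤ 1 := by
    rw [hq]
    have : 0 ≤ (1 / ((D + m : ℕ) : ℝ)) ^ 2 := by positivity
    nlinarith
  have hle : q ^ m * (1 + 1 / ((D + m : ℕ) : ℝ)) ^ m ≤ 1 := by
    rw [← mul_pow]
    apply pow_le_one₀ _ hle1
    positivity
  have hqD : 0 < q ^ D := pow_pos hq0 D
  have hqm : 0 < q ^ m := pow_pos hq0 m
  have h7 : q ^ (D + m) * (1 + (m : ℝ) * (1 / ((D + m : ℕ) : ℝ))) ≤ q ^ D := by
    rw [pow_add]
    calc q ^ D * q ^ m * (1 + (m : ℝ) * (1 / ((D + m : ℕ) : ℝ)))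
        ≤ q ^ D * q ^ m * (1 + 1 / ((D + m : ℕ) : ℝ)) ^ m := by
          apply mul_le_mul_of_nonneg_left hbern
          positivity
      _ = q ^ D * (q ^ m * (1 + 1 / ((D + m : ℕ) : ℝ)) ^ m) := by ring
      _ ≤ q ^ D * 1 := by
          apply mul_le_mul_of_nonneg_left hle hqD.le
      _ = q ^ D := mul_one _
  have h8 : (((D + m : ℕ) : ℝ) - D) / ((D + m : ℕ) : ℝ) = (m : ℝ) * (1 / ((D + m : ℕ) : ℝ)) := by
    push_cast
    ring
  rw [h8]
  have h9 : 0 ≤ (m : ℝ) * (1 / ((D + m : ℕ) : ℝ)) := by positivity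
  nlinarith

/-- A reader that passes the subtests with small failure probability reads, up to a small error,
a point of which most coordinates are different coordinates of the input. -/
theorem reader_sound {n s : ℕ} (hs : 2 ≤ s) (o : Fin s) (F : Fun s → Cube n → Bool)
    (f : Cube n → Bool) (act : Cube n → Prop) (ix : Cube n → Fin s) {δ β : ℝ}
    (hδ : 100000 * δ ≤ 1)
    (h1 : Pr (fun p => ¬ T1 F p) ≤ δ) (h2 : Pr (fun p => ¬ T2 F p) ≤ δ)
    (h3 : Pr (fun p => ¬ T3 F p) ≤ δ) (h4 : Pr (fun p => ¬ T4 F p) ≤ δ)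
    (h5 : Pr (fun p => ¬ T5 F p) ≤ δ) (h7 : Pr (fun p => ¬ T7 f act ix F p) ≤ δ)
    (h6 : (1 - (1 - 1 / (s : ℝ)) ^ s) / 2 - β ≤ Pr (fun p => T6 o F p)) :
    ∃ σ : Fin s → Option (Fin n), ((s : ℝ) - (used σ).card) / s ≤ 12 * β + 28800 * δ ∧
      Pr (fun x => act x ∧ f x ≠ rowVal (σ (ix x)) x) ≤ 1201 * δ := by
  have hδ0 : 0 ≤ δ := (Pr_nonneg _).trans h1
  obtain ⟨z, r, hEx, hr⟩ := exists_decode F δ h1 h2 h3
  obtain ⟨Λ, hΛ⟩ := exists_linear hr hEx h4 (by linarith)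
  have hc := cross_close hr hEx h5 Λ hΛ
  obtain ⟨σ, hσ⟩ := exists_rows Λ (lt_of_le_of_lt hc (by linarith))
  have hn := noise_bound hs o hr hEx Λ hΛ σ hσ h6
  refine ⟨σ, (distinct_bound hs (used_card_le σ) hn).trans (by linarith), ?_⟩
  have ra := read_err hr (g := fun x : Cube n => x) (fun ρ => rfl) (fun x => (fun z => z (ix x)))
  have h8 : Pr (fun p : Cube n × Fun s => act p.1 ∧ f p.1 ≠ z p.1 (ix p.1)) ≤ 93 * δ := by
    refine (Pr_le_add (q := fun p => ¬ T7 f act ix F p)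
      (r := fun p : Cube n × Fun s => rd F (fun z => z (ix p.1)) p.1 p.2 ≠ z p.1 (ix p.1)) ?_).trans
      ((add_le_add h7 ra).trans (by linarith))
    rintro p ⟨hp1, hp2⟩
    by_contra hcon
    push Not at hcon
    obtain ⟨c0, c1⟩ := hcon
    apply hp2
    rw [← c1]
    exact c0 hp1
  rw [Pr_fst (fun x : Cube n => act x ∧ f x ≠ z x (ix x))] at h8
  refine (Pr_le_add (q := fun x : Cube n => act x ∧ f x ≠ z x (ix x))
    (r := fun x => z x ≠ Λ x) ?_).trans ((add_le_add h8 hΛ).trans (by linarith))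
  rintro x ⟨hx1, hx2⟩
  by_contra hcon
  push Not at hcon
  obtain ⟨c0, c1⟩ := hcon
  apply hx2
  rw [← hσ, ← c1]
  exact c0 hx1

end Pool.Agent.MP4d28ec
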